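import Pool.Agent.H48T.Win

/-! The lowest scales. -/

set_option autoImplicit false

namespace Pool.Agent.H48T

open Finset
open Pool.Agent.H320R2.PD Pool.Agent.H499R2.ND
open Pool.Agent.H499R2.CO (Tz)
open Pool.Agent.R344.SP Pool.Agent.R344.TH

/-- the lowest scales -/
theorem base2 {d : ℤ} (hd : d % 2 = 1) (hd3 : IsCoprime d 3) {γ : ℝ} (hγ0 : 0 < γ) (hγ : γ ≤ 1 / 2)
    (B : ℕ) : ∃ l₀ : ℝ, 0 < l₀ ∧ ∀ z : ℝ, 0 < z → l₀ ≤ Real.log z → ∀ (A₀ : Set ℤ) (θ : ℝ), 0 ≤ θ →
      (∀ X : ℝ, z ≤ X → ((fA A₀ z X).card : ℝ) ≤ θ * X) →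
      ∀ A : ℝ, 0 < A → Real.log z + (Real.log z) ^ γ ≤ Real.log A →
        Real.log A ≤ Real.log z + 3 * (Real.log z) ^ γ → ∀ m : ℕ,
        (m : ℝ) ≤ (Real.log A) ^ (γ / 2) → PB (SZ d A₀ z) A m
          (36 * 201 ^ 4 * Real.sqrt θ * ((Real.log z) ^ γ) ^ 4 + 1 / (Real.log z) ^ B) := by
  classical
  obtain ⟨ρ, hρ0, hρ1, hod⟩ := od_large hd (c₁ := 0.6) (by norm_num)
  have hlogρ : Real.log ρ < 0 := Real.log_neg hρ0 hρ1
  set c : ℝ := -(1.4 * Real.log ρ) with hc
  have hc0 : 0 < c := by rw [hc]; linarith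
  have hev1 : ∀ᶠ u : ℝ in Filter.atTop, u ^ ((B : ℝ) / γ + 1) * Real.exp (-(c / 2) * u) ≤ 1 / 808 :=
    (tendsto_rpow_mul_exp_neg_mul_atTop_nhds_zero _ (c / 2) (by positivity)).eventually_le_const (by norm_num)
  have hev2 : ∀ᶠ u : ℝ in Filter.atTop, 4000 ≤ u := Filter.eventually_ge_atTop _
  have hev3 : ∀ᶠ u : ℝ in Filter.atTop, (4.8 / c) ^ 2 ≤ u := Filter.eventually_ge_atTop _
  obtain ⟨u₀, hu₀⟩ := Filter.eventually_atTop.1 (hev1.and (hev2.and hev3))
  refine ⟨max (max 1000000 (2 * |(d : ℝ)|)) ((max u₀ 1) ^ (1 / γ)), by positivity, ?_⟩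
  intro z hz hl A₀ θ hθ hA₀ A hApos hA1 hA2 m hm
  set l := Real.log z with hldef
  have hl1 : 1000000 ≤ l := (le_max_left _ _).trans ((le_max_left _ _).trans hl)
  have hl2 : 2 * |(d : ℝ)| ≤ l := (le_max_right _ _).trans ((le_max_left _ _).trans hl)
  have hl3 : (max u₀ 1) ^ (1 / γ) ≤ l := (le_max_right _ _).trans hl
  have hl0 : 0 < l := by linarith
  set u := l ^ γ with hu
  have hupos : 0 < u := by rw [hu]; positivity
  have hum : max u₀ 1 ≤ u := by
    have h1 : ((max u₀ 1) ^ (1 / γ)) ^ γ ≤ l ^ γ := Real.rpow_le_rpow (by positivity) hl3 hγ0.le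
    rwa [← Real.rpow_mul (by positivity), one_div, inv_mul_cancel₀ hγ0.ne', Real.rpow_one] at h1
  obtain ⟨h1, h2, h3⟩ := hu₀ u ((le_max_left _ _).trans hum)
  have hexpz : Real.exp l = z := Real.exp_log hz
  have hexpA : Real.exp (Real.log A) = A := Real.exp_log hApos
  have hln2a := Real.log_two_gt_d9
  have hln2b := Real.log_two_lt_d9
  have hln3 := log3_le
  -- `u ≤ √l`
  have husq : u ≤ Real.sqrt l := by
    rw [Real.sqrt_eq_rpow]; exact Real.rpow_le_rpow_of_exponent_le (by linarith) hγ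
  have hsl : Real.sqrt l ≤ l / 1000 := by
    rw [Real.sqrt_le_left (by positivity)]
    nlinarith
  have hul : u ≤ l / 1000 := husq.trans hsl
  -- the parameter `K`
  obtain ⟨K, hK⟩ : ∃ K : ℕ, K = ⌈200 * u⌉₊ := ⟨_, rfl⟩
  have hK1 : 200 * u ≤ K := by rw [hK]; exact Nat.le_ceil _
  have hK2 : (K : ℝ) ≤ 200 * u + 1 := by rw [hK]; exact (Nat.ceil_lt_add_one (by positivity)).le
  have hK3 : (K : ℝ) ≤ 201 * u := by linarith
  obtain ⟨T₀, hT₀⟩ : ∃ T₀ : ℕ, T₀ = ⌈1.4 * u⌉₊ := ⟨_, rfl⟩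
  have hT₀1 : 1.4 * u ≤ T₀ := by rw [hT₀]; exact Nat.le_ceil _
  have hT₀1N : 1 ≤ T₀ := by
    have : (1 : ℝ) ≤ T₀ := by linarith
    exact_mod_cast this
  have hT₀K : T₀ ≤ K := by
    rw [hT₀, hK]; exact Nat.ceil_le_ceil (by linarith)
  have h2pow : ∀ j : ℕ, (2 : ℝ) ^ j = Real.exp (j * Real.log 2) := by
    intro j; rw [Real.exp_nat_mul, Real.exp_log (by norm_num)]
  have h3pow : ∀ j : ℕ, (3 : ℝ) ^ j = Real.exp (j * Real.log 3) := by
    intro j; rw [Real.exp_nat_mul, Real.exp_log (by norm_num)]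
  have hKd : ∀ T : ℕ, T ≤ K → (T : ℝ) * |(d : ℝ)| ≤ z := by
    intro T hT
    have e0 : (T : ℝ) ≤ K := by exact_mod_cast hT
    have e1 : (T : ℝ) ≤ l := by linarith
    have e2 : l ^ 2 / 2 ≤ z := by
      have := Real.pow_div_factorial_le_exp l hl0.le 2
      rw [hexpz] at this
      simpa using this
    have e3 : (T : ℝ) * |(d : ℝ)| ≤ l * (l / 2) :=
      mul_le_mul e1 (by linarith) (abs_nonneg _) hl0.le
    linarith
  have hdz : |(d : ℝ)| ≤ z := by
    have := hKd 1 (by omega)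
    simpa using this
  have hm2 : (m : ℝ) ≤ 2 * Real.sqrt u := by
    refine hm.trans ?_
    have e2 : Real.log A ≤ 4 * l := by linarith
    have e3 : 0 ≤ Real.log A := by linarith
    calc (Real.log A) ^ (γ / 2) ≤ (4 * l) ^ (γ / 2) := Real.rpow_le_rpow e3 e2 (by positivity)
      _ = 4 ^ (γ / 2) * l ^ (γ / 2) := Real.mul_rpow (by norm_num) hl0.le
      _ ≤ 2 * Real.sqrt u := by
          apply mul_le_mul _ _ (by positivity) (by norm_num)
          · calc (4 : ℝ) ^ (γ / 2) ≤ 4 ^ (1 / 2 : ℝ) :=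
                  Real.rpow_le_rpow_of_exponent_le (by norm_num) (by linarith)
              _ = 2 := by
                  rw [← Real.sqrt_eq_rpow, show (4 : ℝ) = 2 ^ 2 by norm_num]
                  exact Real.sqrt_sq (by norm_num)
          · rw [hu, Real.sqrt_eq_rpow, ← Real.rpow_mul hl0.le]
            exact le_of_eq (by congr 1; ring)
  have hsqu : Real.sqrt u * Real.sqrt u = u := Real.mul_self_sqrt hupos.le
  have hsq60 : 60 ≤ Real.sqrt u := Real.le_sqrt_of_sq_le (by linarith)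
  have h3m : (3 : ℝ) ^ m ≤ Real.exp (2.4 * Real.sqrt u) := by
    rw [h3pow]
    apply Real.exp_le_exp.2
    calc (m : ℝ) * Real.log 3 ≤ (2 * Real.sqrt u) * 1.2 :=
          mul_le_mul hm2 (by linarith) (Real.log_nonneg (by norm_num)) (by positivity)
      _ = _ := by ring
  have h2KA : ∀ T : ℕ, T ≤ K → (3 : ℝ) ^ m * 2 ^ T ≤ A := by
    intro T hT
    have e0 : (T : ℝ) ≤ K := by exact_mod_cast hT
    calc (3 : ℝ) ^ m * 2 ^ T ≤ Real.exp (2.4 * Real.sqrt u) * Real.exp (T * Real.log 2) :=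
          mul_le_mul h3m (h2pow T).le (by positivity) (Real.exp_pos _).le
      _ = Real.exp (2.4 * Real.sqrt u + T * Real.log 2) := by rw [Real.exp_add]
      _ ≤ Real.exp (Real.log A) := by
          apply Real.exp_le_exp.2
          have e1 : (T : ℝ) * Real.log 2 ≤ (200 * u + 1) * 0.7 :=
            mul_le_mul (by linarith) (by linarith) (by linarith) (by positivity)
          have e2 : Real.sqrt u ≤ u := by nlinarith
          linarith
      _ = A := hexpA
  have hAz : A ≤ z * Real.exp (3 * u) := by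
    rw [← hexpA, ← hexpz, ← Real.exp_add]
    exact Real.exp_le_exp.2 hA2
  have hAz2 : z * Real.exp u ≤ A := by
    rw [← hexpA, ← hexpz, ← Real.exp_add]
    exact Real.exp_le_exp.2 hA1
  -- small number of odd terms at time `K` is impossible above `z`
  have hcl : ∀ j : ℕ, (j : ℝ) < 0.6 * K → 4 * A * 3 ^ j < z * 2 ^ K := by
    intro j hj
    have e1 : (3 : ℝ) ^ j ≤ Real.exp (0.96 * (K * Real.log 2)) := by
      rw [h3pow]
      apply Real.exp_le_exp.2
      calc (j : ℝ) * Real.log 3 ≤ (0.6 * K) * (8 / 5 * Real.log 2) := by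
            apply mul_le_mul hj.le hln3 (Real.log_nonneg (by norm_num)) (by positivity)
        _ = _ := by ring
    have e2 : 4 * A * 3 ^ j ≤ Real.exp (2 * Real.log 2) * (z * Real.exp (3 * u))
        * Real.exp (0.96 * (K * Real.log 2)) := by
      have : Real.exp (2 * Real.log 2) = 4 := by
        rw [show (2 : ℝ) * Real.log 2 = ((2 : ℕ) : ℝ) * Real.log 2 by norm_num, Real.exp_nat_mul,
          Real.exp_log (by norm_num)]
        norm_num
      rw [this]
      apply mul_le_mul _ e1 (by positivity) (by positivity)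
      linarith
    refine e2.trans_lt ?_
    have e3 : Real.exp (2 * Real.log 2) * (z * Real.exp (3 * u)) * Real.exp (0.96 * (K * Real.log 2))
        = z * Real.exp (2 * Real.log 2 + 3 * u + 0.96 * (K * Real.log 2)) := by
      rw [Real.exp_add, Real.exp_add]; ring
    rw [e3, h2pow]
    apply mul_lt_mul_of_pos_left _ hz
    apply Real.exp_lt_exp.2
    have e4 : 200 * u * 0.69 ≤ K * Real.log 2 := mul_le_mul hK1 (by linarith) (by norm_num) (by positivity)
    linarith
  intro p q hp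
  -- the cover
  set C := cls (SZ d A₀ z) A (2 * A) m p q with hC
  set S : ℕ → Finset ℤ := fun T => C.filter (fun M => (od d T M : ℝ) < 0.6 * T ∧ (Tz d)^[T] M ∈ A₀ ∧
    (∀ j ≤ T, z ≤ (((Tz d)^[j] M : ℤ) : ℝ))) with hS
  set L : ℕ → Finset ℤ := fun T => (Wn A).filter (fun n => 0.6 * T ≤ (od d T n : ℝ)) with hL
  have hcov : C ⊆ (Ico T₀ K).biUnion S ∪ (Icc T₀ K).biUnion L := by
    intro M hM
    have hM' := hM
    rw [hC, mem_cls] at hM'
    obtain ⟨hMA, hModd, hMS, hMc⟩ := hM'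
    obtain ⟨T, hT1, hT2, j₀, hj₀, hj₀2⟩ := hMS
    have hMW : M ∈ Wn A := mem_Wn.2 hMA
    have hM0 : 0 < M := by
      have : (0 : ℝ) < M := lt_of_lt_of_le hApos hMA.1
      exact_mod_cast this
    rw [mem_union, mem_biUnion, mem_biUnion]
    -- `T ≥ T₀`
    have hTT₀ : T₀ ≤ T := by
      have e1 := lower hd hdz (x := M) j₀ (fun i hi => hT2 i (by omega))
      have e2 : z * Real.exp u < 2 ^ j₀ * (2 * z) := by
        calc z * Real.exp u ≤ M := hAz2.trans hMA.1
          _ ≤ 2 ^ j₀ * (((Tz d)^[j₀] M : ℤ) : ℝ) := e1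
          _ < 2 ^ j₀ * (2 * z) := mul_lt_mul_of_pos_left hj₀2 (by positivity)
      have e3 : Real.exp u < Real.exp ((j₀ + 1) * Real.log 2) := by
        have e4 : (2 : ℝ) ^ j₀ * (2 * z) = z * Real.exp ((j₀ + 1) * Real.log 2) := by
          rw [add_mul, one_mul, Real.exp_add, Real.exp_log (by norm_num), ← h2pow]; ring
        rw [e4] at e2
        exact lt_of_mul_lt_mul_left e2 hz.le
      rw [Real.exp_lt_exp] at e3
      rw [hT₀]
      apply Nat.ceil_le.2
      have e5 : (j₀ : ℝ) ≤ T := by exact_mod_cast hj₀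
      have e6 : ((j₀ : ℝ) + 1) * Real.log 2 ≤ (T + 1) * 0.6931471808 :=
        mul_le_mul (by linarith) hln2b.le (by linarith) (by positivity)
      linarith
    by_cases hTK : T < K
    · by_cases hodc : (od d T M : ℝ) < 0.6 * T
      · left
        refine ⟨T, mem_Ico.2 ⟨hTT₀, hTK⟩, ?_⟩
        rw [hS, mem_filter]
        exact ⟨hM, hodc, hT1, hT2⟩
      · right
        refine ⟨T, mem_Icc.2 ⟨hTT₀, hTK.le⟩, ?_⟩
        rw [hL, mem_filter]
        exact ⟨hMW, not_lt.1 hodc⟩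
    · right
      push Not at hTK
      refine ⟨K, mem_Icc.2 ⟨hT₀K, le_rfl⟩, ?_⟩
      rw [hL, mem_filter]
      refine ⟨hMW, ?_⟩
      by_contra hcon
      push Not at hcon
      have h1 := growth_two hd hz (hKd K le_rfl) hM0 (fun i hi => hT2 i (by omega))
      have h2 := hcl _ hcon
      have h3 := hT2 K hTK
      have h4 : z * 2 ^ K ≤ 2 * (3 ^ od d K M * M) :=
        (mul_le_mul_of_nonneg_right h3 (by positivity)).trans h1
      have h5 : 2 * ((3 : ℝ) ^ od d K M * M) ≤ 4 * A * 3 ^ od d K M := by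
        have : (0 : ℝ) < 3 ^ od d K M := by positivity
        nlinarith [hMA.2]
      linarith
  have hcard : (C.card : ℝ) ≤ ∑ T ∈ Ico T₀ K, ((S T).card : ℝ) + ∑ T ∈ Icc T₀ K, ((L T).card : ℝ) := by
    have h1 := (card_le_card hcov).trans (card_union_le _ _)
    have h2 : ((Ico T₀ K).biUnion S).card ≤ ∑ T ∈ Ico T₀ K, (S T).card := card_biUnion_le
    have h3 : ((Icc T₀ K).biUnion L).card ≤ ∑ T ∈ Icc T₀ K, (L T).card := card_biUnion_le
    have h4 := h1.trans (add_le_add h2 h3)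
    exact_mod_cast h4
  -- the hits
  have hSb : ∀ T ∈ Ico T₀ K, ((S T).card : ℝ) ≤ A / 3 ^ m * (18 * Real.sqrt θ * (201 * u) ^ 3) := by
    intro T hT
    rw [mem_Ico] at hT
    have hTR1 : (T₀ : ℝ) ≤ T := by exact_mod_cast hT.1
    have hTR2 : (T : ℝ) ≤ K := by exact_mod_cast hT.2.le
    refine (hit_time hd hd3 A₀ hz hθ hA₀ (T := T) (m := m) (by omega) (hKd T hT.2.le) hp (v := q) hApos
      ((h2KA T hT.2.le).trans (by linarith)) (S T) (by
        intro M hM
        rw [hS, mem_filter] at hM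
        obtain ⟨hMC, hM1, hM2, hM3⟩ := hM
        rw [hC, mem_cls] at hMC
        refine ⟨hMC.1.2, Int.odd_iff.1 hMC.2.1, Or.inr ?_, hM2, hM3, hMC.2.2.2⟩
        have e1 : ((3 : ℝ)) ^ (od d T M + m) ≤ 2 ^ T := by
          rw [h3pow, h2pow]
          apply Real.exp_le_exp.2
          push_cast
          have e2 : (m : ℝ) ≤ 0.025 * T := by nlinarith
          have e3 : ((od d T M : ℝ) + m) ≤ 0.625 * T := by linarith
          calc ((od d T M : ℝ) + m) * Real.log 3 ≤ (0.625 * T) * (8 / 5 * Real.log 2) :=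
                mul_le_mul e3 hln3 (Real.log_nonneg (by norm_num)) (by positivity)
            _ = T * Real.log 2 := by ring
        exact_mod_cast e1)).trans ?_
    apply mul_le_mul_of_nonneg_left _ (by positivity)
    apply mul_le_mul_of_nonneg_left _ (by positivity)
    exact pow_le_pow_left₀ (Nat.cast_nonneg _) (hTR2.trans hK3) 3
  have hS1 : ∑ T ∈ Ico T₀ K, ((S T).card : ℝ) ≤ A / 3 ^ m * (18 * Real.sqrt θ * (201 * u) ^ 4) := by
    refine (sum_le_sum hSb).trans ?_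
    rw [sum_const, nsmul_eq_mul, Nat.card_Ico]
    have e1 : ((K - T₀ : ℕ) : ℝ) ≤ 201 * u := by
      have : K - T₀ ≤ K := Nat.sub_le _ _
      have : ((K - T₀ : ℕ) : ℝ) ≤ K := by exact_mod_cast this
      linarith
    calc ((K - T₀ : ℕ) : ℝ) * (A / 3 ^ m * (18 * Real.sqrt θ * (201 * u) ^ 3))
        ≤ (201 * u) * (A / 3 ^ m * (18 * Real.sqrt θ * (201 * u) ^ 3)) :=
          mul_le_mul_of_nonneg_right e1 (by positivity)
      _ = _ := by ring
  -- the large deviations
  have hLb : ∀ T ∈ Icc T₀ K, ((L T).card : ℝ) ≤ 2 * A * Real.exp (-c * u) := by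
    intro T hT
    rw [mem_Icc] at hT
    have hTR1 : (T₀ : ℝ) ≤ T := by exact_mod_cast hT.1
    refine (hod T A hApos.le).trans ?_
    have e1 : (2 : ℝ) ^ T ≤ A := by
      have := h2KA T hT.2
      have h3 : (1 : ℝ) ≤ 3 ^ m := one_le_pow₀ (by norm_num)
      have h4 : (0 : ℝ) < 2 ^ T := by positivity
      nlinarith
    have e2 : ρ ^ T ≤ Real.exp (-c * u) := by
      have : ρ ^ T = Real.exp (T * Real.log ρ) := by rw [Real.exp_nat_mul, Real.exp_log hρ0]
      rw [this]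
      apply Real.exp_le_exp.2
      have e3 : (T : ℝ) * Real.log ρ ≤ (1.4 * u) * Real.log ρ :=
        mul_le_mul_of_nonpos_right (by linarith) hlogρ.le
      have e4 : -c * u = (1.4 * u) * Real.log ρ := by rw [hc]; ring
      linarith
    apply mul_le_mul (by linarith) e2 (by positivity) (by positivity)
  have hL1 : ∑ T ∈ Icc T₀ K, ((L T).card : ℝ) ≤ (202 * u) * (2 * A * Real.exp (-c * u)) := by
    refine (sum_le_sum hLb).trans ?_
    rw [sum_const, nsmul_eq_mul, Nat.card_Icc]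
    apply mul_le_mul_of_nonneg_right _ (by positivity)
    have : K + 1 - T₀ ≤ K + 1 := Nat.sub_le _ _
    have : ((K + 1 - T₀ : ℕ) : ℝ) ≤ ((K + 1 : ℕ) : ℝ) := by exact_mod_cast this
    push_cast at this
    linarith
  have h3m0 : (0 : ℝ) < 3 ^ m := by positivity
  have hfin : (202 * u) * (2 * A * Real.exp (-c * u)) ≤ 1 / l ^ B * (A / (2 * 3 ^ m)) := by
    have e1 : (3 : ℝ) ^ m ≤ Real.exp (c / 2 * u) := by
      refine h3m.trans (Real.exp_le_exp.2 ?_)
      have e2 : 4.8 / c ≤ Real.sqrt u := Real.le_sqrt_of_sq_le h3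
      rw [div_le_iff₀ hc0] at e2
      nlinarith [Real.sqrt_nonneg u]
    have e2 : Real.exp (-c * u) * 3 ^ m ≤ Real.exp (-(c / 2) * u) := by
      calc Real.exp (-c * u) * 3 ^ m ≤ Real.exp (-c * u) * Real.exp (c / 2 * u) :=
            mul_le_mul_of_nonneg_left e1 (Real.exp_pos _).le
        _ = _ := by rw [← Real.exp_add]; congr 1; ring
    have hP : l ^ B * u = u ^ ((B : ℝ) / γ + 1) := by
      rw [Real.rpow_add hupos, Real.rpow_one, hu, ← Real.rpow_mul hl0.le, mul_div_cancel₀ _ hγ0.ne',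
        Real.rpow_natCast]
    rw [← hP] at h1
    have e3 : 808 * u * l ^ B * (Real.exp (-c * u) * 3 ^ m) ≤ 1 := by
      calc 808 * u * l ^ B * (Real.exp (-c * u) * 3 ^ m) ≤ 808 * u * l ^ B * Real.exp (-(c / 2) * u) :=
            mul_le_mul_of_nonneg_left e2 (by positivity)
        _ = 808 * (l ^ B * u * Real.exp (-(c / 2) * u)) := by ring
        _ ≤ 1 := by linarith
    rw [div_mul_div_comm, one_mul, le_div_iff₀ (by positivity)]
    calc 202 * u * (2 * A * Real.exp (-c * u)) * (l ^ B * (2 * 3 ^ m))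
        = A * (808 * u * l ^ B * (Real.exp (-c * u) * 3 ^ m)) := by ring
      _ ≤ A * 1 := mul_le_mul_of_nonneg_left e3 hApos.le
      _ = A := mul_one _
  have hfin2 : A / 3 ^ m * (18 * Real.sqrt θ * (201 * u) ^ 4) =
      36 * 201 ^ 4 * Real.sqrt θ * u ^ 4 * (A / (2 * 3 ^ m)) := by
    field_simp
    ring
  rw [add_mul, ← hfin2]
  linarith

end Pool.Agent.H48T
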