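import Pool.Agent.H48T.First
import Pool.Agent.H48T.Scale

/-! Thin sets: all starting points. -/

set_option autoImplicit false

namespace Pool.Agent.H48T

open Finset
open Pool.Agent.H320R2.PD Pool.Agent.H499R2.ND
open Pool.Agent.H499R2.CO (Tz)
open Pool.Agent.R344.SP Pool.Agent.R344.TH

theorem sum_rp {δ : ℝ} (hδ : 0 < δ) : ∃ S : ℝ, 0 < S ∧ ∀ κ : ℝ, 0 ≤ κ → ∀ a : ℝ, 1 ≤ a → ∀ I : ℕ,
    ∑ i ∈ range I, (a + i * Real.log 2) ^ (-(κ + 1 + δ)) ≤ S * a ^ (-κ) := by
  have hsum : Summable (fun i : ℕ => (((1 : ℝ) + i) / 2) ^ (-(1 + δ))) := by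
    have h1 : Summable (fun n : ℕ => 1 / (n : ℝ) ^ (1 + δ)) := Real.summable_one_div_nat_rpow.2 (by linarith)
    have h2 := (summable_nat_add_iff 1).2 h1
    have h3 := h2.mul_left ((1 / 2 : ℝ) ^ (-(1 + δ)))
    refine h3.congr fun i => ?_
    have e1 : ((1 : ℝ) + i) / 2 = (1 / 2) * ((i + 1 : ℕ) : ℝ) := by push_cast; ring
    have e2 : (((i + 1 : ℕ) : ℝ)) ^ (-(1 + δ)) = 1 / ((i + 1 : ℕ) : ℝ) ^ (1 + δ) := by
      rw [Real.rpow_neg (by positivity), one_div]
    rw [e1, Real.mul_rpow (by norm_num) (by positivity), e2]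
  refine ⟨(∑' i : ℕ, (((1 : ℝ) + i) / 2) ^ (-(1 + δ))) + 1, ?_, ?_⟩
  · have : 0 ≤ ∑' i : ℕ, (((1 : ℝ) + i) / 2) ^ (-(1 + δ)) := tsum_nonneg fun i => by positivity
    linarith
  intro κ hκ a ha I
  have ha0 : 0 < a := by linarith
  have hterm : ∀ i ∈ range I, (a + i * Real.log 2) ^ (-(κ + 1 + δ)) ≤
      a ^ (-κ) * (((1 : ℝ) + i) / 2) ^ (-(1 + δ)) := by
    intro i _
    have hi : (0 : ℝ) ≤ i := Nat.cast_nonneg i
    have hln := Real.log_two_gt_d9
    have h1 : a ≤ a + i * Real.log 2 := by nlinarith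
    have h2 : ((1 : ℝ) + i) / 2 ≤ a + i * Real.log 2 := by nlinarith
    have h0 : 0 < a + i * Real.log 2 := by linarith
    rw [show -(κ + 1 + δ) = -κ + -(1 + δ) by ring, Real.rpow_add h0]
    apply mul_le_mul _ _ (by positivity) (by positivity)
    · exact Real.rpow_le_rpow_of_nonpos ha0 h1 (by linarith)
    · exact Real.rpow_le_rpow_of_nonpos (by positivity) h2 (by linarith)
  refine (sum_le_sum hterm).trans ?_
  rw [← mul_sum, mul_comm]
  apply mul_le_mul_of_nonneg_right _ (by positivity)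
  have := hsum.sum_le_tsum (range I) (fun i _ => by positivity)
  linarith

/-- the trajectories which meet a thin set before going below `Y`: relative density in the windows -/
theorem HY_PB {d : ℤ} (hd : Odd d) (hd3 : IsCoprime d 3) {U κ : ℝ} (hκ : 0 ≤ κ) (hU : κ < U / 2 - 1) :
    ∃ l₀ K : ℝ, 0 < l₀ ∧ 0 < K ∧ ∀ Y : ℝ, 0 < Y → l₀ ≤ Real.log Y → ∀ A₀ : Set ℤ,
      (∀ X : ℝ, Y ≤ X → ((fA A₀ Y X).card : ℝ) ≤ (Real.log X) ^ (-U) * X) →
      ∀ A : ℝ, Y / 2 ≤ A → PB (HY d A₀ Y) A 0 (K * (Real.log Y) ^ (-κ)) := by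
  classical
  have hd2 : d % 2 = 1 := Int.odd_iff.1 hd
  set δ : ℝ := (U / 2 - 1 - κ) / 6 with hδ
  have hδ0 : 0 < δ := by rw [hδ]; linarith
  have hUδ : U / 2 = κ + 1 + 6 * δ := by rw [hδ]; ring
  set γ : ℝ := min (1 / 2) δ with hγdef
  have hγ0 : 0 < γ := lt_min (by norm_num) hδ0
  have hγ : γ ≤ 1 / 2 := min_le_left _ _
  have hγδ : γ ≤ δ := min_le_right _ _
  obtain ⟨B, hB⟩ : ∃ B : ℕ, U / 2 ≤ B := exists_nat_ge _
  have hB1 : 1 ≤ B := by
    have : (0 : ℝ) < B := by linarith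
    exact_mod_cast this
  obtain ⟨l₂, K₂, hl₂, hK₂, hscale⟩ := SZ_PB2 hd hd3 hγ0 hγ B hB1
  obtain ⟨l₁, hl₁, hfirst⟩ := first hd2 hd3 hγ0 hγ B
  obtain ⟨S, hS, hsum⟩ := sum_rp hδ0
  set C₁ : ℝ := 2 ^ (U / 2) with hC₁
  have hC₁0 : 0 < C₁ := by rw [hC₁]; positivity
  set C₂ : ℝ := (2 * C₁ + 18 * 201 ^ 4 * C₁ * 4 + 1) * 2 ^ κ with hC₂
  have hC₂0 : 0 < C₂ := by rw [hC₂]; positivity
  refine ⟨max (max l₂ (l₁ + 1)) 1000, 2 * K₂ * S + 2 * C₂, by positivity, by positivity, ?_⟩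
  intro Y hY hl A₀ hA₀ A hA
  set l := Real.log Y with hldef
  have hll₂ : l₂ ≤ l := (le_max_left _ _).trans ((le_max_left _ _).trans hl)
  have hll₁ : l₁ + 1 ≤ l := (le_max_right _ _).trans ((le_max_left _ _).trans hl)
  have hl1000 : 1000 ≤ l := (le_max_right _ _).trans hl
  have hl0 : 0 < l := by linarith
  have hApos : 0 < A := by linarith
  set t := Real.log A with htdef
  have hln2a := Real.log_two_gt_d9
  have hln2b := Real.log_two_lt_d9
  have htl : l - Real.log 2 ≤ t := by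
    rw [hldef, htdef, ← Real.log_div hY.ne' (by norm_num)]
    exact Real.log_le_log (by positivity) hA
  have ht999 : 999 ≤ t := by linarith
  have ht0 : 0 < t := by linarith
  have hexpA : Real.exp t = A := Real.exp_log hApos
  have hexpY : Real.exp l = Y := Real.exp_log hY
  -- thinness above any level `z ≥ Y`
  have hthin : ∀ z : ℝ, Y ≤ z → ∀ X : ℝ, z ≤ X → ((fA A₀ z X).card : ℝ) ≤ (Real.log z) ^ (-U) * X := by
    intro z hz X hX
    have hX0 : 0 < X := by linarith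
    have h1 : fA A₀ z X ⊆ fA A₀ Y X := by
      intro x hx
      rw [mem_fA] at hx ⊢
      exact ⟨⟨hz.trans hx.1.1, hx.1.2⟩, hx.2⟩
    have h2 : ((fA A₀ z X).card : ℝ) ≤ ((fA A₀ Y X).card : ℝ) := by exact_mod_cast card_le_card h1
    refine h2.trans ((hA₀ X (hz.trans hX)).trans ?_)
    apply mul_le_mul_of_nonneg_right _ hX0.le
    have hlz : l ≤ Real.log z := Real.log_le_log hY hz
    have hlX : Real.log z ≤ Real.log X := Real.log_le_log (by linarith) hX
    exact Real.rpow_le_rpow_of_nonpos (by linarith) hlX (by linarith)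
  intro p q hp
  obtain ⟨I, hI⟩ : ∃ I : ℕ, 2 * A / Y < 2 ^ I := pow_unbounded_of_one_lt _ (by norm_num)
  rw [div_lt_iff₀ hY] at hI
  set z' : ℝ := max Y (A * Real.exp (-(t + 1) ^ γ)) with hz'
  have hYz' : Y ≤ z' := le_max_left _ _
  set FS : Finset ℤ := (Wn A).filter (fun M => Odd M ∧ M ∈ HY d A₀ z') with hFS
  set G : ℕ → Finset ℤ := fun i => if Real.log (Y * 2 ^ i) + (Real.log (Y * 2 ^ i)) ^ γ ≤ t then
    cls (SZ d A₀ (Y * 2 ^ i)) A (2 * A) 0 p q else ∅ with hG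
  have hcov : cls (HY d A₀ Y) A (2 * A) 0 p q ⊆ (range I).biUnion G ∪ FS := by
    intro M hM
    rw [mem_cls] at hM
    obtain ⟨hMA, hMo, hMY, hMc⟩ := hM
    obtain ⟨i, hi⟩ := HY_sub hY hMY
    have hzi : Y * 2 ^ i ≤ M := SZ_ge hi
    have hiI : i < I := by
      by_contra hcon
      push Not at hcon
      have h2 : (2 : ℝ) ^ I ≤ 2 ^ i := pow_le_pow_right₀ (by norm_num) hcon
      have h3 : 2 ^ I * Y ≤ Y * 2 ^ i := by
        rw [mul_comm]; exact mul_le_mul_of_nonneg_left h2 hY.le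
      linarith [hMA.2]
    have hYi : Y ≤ Y * 2 ^ i := le_mul_of_one_le_right hY.le (one_le_pow₀ (by norm_num))
    rw [mem_union, mem_biUnion]
    by_cases hc : Real.log (Y * 2 ^ i) + (Real.log (Y * 2 ^ i)) ^ γ ≤ t
    · left
      refine ⟨i, mem_range.2 hiI, ?_⟩
      rw [hG]
      simp only
      rw [if_pos hc, mem_cls]
      exact ⟨hMA, hMo, hi, hMc⟩
    · right
      push Not at hc
      rw [hFS, mem_filter, mem_Wn]
      refine ⟨hMA, hMo, ?_⟩
      have hYi0 : 0 < Y * 2 ^ i := by positivity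
      have e1 : Real.log (Y * 2 ^ i) ≤ t + 1 := by
        have : Real.log (Y * 2 ^ i) ≤ Real.log (2 * A) := Real.log_le_log hYi0 (by linarith [hMA.2])
        rw [Real.log_mul (by norm_num) hApos.ne'] at this
        linarith
      have e0 : 0 ≤ Real.log (Y * 2 ^ i) := by
        have : l ≤ Real.log (Y * 2 ^ i) := Real.log_le_log hY hYi
        linarith
      have e2 : (Real.log (Y * 2 ^ i)) ^ γ ≤ (t + 1) ^ γ := Real.rpow_le_rpow e0 e1 hγ0.le
      have e3 : A * Real.exp (-(t + 1) ^ γ) ≤ Y * 2 ^ i := by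
        rw [← Real.exp_log hYi0, ← hexpA, ← Real.exp_add]
        apply Real.exp_le_exp.2
        linarith
      have e4 : z' ≤ Y * 2 ^ i := max_le hYi e3
      obtain ⟨k, h1, h2, _⟩ := hi
      exact ⟨k, h1, fun j hj => e4.trans (h2 j hj)⟩
  have hcard : ((cls (HY d A₀ Y) A (2 * A) 0 p q).card : ℝ) ≤
      ∑ i ∈ range I, ((G i).card : ℝ) + (FS.card : ℝ) := by
    have h1 := (card_le_card hcov).trans (card_union_le _ _)
    have h2 : ((range I).biUnion G).card ≤ ∑ i ∈ range I, (G i).card := card_biUnion_le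
    have h4 := h1.trans (Nat.add_le_add_right h2 _)
    exact_mod_cast h4
  -- the lower levels
  have hGb : ∀ i ∈ range I, ((G i).card : ℝ) ≤ K₂ * A * (l + i * Real.log 2) ^ (-(κ + 1 + δ)) := by
    intro i _
    have hi0 : (0 : ℝ) ≤ i := Nat.cast_nonneg i
    have hlog : Real.log (Y * 2 ^ i) = l + i * Real.log 2 := by
      rw [Real.log_mul hY.ne' (by positivity), Real.log_pow]
    have hYi0 : 0 < Y * 2 ^ i := by positivity
    have hYi : Y ≤ Y * 2 ^ i := le_mul_of_one_le_right hY.le (one_le_pow₀ (by norm_num))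
    have hlz : l ≤ l + i * Real.log 2 := by nlinarith
    set lz := l + i * Real.log 2 with hlzdef
    have hlz0 : 0 < lz := by linarith
    have hlz1 : 1 ≤ lz := by linarith
    rw [hG]
    simp only
    split_ifs with hc
    · have h1 := hscale (Y * 2 ^ i) hYi0 (by rw [hlog]; linarith) A₀ (lz ^ (-U)) (by positivity) (by
        intro X hX
        have := hthin (Y * 2 ^ i) hYi X hX
        rw [hlog] at this
        exact this) A hApos hc 0 (by rw [Nat.cast_zero]; positivity) p q hp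
      refine h1.trans ?_
      rw [hlog, pow_zero, mul_one]
      have e1 : Real.sqrt (lz ^ (-U)) * (lz ^ γ) ^ 4 ≤ lz ^ (-(κ + 1 + δ)) := by
        rw [Real.sqrt_eq_rpow, ← Real.rpow_mul hlz0.le, ← Real.rpow_natCast (lz ^ γ) 4,
          ← Real.rpow_mul hlz0.le, ← Real.rpow_add hlz0]
        apply Real.rpow_le_rpow_of_exponent_le hlz1
        push_cast
        linarith
      have e2 : 1 / lz ^ B ≤ lz ^ (-(κ + 1 + δ)) := by
        rw [one_div, ← Real.rpow_natCast lz B, ← Real.rpow_neg hlz0.le]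
        apply Real.rpow_le_rpow_of_exponent_le hlz1
        linarith
      calc K₂ * (Real.sqrt (lz ^ (-U)) * (lz ^ γ) ^ 4 + 1 / lz ^ B) * (A / 2)
          ≤ K₂ * (lz ^ (-(κ + 1 + δ)) + lz ^ (-(κ + 1 + δ))) * (A / 2) := by
            apply mul_le_mul_of_nonneg_right _ (by positivity)
            exact mul_le_mul_of_nonneg_left (add_le_add e1 e2) hK₂.le
        _ = _ := by ring
    · rw [card_empty, Nat.cast_zero]
      positivity
  have hG1 : ∑ i ∈ range I, ((G i).card : ℝ) ≤ K₂ * A * (S * l ^ (-κ)) := by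
    refine (sum_le_sum hGb).trans ?_
    rw [← mul_sum]
    exact mul_le_mul_of_nonneg_left (hsum κ hκ l (by linarith) I) (by positivity)
  -- the first stage
  have hFS1 : (FS.card : ℝ) ≤ A * (C₂ * l ^ (-κ)) := by
    have ht1γ : (t + 1) ^ γ ≤ t / 2 := by
      have e1 : (t + 1) ^ γ ≤ (t + 1) ^ (1 / 2 : ℝ) := Real.rpow_le_rpow_of_exponent_le (by linarith) hγ
      rw [← Real.sqrt_eq_rpow] at e1
      refine e1.trans ?_
      rw [Real.sqrt_le_left (by positivity)]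
      nlinarith
    have hlz' : t / 2 ≤ Real.log z' := by
      have e1 : A * Real.exp (-(t + 1) ^ γ) ≤ z' := le_max_right _ _
      have e2 := Real.log_le_log (by positivity) e1
      rw [Real.log_mul hApos.ne' (Real.exp_pos _).ne', Real.log_exp, ← htdef] at e2
      linarith
    have h1 := hfirst A hApos (by linarith) z' (le_max_right _ _) A₀ ((t / 2) ^ (-U)) (by positivity) (by
      intro X hX
      refine (hthin z' hYz' X hX).trans ?_
      have hX0 : 0 < X := by linarith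
      apply mul_le_mul_of_nonneg_right _ hX0.le
      exact Real.rpow_le_rpow_of_nonpos (by positivity) hlz' (by linarith))
    refine h1.trans (mul_le_mul_of_nonneg_left ?_ hApos.le)
    rw [← htdef]
    have ht1 : 1 ≤ t := by linarith
    -- everything in terms of `t ^ (-κ)`
    have e1 : Real.sqrt ((t / 2) ^ (-U)) = C₁ * t ^ (-(U / 2)) := by
      rw [Real.sqrt_eq_rpow, ← Real.rpow_mul (by positivity), Real.div_rpow ht0.le (by norm_num),
        show -U * (1 / 2) = -(U / 2) by ring, Real.rpow_neg (by norm_num : (0:ℝ) ≤ 2), div_inv_eq_mul]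
      ring
    have e2 : (t / 2) ^ (-U) ≤ Real.sqrt ((t / 2) ^ (-U)) := by
      rw [Real.sqrt_eq_rpow, ← Real.rpow_mul (by positivity)]
      apply Real.rpow_le_rpow_of_exponent_le (by linarith)
      linarith
    have e3 : ((t + 1) ^ γ) ^ 4 ≤ 4 * (t ^ γ) ^ 4 := by
      have g1 : (t + 1) ^ γ ≤ (2 * t) ^ γ := Real.rpow_le_rpow (by positivity) (by linarith) hγ0.le
      rw [Real.mul_rpow (by norm_num) ht0.le] at g1
      have g2 : (2 : ℝ) ^ γ ≤ 2 ^ (1 / 2 : ℝ) := Real.rpow_le_rpow_of_exponent_le (by norm_num) hγ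
      rw [← Real.sqrt_eq_rpow] at g2
      have g3 : (Real.sqrt 2) ^ 4 = 4 := by
        have : (Real.sqrt 2) ^ 2 = 2 := Real.sq_sqrt (by norm_num)
        calc (Real.sqrt 2) ^ 4 = ((Real.sqrt 2) ^ 2) ^ 2 := by ring
          _ = 4 := by rw [this]; norm_num
      calc ((t + 1) ^ γ) ^ 4 ≤ (2 ^ γ * t ^ γ) ^ 4 := pow_le_pow_left₀ (by positivity) g1 4
        _ ≤ (Real.sqrt 2 * t ^ γ) ^ 4 := by
            apply pow_le_pow_left₀ (by positivity)
            exact mul_le_mul_of_nonneg_right g2 (by positivity)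
        _ = 4 * (t ^ γ) ^ 4 := by rw [mul_pow, g3]
    have e4 : t ^ (-(U / 2)) * (t ^ γ) ^ 4 ≤ t ^ (-κ) := by
      rw [← Real.rpow_natCast (t ^ γ) 4, ← Real.rpow_mul ht0.le, ← Real.rpow_add ht0]
      apply Real.rpow_le_rpow_of_exponent_le ht1
      push_cast
      linarith
    have e5 : t ^ (-(U / 2)) ≤ t ^ (-κ) := Real.rpow_le_rpow_of_exponent_le ht1 (by linarith)
    have e6 : 1 / t ^ B ≤ t ^ (-κ) := by
      rw [one_div, ← Real.rpow_natCast t B, ← Real.rpow_neg ht0.le]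
      apply Real.rpow_le_rpow_of_exponent_le ht1
      linarith
    have e7 : t ^ (-κ) ≤ 2 ^ κ * l ^ (-κ) := by
      have g1 : l / 2 ≤ t := by linarith
      have g2 : t ^ (-κ) ≤ (l / 2) ^ (-κ) := Real.rpow_le_rpow_of_nonpos (by positivity) g1 (by linarith)
      refine g2.trans (le_of_eq ?_)
      rw [Real.div_rpow hl0.le (by norm_num), Real.rpow_neg (by norm_num : (0:ℝ) ≤ 2), div_inv_eq_mul]
      ring
    have htκ : 0 < t ^ (-κ) := by positivity
    calc 2 * (t / 2) ^ (-U) + 18 * 201 ^ 4 * Real.sqrt ((t / 2) ^ (-U)) * ((t + 1) ^ γ) ^ 4 + 1 / t ^ B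
        ≤ 2 * (C₁ * t ^ (-(U / 2))) + 18 * 201 ^ 4 * (C₁ * t ^ (-(U / 2))) * (4 * (t ^ γ) ^ 4)
          + 1 / t ^ B := by
          rw [e1] at e2 ⊢
          have g1 : 18 * 201 ^ 4 * (C₁ * t ^ (-(U / 2))) * ((t + 1) ^ γ) ^ 4 ≤
              18 * 201 ^ 4 * (C₁ * t ^ (-(U / 2))) * (4 * (t ^ γ) ^ 4) :=
            mul_le_mul_of_nonneg_left e3 (by positivity)
          linarith
      _ = 2 * C₁ * t ^ (-(U / 2)) + 18 * 201 ^ 4 * C₁ * 4 * (t ^ (-(U / 2)) * (t ^ γ) ^ 4)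
          + 1 / t ^ B := by ring
      _ ≤ 2 * C₁ * t ^ (-κ) + 18 * 201 ^ 4 * C₁ * 4 * t ^ (-κ) + t ^ (-κ) := by
          apply add_le_add (add_le_add _ _) e6
          · exact mul_le_mul_of_nonneg_left e5 (by positivity)
          · exact mul_le_mul_of_nonneg_left e4 (by positivity)
      _ = (2 * C₁ + 18 * 201 ^ 4 * C₁ * 4 + 1) * t ^ (-κ) := by ring
      _ ≤ (2 * C₁ + 18 * 201 ^ 4 * C₁ * 4 + 1) * (2 ^ κ * l ^ (-κ)) :=
          mul_le_mul_of_nonneg_left e7 (by positivity)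
      _ = C₂ * l ^ (-κ) := by rw [hC₂]; ring
  rw [pow_zero, mul_one]
  calc ((cls (HY d A₀ Y) A (2 * A) 0 p q).card : ℝ)
      ≤ K₂ * A * (S * l ^ (-κ)) + A * (C₂ * l ^ (-κ)) := by linarith
    _ = _ := by ring

end Pool.Agent.H48T
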