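import Pool.Agent.H320R2.PDWords
import Pool.Agent.H320R2.PDDefs

/-! The energy of the offsets of words modulo powers of three. -/

set_option autoImplicit false

namespace Pool.Agent.H48T

open Finset
open Pool.Agent.H320R2.PD

/-- number of the words of `s` with offset in the class `r` modulo `3 ^ n` -/
def nr (s : Finset (List ℕ)) (n r : ℕ) : ℕ := (s.filter (fun w => Wo w % 3 ^ n = r)).card

/-- number of the pairs of words of `s` with congruent offsets modulo `3 ^ n` -/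
def En (s : Finset (List ℕ)) (n : ℕ) : ℕ :=
  ((s ×ˢ s).filter (fun p => Wo p.1 % 3 ^ n = Wo p.2 % 3 ^ n)).card

theorem En_eq (s : Finset (List ℕ)) (n : ℕ) : En s n = ∑ r ∈ range (3 ^ n), nr s n r ^ 2 := by
  unfold En
  have h := card_eq_sum_card_fiberwise (s := (s ×ˢ s).filter (fun p => Wo p.1 % 3 ^ n = Wo p.2 % 3 ^ n))
    (t := range (3 ^ n)) (f := fun p => Wo p.1 % 3 ^ n) (by
      intro p _
      simp only [coe_range, Set.mem_Iio]
      exact Nat.mod_lt _ (by positivity))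
  rw [h]
  refine sum_congr rfl fun r _ => ?_
  unfold nr
  rw [sq, ← card_product]
  congr 1
  ext p
  simp only [mem_filter, mem_product]
  constructor
  · rintro ⟨⟨⟨h1, h2⟩, h3⟩, h4⟩
    exact ⟨⟨h1, h4⟩, h2, by rw [← h3]; exact h4⟩
  · rintro ⟨⟨h1, h2⟩, h3, h4⟩
    exact ⟨⟨⟨h1, h3⟩, by rw [h2, h4]⟩, h2⟩

theorem nr_cover {J : Type*} [DecidableEq J] (s : Finset (List ℕ)) (I : Finset J)
    (P : J → Finset (List ℕ)) (h : ∀ w ∈ s, ∃ j ∈ I, w ∈ P j) (n r : ℕ) :
    nr s n r ≤ ∑ j ∈ I, nr (P j) n r := by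
  unfold nr
  refine le_trans (card_le_card ?_) card_biUnion_le
  intro w hw
  rw [mem_filter] at hw
  obtain ⟨j, hj, hw'⟩ := h w hw.1
  rw [mem_biUnion]
  exact ⟨j, hj, mem_filter.2 ⟨hw', hw.2⟩⟩

/-- the energy of a set covered by pieces -/
theorem En_cover {J : Type*} [DecidableEq J] (s : Finset (List ℕ)) (I : Finset J)
    (P : J → Finset (List ℕ)) (h : ∀ w ∈ s, ∃ j ∈ I, w ∈ P j) (n : ℕ) (c : J → ℝ)
    (hc : ∀ j ∈ I, 0 < c j) :
    (En s n : ℝ) ≤ (∑ j ∈ I, c j) * ∑ j ∈ I, (En (P j) n : ℝ) / c j := by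
  rw [En_eq]
  push_cast
  have h1 : ∀ r ∈ range (3 ^ n), (nr s n r : ℝ) ^ 2 ≤
      (∑ j ∈ I, c j) * ∑ j ∈ I, (nr (P j) n r : ℝ) ^ 2 / c j := by
    intro r _
    have h2 : (nr s n r : ℝ) ≤ ∑ j ∈ I, (nr (P j) n r : ℝ) := by exact_mod_cast nr_cover s I P h n r
    have h3 : (nr s n r : ℝ) ^ 2 ≤ (∑ j ∈ I, (nr (P j) n r : ℝ)) ^ 2 :=
      pow_le_pow_left₀ (Nat.cast_nonneg _) h2 2
    refine h3.trans ?_
    have h4 := sq_sum_div_le_sum_sq_div I (fun j => (nr (P j) n r : ℝ)) hc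
    rcases I.eq_empty_or_nonempty with rfl | hI
    · simp
    · have hpos : 0 < ∑ j ∈ I, c j := sum_pos hc hI
      rw [div_le_iff₀ hpos] at h4
      linarith
  refine (sum_le_sum h1).trans (le_of_eq ?_)
  rw [← mul_sum, sum_comm]
  congr 1
  refine sum_congr rfl fun j _ => ?_
  rw [← sum_div]
  congr 1
  rw [En_eq]
  push_cast
  rfl

theorem En_two (s P Q : Finset (List ℕ)) (h : ∀ w ∈ s, w ∈ P ∨ w ∈ Q) (n : ℕ) :
    (En s n : ℝ) ≤ 2 * (En P n + En Q n) := by
  classical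
  have := En_cover s (univ : Finset Bool) (fun b => if b then P else Q) (by
    intro w hw
    rcases h w hw with h1 | h1
    · exact ⟨true, mem_univ _, by simpa using h1⟩
    · exact ⟨false, mem_univ _, by simpa using h1⟩) n (fun _ => 1) (fun _ _ => one_pos)
  simp at this
  linarith

/-! ### the mean of the offsets -/

/-- `∑ 4^{-s} Wo` over the words of length `i` -/
theorem mean_offset (A : ℕ) : ∀ i : ℕ,
    ∑ w ∈ FW A i, (Wo w : ℝ) / 4 ^ w.sum ≤ i / 3
  | 0 => by rw [sum_FW_zero]; simp [Wo]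
  | i + 1 => by
    rw [sum_FW_succ]
    have h1 : ∀ e ∈ Icc 1 A, ∑ v ∈ FW A i, (Wo (e :: v) : ℝ) / 4 ^ (e :: v).sum =
        (1 / 4 : ℝ) ^ e * (∑ v ∈ FW A i, wwt v + 3 * ∑ v ∈ FW A i, (Wo v : ℝ) / 4 ^ v.sum) := by
      intro e _
      rw [mul_sum, ← sum_add_distrib, mul_sum]
      refine sum_congr rfl fun v _ => ?_
      rw [show Wo (e :: v) = 2 ^ v.sum + 3 * Wo v from rfl, List.sum_cons]
      unfold wwt
      push_cast
      have h4 : (4 : ℝ) ^ v.sum = 2 ^ v.sum * 2 ^ v.sum := by rw [← mul_pow]; norm_num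
      rw [pow_add, h4, one_div, one_div, inv_pow, inv_pow]
      field_simp
    rw [sum_congr rfl h1, ← sum_mul]
    have h2 : ∑ e ∈ Icc 1 A, (1 / 4 : ℝ) ^ e ≤ 1 / 3 := by
      have := sum_Icc_pow_le A (r := 1 / 4) (by norm_num) (by norm_num)
      refine this.trans (by norm_num)
    have h3 := mean_offset A i
    have h4 := sum_wwt_le A i
    have h5 : 0 ≤ ∑ v ∈ FW A i, wwt v := sum_nonneg fun v _ => by unfold wwt; positivity
    have h6 : 0 ≤ ∑ v ∈ FW A i, (Wo v : ℝ) / 4 ^ v.sum := sum_nonneg fun v _ => by positivity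
    calc (∑ e ∈ Icc 1 A, (1 / 4 : ℝ) ^ e) * (∑ v ∈ FW A i, wwt v + 3 * ∑ v ∈ FW A i, (Wo v : ℝ) / 4 ^ v.sum)
        ≤ 1 / 3 * (1 + 3 * (i / 3)) := by
          apply mul_le_mul h2 (by linarith) (by positivity) (by norm_num)
      _ = ((i + 1 : ℕ) : ℝ) / 3 := by push_cast; ring

/-- sum of the offsets of the words of length `i` and size `t` -/
def SW (A i t : ℕ) : ℕ := ∑ w ∈ FWT A i t, Wo w

theorem sum_SW_le (A i T : ℕ) : ∑ t ∈ range (T + 1), (SW A i t : ℝ) / 4 ^ t ≤ i / 3 := by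
  refine le_trans ?_ (mean_offset A i)
  have h1 : ∀ t ∈ range (T + 1), (SW A i t : ℝ) / 4 ^ t =
      ∑ w ∈ FW A i, if w.sum = t then (Wo w : ℝ) / 4 ^ w.sum else 0 := by
    intro t _
    unfold SW FWT
    push_cast
    rw [sum_filter, sum_div]
    refine sum_congr rfl fun w _ => ?_
    split_ifs with h
    · rw [h]
    · simp
  rw [sum_congr rfl h1, sum_comm]
  refine sum_le_sum fun w _ => ?_
  rw [sum_ite_eq]
  split_ifs
  · exact le_rfl
  · positivity

theorem SW_single (A i t : ℕ) : (SW A i t : ℝ) / 4 ^ t ≤ i / 3 := by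
  refine le_trans ?_ (sum_SW_le A i t)
  exact single_le_sum (f := fun t => (SW A i t : ℝ) / 4 ^ t) (fun t _ => by positivity) (self_mem_range_succ t)

/-- the number of words of given length and size -/
theorem card_FWT_le (A i t : ℕ) : (FWT A i t).card ≤ 2 ^ t := by
  have h1 : ∑ w ∈ FWT A i t, wwt w ≤ 1 := by
    refine le_trans ?_ (sum_wwt_le A i)
    apply sum_le_sum_of_subset_of_nonneg (filter_subset _ _)
    intro w _ _
    unfold wwt; positivity
  have h2 : ∑ w ∈ FWT A i t, wwt w = (FWT A i t).card * (1 / 2) ^ t := by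
    rw [← nsmul_eq_mul, ← sum_const]
    refine sum_congr rfl fun w hw => ?_
    unfold FWT at hw
    rw [mem_filter] at hw
    unfold wwt
    rw [hw.2]
  rw [h2, one_div, inv_pow, ← div_eq_mul_inv, div_le_one (by positivity)] at h1
  exact_mod_cast h1

end Pool.Agent.H48T
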