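import Pool.Agent.H48T.En

/-! The energy of the offsets of words modulo powers of three: the bound. -/

set_option autoImplicit false

namespace Pool.Agent.H48T

open Finset
open Pool.Agent.H320R2.PD

/-- the first parts -/
def PP (A T n i t e : ℕ) : Finset (List ℕ) :=
  (FWT A i t).filter (fun p => Wo p < 3 ^ n ∧ 3 ^ n ≤ 2 ^ e * Wo p + 3 ^ i ∧ t + e ≤ T)

/-- the pieces -/
def pc (A k T n : ℕ) (j : (ℕ × ℕ) × ℕ) : Finset (List ℕ) :=
  ((PP A T n j.1.1 j.1.2 j.2) ×ˢ (FWT A (k - j.1.1 - 1) (T - j.1.2 - j.2))).image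
    (fun x => x.1 ++ j.2 :: x.2)

theorem mem_FWT {A k T : ℕ} {w : List ℕ} :
    w ∈ FWT A k T ↔ (w.length = k ∧ ∀ e ∈ w, 1 ≤ e ∧ e ≤ A) ∧ w.sum = T := by
  unfold FWT
  rw [mem_filter, mem_FW]

theorem cover {A k T n : ℕ} {w : List ℕ} (hw : w ∈ FWT A k T) (hn : ¬ Wo w < 3 ^ n) :
    ∃ j ∈ (range k ×ˢ range (T + 1)) ×ˢ Icc 1 A, w ∈ pc A k T n j := by
  classical
  rw [mem_FWT] at hw
  obtain ⟨⟨hl, hle⟩, hs⟩ := hw
  have hex : ∃ i, ¬ Wo (w.take i) < 3 ^ n := ⟨k, by rwa [← hl, List.take_length]⟩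
  obtain ⟨i, hi1, hi2⟩ : ∃ i, ¬ Wo (w.take (i + 1)) < 3 ^ n ∧ Wo (w.take i) < 3 ^ n := by
    have h1 := Nat.find_spec hex
    have h2 := fun m => Nat.find_min hex (m := m)
    have h0 : Nat.find hex ≠ 0 := by
      intro h
      rw [h] at h1
      simp [Wo] at h1
    obtain ⟨i, hi⟩ := Nat.exists_eq_succ_of_ne_zero h0
    refine ⟨i, ?_, ?_⟩
    · rw [Nat.succ_eq_add_one] at hi; rw [hi] at h1; exact h1
    · have := h2 i (by omega)
      push Not at this
      exact this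
  have hik : i < w.length := by
    by_contra hcon
    push Not at hcon
    rw [List.take_of_length_le (by omega)] at hi1 hi2
    exact hi1 hi2
  set e := w[i] with he
  have hdecomp : w = w.take i ++ e :: w.drop (i + 1) := by
    conv_lhs => rw [← List.take_append_drop i w]
    rw [List.drop_eq_getElem_cons hik]
  have htk : w.take (i + 1) = w.take i ++ [e] := by
    rw [List.take_add_one, List.getElem?_eq_getElem hik]
    rfl
  have hemem : e ∈ w := List.getElem_mem hik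
  have hsum : (w.take i).sum + (e + (w.drop (i + 1)).sum) = T := by
    have h := congrArg List.sum hdecomp
    rw [List.sum_append, List.sum_cons, hs] at h
    exact h.symm
  have hlt : (w.take i).length = i := by rw [List.length_take]; omega
  have hld : (w.drop (i + 1)).length = k - i - 1 := by rw [List.length_drop]; omega
  refine ⟨((i, (w.take i).sum), e), ?_, ?_⟩
  · simp only [mem_product, mem_range, mem_Icc]
    exact ⟨⟨by omega, by omega⟩, hle e hemem⟩
  · unfold pc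
    rw [mem_image]
    refine ⟨(w.take i, w.drop (i + 1)), ?_, hdecomp.symm⟩
    rw [mem_product]
    refine ⟨?_, ?_⟩
    · unfold PP
      rw [mem_filter, mem_FWT]
      refine ⟨⟨⟨hlt, fun a ha => hle a (List.mem_of_mem_take ha)⟩, rfl⟩, hi2, ?_, ?_⟩
      · rw [htk, Wo_snoc, hlt] at hi1
        simp only
        omega
      · simp only; omega
    · rw [mem_FWT]
      refine ⟨⟨hld, fun a ha => hle a (List.mem_of_mem_drop ha)⟩, ?_⟩
      simp only; omega

theorem En_piece (A k T n : ℕ) (j : (ℕ × ℕ) × ℕ) :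
    En (pc A k T n j) n ≤ (PP A T n j.1.1 j.1.2 j.2).card *
      (FWT A (k - j.1.1 - 1) (T - j.1.2 - j.2)).card ^ 2 := by
  classical
  obtain ⟨⟨i, t⟩, e⟩ := j
  simp only
  set P := PP A T n i t e with hP
  set Q := FWT A (k - i - 1) (T - t - e) with hQ
  set g : (List ℕ × List ℕ) → List ℕ := fun x => x.1 ++ e :: x.2 with hg
  set S4 := ((P ×ˢ Q) ×ˢ (P ×ˢ Q)).filter (fun x => Wo (g x.1) % 3 ^ n = Wo (g x.2) % 3 ^ n) with hS4
  have h1 : En (pc A k T n ((i, t), e)) n ≤ S4.card := by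
    unfold En
    have : ((pc A k T n ((i, t), e) ×ˢ pc A k T n ((i, t), e)).filter
        (fun p => Wo p.1 % 3 ^ n = Wo p.2 % 3 ^ n)) ⊆ S4.image (fun x => (g x.1, g x.2)) := by
      rintro ⟨w, w'⟩ hw
      rw [mem_filter, mem_product] at hw
      obtain ⟨⟨h1, h2⟩, h3⟩ := hw
      unfold pc at h1 h2
      rw [mem_image] at h1 h2
      obtain ⟨x, hx, hx'⟩ := h1
      obtain ⟨y, hy, hy'⟩ := h2
      rw [mem_image]
      refine ⟨(x, y), ?_, ?_⟩
      · rw [hS4, mem_filter, mem_product]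
        refine ⟨⟨hx, hy⟩, ?_⟩
        simp only at hx' hy' h3
        simp only [hg]
        rw [hx', hy']
        exact h3
      · simp only [hg]
        simp only at hx' hy'
        rw [hx', hy']
    exact (card_le_card this).trans card_image_le
  have h2 : S4.card ≤ (P ×ˢ (Q ×ˢ Q)).card := by
    apply card_le_card_of_injOn (fun x => (x.1.1, (x.1.2, x.2.2)))
    · rintro ⟨⟨p, q⟩, ⟨p', q'⟩⟩ hx
      rw [mem_coe, hS4, mem_filter, mem_product, mem_product, mem_product] at hx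
      rw [mem_coe, mem_product, mem_product]
      exact ⟨hx.1.1.1, hx.1.1.2, hx.1.2.2⟩
    · rintro ⟨⟨p, q⟩, ⟨p', q'⟩⟩ hx ⟨⟨r, s⟩, ⟨r', s'⟩⟩ hy hxy
      rw [mem_coe, hS4, mem_filter, mem_product, mem_product, mem_product] at hx hy
      simp only [Prod.mk.injEq] at hxy
      obtain ⟨rfl, rfl, rfl⟩ := hxy
      have hp' := hx.1.2.1
      have hr' := hy.1.2.1
      have hq' := hx.1.2.2
      simp only at hp' hr' hq'
      rw [hP] at hp' hr'
      unfold PP at hp' hr'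
      rw [mem_filter, mem_FWT] at hp' hr'
      have hc1 := hx.2
      have hc2 := hy.2
      simp only [hg] at hc1 hc2
      rw [hc1] at hc2
      rw [Wo_append, Wo_append, hp'.1.1.1, hr'.1.1.1] at hc2
      have hc3 : 2 ^ (e :: q').sum * Wo p' + 3 ^ i * Wo (e :: q') ≡
          2 ^ (e :: q').sum * Wo r' + 3 ^ i * Wo (e :: q') [MOD 3 ^ n] := hc2
      have hc4 := Nat.ModEq.add_right_cancel' _ hc3
      have hc5 : Wo p' ≡ Wo r' [MOD 3 ^ n] := by
        apply Nat.ModEq.cancel_left_of_coprime _ hc4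
        apply Nat.Coprime.pow
        norm_num
      have hc6 := Nat.ModEq.eq_of_lt_of_lt hc5 hp'.2.1 hr'.2.1
      have hc7 : p' = r' := Wo_inj (fun a ha => (hp'.1.1.2 a ha).1) (fun a ha => (hr'.1.1.2 a ha).1)
        (by rw [hp'.1.1.1, hr'.1.1.1]) (by rw [hp'.1.2, hr'.1.2]) hc6
      rw [hc7]
  rw [card_product, card_product] at h2
  calc En (pc A k T n ((i, t), e)) n ≤ S4.card := h1
    _ ≤ P.card * (Q.card * Q.card) := h2
    _ = P.card * Q.card ^ 2 := by rw [sq]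

theorem PP_card {A k T n i t e : ℕ} (hi : i < k) (hk : k ≤ n) :
    (3 : ℝ) ^ n * ((PP A T n i t e).card : ℝ) ≤ 3 / 2 * 2 ^ e * SW A i t := by
  have h1 : ∑ p ∈ PP A T n i t e, (2 * 3 ^ n : ℝ) ≤ ∑ p ∈ PP A T n i t e, (3 * 2 ^ e * (Wo p : ℝ)) := by
    apply sum_le_sum
    intro p hp
    unfold PP at hp
    rw [mem_filter] at hp
    have h2 := hp.2.2.1
    have h3 : 3 ^ (i + 1) ≤ 3 ^ n := Nat.pow_le_pow_right (by norm_num) (by omega)
    rw [pow_succ] at h3
    have h4 : 2 * 3 ^ n ≤ 3 * (2 ^ e * Wo p) := by omega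
    have h5 : ((2 * 3 ^ n : ℕ) : ℝ) ≤ ((3 * (2 ^ e * Wo p) : ℕ) : ℝ) := by exact_mod_cast h4
    push_cast at h5
    linarith
  rw [sum_const, nsmul_eq_mul, ← mul_sum] at h1
  have h6 : ∑ p ∈ PP A T n i t e, (Wo p : ℝ) ≤ (SW A i t : ℝ) := by
    unfold SW
    push_cast
    apply sum_le_sum_of_subset_of_nonneg (filter_subset _ _)
    intro w _ _
    positivity
  have h7 : (3 : ℝ) * 2 ^ e * ∑ p ∈ PP A T n i t e, (Wo p : ℝ) ≤ 3 * 2 ^ e * SW A i t :=
    mul_le_mul_of_nonneg_left h6 (by positivity)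
  linarith

theorem PP_empty {A T n i t e : ℕ} (h : T < t + e) : PP A T n i t e = ∅ := by
  unfold PP
  rw [filter_eq_empty_iff]
  intro p _ hp
  omega

theorem En_piece_real {A k T n i t e : ℕ} (hi : i < k) (hk : k ≤ n) :
    (3 : ℝ) ^ n * (En (pc A k T n ((i, t), e)) n : ℝ) ≤
      3 / 2 * 4 ^ T * ((SW A i t : ℝ) / 4 ^ t) * (1 / 2) ^ e := by
  have h1 := En_piece A k T n ((i, t), e)
  simp only at h1
  rcases lt_or_ge T (t + e) with h | h
  · rw [PP_empty h, card_empty, zero_mul] at h1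
    have : En (pc A k T n ((i, t), e)) n = 0 := by omega
    rw [this, Nat.cast_zero, mul_zero]
    positivity
  · have h2 := card_FWT_le A (k - i - 1) (T - t - e)
    have h3 : (En (pc A k T n ((i, t), e)) n : ℝ) ≤
        (PP A T n i t e).card * ((2 : ℝ) ^ (T - t - e)) ^ 2 := by
      have h4 : En (pc A k T n ((i, t), e)) n ≤ (PP A T n i t e).card * (2 ^ (T - t - e)) ^ 2 :=
        h1.trans (Nat.mul_le_mul_left _ (Nat.pow_le_pow_left h2 2))
      exact_mod_cast h4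
    have h5 := PP_card (A := A) (T := T) (t := t) (e := e) hi hk
    have h6 : ((2 : ℝ) ^ (T - t - e)) ^ 2 = 4 ^ T / 4 ^ t / 4 ^ e := by
      obtain ⟨s, hs⟩ : ∃ s, T = s + e + t := ⟨T - t - e, by omega⟩
      have hs' : T - t - e = s := by omega
      rw [hs', hs, pow_add, pow_add, ← pow_mul, mul_comm s 2, pow_mul]
      norm_num
    calc (3 : ℝ) ^ n * (En (pc A k T n ((i, t), e)) n : ℝ)
        ≤ 3 ^ n * ((PP A T n i t e).card * ((2 : ℝ) ^ (T - t - e)) ^ 2) :=
          mul_le_mul_of_nonneg_left h3 (by positivity)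
      _ = (3 ^ n * (PP A T n i t e).card) * ((2 : ℝ) ^ (T - t - e)) ^ 2 := by ring
      _ ≤ (3 / 2 * 2 ^ e * SW A i t) * ((2 : ℝ) ^ (T - t - e)) ^ 2 :=
          mul_le_mul_of_nonneg_right h5 (by positivity)
      _ = _ := by
          rw [h6]
          have h7 : (4 : ℝ) ^ e = 2 ^ e * 2 ^ e := by rw [← mul_pow]; norm_num
          rw [h7, one_div, inv_pow]
          field_simp

/-- the words whose offset is at least `3 ^ n` -/
theorem En_large {A k T n : ℕ} (hk : k ≤ n) :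
    (3 : ℝ) ^ n * (En ((FWT A k T).filter (fun w => ¬ Wo w < 3 ^ n)) n : ℝ) ≤
      3 / 2 * k ^ 3 * (T + 1) * 4 ^ T := by
  classical
  have h1 := En_cover ((FWT A k T).filter (fun w => ¬ Wo w < 3 ^ n))
    ((range k ×ˢ range (T + 1)) ×ˢ Icc 1 A) (pc A k T n) (by
      intro w hw
      rw [mem_filter] at hw
      exact cover hw.1 hw.2) n (fun j => (3 / 4 : ℝ) ^ j.2) (fun j _ => by positivity)
  have hc : ∑ j ∈ (range k ×ˢ range (T + 1)) ×ˢ Icc 1 A, (3 / 4 : ℝ) ^ j.2 ≤ k * (T + 1) * 3 := by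
    rw [sum_product]
    simp only
    rw [sum_const, nsmul_eq_mul, card_product, card_range, card_range]
    push_cast
    apply mul_le_mul_of_nonneg_left _ (by positivity)
    have := sum_Icc_pow_le A (r := 3 / 4) (by norm_num) (by norm_num)
    refine this.trans (by norm_num)
  have hE : ∑ j ∈ (range k ×ˢ range (T + 1)) ×ˢ Icc 1 A,
      (3 : ℝ) ^ n * ((En (pc A k T n j) n : ℝ) / (3 / 4 : ℝ) ^ j.2) ≤ 4 ^ T * (k ^ 2 / 2) := by
    have h2 : ∀ j ∈ (range k ×ˢ range (T + 1)) ×ˢ Icc 1 A,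
        (3 : ℝ) ^ n * ((En (pc A k T n j) n : ℝ) / (3 / 4 : ℝ) ^ j.2) ≤
          3 / 2 * 4 ^ T * ((SW A j.1.1 j.1.2 : ℝ) / 4 ^ j.1.2) * (2 / 3) ^ j.2 := by
      rintro ⟨⟨i, t⟩, e⟩ hj
      simp only [mem_product, mem_range, mem_Icc] at hj
      have h3 := En_piece_real (A := A) (T := T) (t := t) (e := e) hj.1.1 hk
      simp only
      rw [← mul_div_assoc, div_le_iff₀ (by positivity)]
      refine h3.trans (le_of_eq ?_)
      have h4 : ((2 : ℝ) / 3) ^ e * (3 / 4) ^ e = (1 / 2) ^ e := by rw [← mul_pow]; norm_num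
      rw [mul_assoc (3 / 2 * 4 ^ T * ((SW A i t : ℝ) / 4 ^ t)), h4]
    refine (sum_le_sum h2).trans ?_
    rw [sum_product]
    simp only
    have h5 : ∑ e ∈ Icc 1 A, (2 / 3 : ℝ) ^ e ≤ 2 := by
      have := sum_Icc_pow_le A (r := 2 / 3) (by norm_num) (by norm_num)
      refine this.trans (by norm_num)
    have h6 : ∀ x ∈ range k ×ˢ range (T + 1),
        ∑ e ∈ Icc 1 A, 3 / 2 * 4 ^ T * ((SW A x.1 x.2 : ℝ) / 4 ^ x.2) * (2 / 3) ^ e ≤
          3 * 4 ^ T * ((SW A x.1 x.2 : ℝ) / 4 ^ x.2) := by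
      intro x _
      rw [← mul_sum]
      have : 0 ≤ 3 / 2 * 4 ^ T * ((SW A x.1 x.2 : ℝ) / 4 ^ x.2) := by positivity
      nlinarith
    refine (sum_le_sum h6).trans ?_
    rw [sum_product]
    simp only
    have h7 : ∀ i ∈ range k, ∑ t ∈ range (T + 1), 3 * 4 ^ T * ((SW A i t : ℝ) / 4 ^ t) ≤ 4 ^ T * i := by
      intro i _
      rw [← mul_sum]
      have h8 := sum_SW_le A i T
      calc 3 * (4 : ℝ) ^ T * ∑ t ∈ range (T + 1), (SW A i t : ℝ) / 4 ^ t ≤ 3 * 4 ^ T * (i / 3) :=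
            mul_le_mul_of_nonneg_left h8 (by positivity)
        _ = _ := by ring
    refine (sum_le_sum h7).trans ?_
    rw [← mul_sum]
    apply mul_le_mul_of_nonneg_left _ (by positivity)
    have h9 : ∀ k : ℕ, ∑ i ∈ range k, (i : ℝ) ≤ k ^ 2 / 2 := by
      intro k
      induction k with
      | zero => simp
      | succ k ih => rw [sum_range_succ]; push_cast; nlinarith
    exact h9 k
  rw [← mul_sum] at hE
  have hpos : 0 ≤ ∑ j ∈ (range k ×ˢ range (T + 1)) ×ˢ Icc 1 A, (En (pc A k T n j) n : ℝ) / (3 / 4 : ℝ) ^ j.2 :=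
    sum_nonneg fun j _ => by positivity
  calc (3 : ℝ) ^ n * (En ((FWT A k T).filter (fun w => ¬ Wo w < 3 ^ n)) n : ℝ)
      ≤ 3 ^ n * ((∑ j ∈ (range k ×ˢ range (T + 1)) ×ˢ Icc 1 A, (3 / 4 : ℝ) ^ j.2) *
          ∑ j ∈ (range k ×ˢ range (T + 1)) ×ˢ Icc 1 A, (En (pc A k T n j) n : ℝ) / (3 / 4 : ℝ) ^ j.2) :=
        mul_le_mul_of_nonneg_left h1 (by positivity)
    _ = (∑ j ∈ (range k ×ˢ range (T + 1)) ×ˢ Icc 1 A, (3 / 4 : ℝ) ^ j.2) *
          (3 ^ n * ∑ j ∈ (range k ×ˢ range (T + 1)) ×ˢ Icc 1 A, (En (pc A k T n j) n : ℝ) / (3 / 4 : ℝ) ^ j.2) := by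
        ring
    _ ≤ (k * (T + 1) * 3) * (4 ^ T * (k ^ 2 / 2)) :=
        mul_le_mul hc hE (by positivity) (by positivity)
    _ = _ := by ring

/-- the words whose offset is smaller than `3 ^ n` have different residues -/
theorem En_small (A k T n : ℕ) :
    En ((FWT A k T).filter (fun w => Wo w < 3 ^ n)) n ≤ ((FWT A k T).filter (fun w => Wo w < 3 ^ n)).card := by
  classical
  unfold En
  apply card_le_card_of_injOn (fun x => x.1)
  · intro x hx
    rw [mem_coe, mem_filter, mem_product] at hx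
    exact hx.1.1
  · rintro ⟨p, p'⟩ hx ⟨q, q'⟩ hy hxy
    simp only at hxy
    subst hxy
    rw [mem_coe, mem_filter, mem_product, mem_filter, mem_filter, mem_FWT, mem_FWT] at hx hy
    have h1 := hx.2
    have h2 := hy.2
    simp only at h1 h2
    rw [h1, Nat.mod_eq_of_lt hx.1.2.2, Nat.mod_eq_of_lt hy.1.2.2] at h2
    have h3 : p' = q' := Wo_inj (fun a ha => (hx.1.2.1.1.2 a ha).1) (fun a ha => (hy.1.2.1.1.2 a ha).1)
      (by rw [hx.1.2.1.1.1, hy.1.2.1.1.1]) (by rw [hx.1.2.1.2, hy.1.2.1.2]) h2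
    rw [h3]

theorem three_pow_le_Wo {w : List ℕ} (hne : w ≠ []) : 3 ^ (w.length - 1) ≤ Wo w := by
  rcases List.eq_nil_or_concat w with rfl | ⟨v, e, hv⟩
  · exact absurd rfl hne
  · rw [List.concat_eq_append] at hv
    subst hv
    rw [Wo_snoc, List.length_append, List.length_singleton, Nat.add_sub_cancel]
    omega

/-- **the energy bound** -/
theorem En_le {A k T n : ℕ} (hk1 : 1 ≤ k) (hk : k ≤ n) (h : k = n ∨ 3 ^ n ≤ 2 ^ T) :
    (3 : ℝ) ^ n * (En (FWT A k T) n : ℝ) ≤ 5 * k ^ 3 * (T + 1) * 4 ^ T := by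
  classical
  have h1 := En_two (FWT A k T) ((FWT A k T).filter (fun w => ¬ Wo w < 3 ^ n))
    ((FWT A k T).filter (fun w => Wo w < 3 ^ n)) (by
      intro w hw
      by_cases hc : Wo w < 3 ^ n
      · exact Or.inr (mem_filter.2 ⟨hw, hc⟩)
      · exact Or.inl (mem_filter.2 ⟨hw, hc⟩)) n
  have h2 := En_large (A := A) (T := T) hk
  have h3 : (3 : ℝ) ^ n * (En ((FWT A k T).filter (fun w => Wo w < 3 ^ n)) n : ℝ) ≤ k * 4 ^ T := by
    have h4 : (En ((FWT A k T).filter (fun w => Wo w < 3 ^ n)) n : ℝ) ≤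
        (((FWT A k T).filter (fun w => Wo w < 3 ^ n)).card : ℝ) := by exact_mod_cast En_small A k T n
    have hkR : (1 : ℝ) ≤ k := by exact_mod_cast hk1
    rcases h with h | h
    · -- `k = n`
      have h5 : ∑ w ∈ (FWT A k T).filter (fun w => Wo w < 3 ^ n), (3 : ℝ) ^ n ≤
          ∑ w ∈ (FWT A k T).filter (fun w => Wo w < 3 ^ n), 3 * (Wo w : ℝ) := by
        apply sum_le_sum
        intro w hw
        rw [mem_filter, mem_FWT] at hw
        have hne : w ≠ [] := by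
          intro h0
          rw [h0] at hw
          simp at hw
          omega
        have h6 := three_pow_le_Wo hne
        rw [hw.1.1.1] at h6
        have h7 : 3 ^ n ≤ 3 * Wo w := by
          rw [← h]
          calc 3 ^ k = 3 * 3 ^ (k - 1) := by rw [← pow_succ']; congr 1; omega
            _ ≤ 3 * Wo w := by omega
        exact_mod_cast h7
      rw [sum_const, nsmul_eq_mul, ← mul_sum] at h5
      have h6 : ∑ w ∈ (FWT A k T).filter (fun w => Wo w < 3 ^ n), (Wo w : ℝ) ≤ (SW A k T : ℝ) := by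
        unfold SW
        push_cast
        apply sum_le_sum_of_subset_of_nonneg (filter_subset _ _)
        intro w _ _
        positivity
      have h7 := SW_single A k T
      rw [div_le_iff₀ (by positivity)] at h7
      calc (3 : ℝ) ^ n * (En ((FWT A k T).filter (fun w => Wo w < 3 ^ n)) n : ℝ)
          ≤ 3 ^ n * (((FWT A k T).filter (fun w => Wo w < 3 ^ n)).card : ℝ) :=
            mul_le_mul_of_nonneg_left h4 (by positivity)
        _ = (((FWT A k T).filter (fun w => Wo w < 3 ^ n)).card : ℝ) * 3 ^ n := by ring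
        _ ≤ 3 * ∑ w ∈ (FWT A k T).filter (fun w => Wo w < 3 ^ n), (Wo w : ℝ) := h5
        _ ≤ 3 * (k / 3 * 4 ^ T) := by
            apply mul_le_mul_of_nonneg_left _ (by norm_num)
            exact h6.trans h7
        _ = _ := by ring
    · have h5 : ((FWT A k T).filter (fun w => Wo w < 3 ^ n)).card ≤ 2 ^ T :=
        (card_filter_le _ _).trans (card_FWT_le A k T)
      have h5' : (((FWT A k T).filter (fun w => Wo w < 3 ^ n)).card : ℝ) ≤ 2 ^ T := by exact_mod_cast h5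
      have h6 : (3 : ℝ) ^ n ≤ 2 ^ T := by exact_mod_cast h
      calc (3 : ℝ) ^ n * (En ((FWT A k T).filter (fun w => Wo w < 3 ^ n)) n : ℝ)
          ≤ 2 ^ T * 2 ^ T := mul_le_mul h6 (h4.trans h5') (by positivity) (by positivity)
        _ = 1 * 4 ^ T := by rw [← mul_pow]; norm_num
        _ ≤ k * 4 ^ T := mul_le_mul_of_nonneg_right hkR (by positivity)
  have hkR : (1 : ℝ) ≤ k := by exact_mod_cast hk1
  have hT0 : (0 : ℝ) ≤ T := Nat.cast_nonneg T
  have h8 : (k : ℝ) * 4 ^ T ≤ k ^ 3 * (T + 1) * 4 ^ T := by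
    apply mul_le_mul_of_nonneg_right _ (by positivity)
    have : (k : ℝ) ≤ k ^ 3 := by nlinarith [sq_nonneg ((k : ℝ) - 1)]
    nlinarith [pow_pos (by linarith : (0 : ℝ) < k) 3]
  calc (3 : ℝ) ^ n * (En (FWT A k T) n : ℝ)
      ≤ 3 ^ n * (2 * (En ((FWT A k T).filter (fun w => ¬ Wo w < 3 ^ n)) n
          + En ((FWT A k T).filter (fun w => Wo w < 3 ^ n)) n)) :=
        mul_le_mul_of_nonneg_left h1 (by positivity)
    _ = 2 * (3 ^ n * (En ((FWT A k T).filter (fun w => ¬ Wo w < 3 ^ n)) n : ℝ))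
          + 2 * (3 ^ n * (En ((FWT A k T).filter (fun w => Wo w < 3 ^ n)) n : ℝ)) := by ring
    _ ≤ 2 * (3 / 2 * k ^ 3 * (T + 1) * 4 ^ T) + 2 * (k ^ 3 * (T + 1) * 4 ^ T) := by linarith
    _ = _ := by ring

end Pool.Agent.H48T
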