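import Pool.Agent.H48T.Win

/-! Hits of a thin set before the trajectory descends by a small factor. -/

set_option autoImplicit false

namespace Pool.Agent.H48T

open Finset
open Pool.Agent.H320R2.PD Pool.Agent.H499R2.ND
open Pool.Agent.H499R2.CO (Tz)
open Pool.Agent.R344.SP Pool.Agent.R344.TH

open scoped Classical in
theorem first {d : ℤ} (hd : d % 2 = 1) (hd3 : IsCoprime d 3) {γ : ℝ} (hγ0 : 0 < γ) (hγ : γ ≤ 1 / 2)
    (B : ℕ) : ∃ l₁ : ℝ, 0 < l₁ ∧ ∀ A : ℝ, 0 < A → l₁ ≤ Real.log A → ∀ z : ℝ,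
      A * Real.exp (-(Real.log A + 1) ^ γ) ≤ z → ∀ (A₀ : Set ℤ) (θ : ℝ), 0 ≤ θ →
      (∀ X : ℝ, z ≤ X → ((fA A₀ z X).card : ℝ) ≤ θ * X) →
      (((Wn A).filter (fun M => Odd M ∧ M ∈ HY d A₀ z)).card : ℝ) ≤
        A * (2 * θ + 18 * 201 ^ 4 * Real.sqrt θ * ((Real.log A + 1) ^ γ) ^ 4 + 1 / (Real.log A) ^ B) := by
  obtain ⟨ρ, hρ0, hρ1, hod⟩ := od_large hd (c₁ := 0.6) (by norm_num)
  have hlogρ : Real.log ρ < 0 := Real.log_neg hρ0 hρ1
  set c : ℝ := -(200 * Real.log ρ) with hc
  have hc0 : 0 < c := by rw [hc]; linarith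
  have hev1 : ∀ᶠ u : ℝ in Filter.atTop, u ^ ((B : ℝ) / γ) * Real.exp (-c * u) ≤ 1 / 2 :=
    (tendsto_rpow_mul_exp_neg_mul_atTop_nhds_zero _ c hc0).eventually_le_const (by norm_num)
  have hev2 : ∀ᶠ u : ℝ in Filter.atTop, 4000 ≤ u := Filter.eventually_ge_atTop _
  obtain ⟨u₀, hu₀⟩ := Filter.eventually_atTop.1 (hev1.and hev2)
  refine ⟨max (max 1000000 (2 * |(d : ℝ)|)) ((max u₀ 1) ^ (1 / γ)), by positivity, ?_⟩
  intro A hApos hl z hz1 A₀ θ hθ hA₀
  set l := Real.log A + 1 with hldef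
  have hl' : max (max 1000000 (2 * |(d : ℝ)|)) ((max u₀ 1) ^ (1 / γ)) ≤ l := by linarith
  have hl1 : 1000000 ≤ l := (le_max_left _ _).trans ((le_max_left _ _).trans hl')
  have hl2 : 2 * |(d : ℝ)| ≤ Real.log A := (le_max_right _ _).trans ((le_max_left _ _).trans hl)
  have hl3 : (max u₀ 1) ^ (1 / γ) ≤ l := (le_max_right _ _).trans hl'
  have hl0 : 0 < l := by linarith
  set u := l ^ γ with hu
  have hupos : 0 < u := by rw [hu]; positivity
  have hum : max u₀ 1 ≤ u := by
    have h1 : ((max u₀ 1) ^ (1 / γ)) ^ γ ≤ l ^ γ := Real.rpow_le_rpow (by positivity) hl3 hγ0.le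
    rwa [← Real.rpow_mul (by positivity), one_div, inv_mul_cancel₀ hγ0.ne', Real.rpow_one] at h1
  obtain ⟨h1, h2⟩ := hu₀ u ((le_max_left _ _).trans hum)
  have hexpA : Real.exp (Real.log A) = A := Real.exp_log hApos
  have hz : 0 < z := lt_of_lt_of_le (by positivity) hz1
  have hln2a := Real.log_two_gt_d9
  have hln2b := Real.log_two_lt_d9
  have hln3 := log3_le
  -- `u ≤ √l`
  have husq : u ≤ Real.sqrt l := by
    rw [Real.sqrt_eq_rpow]; exact Real.rpow_le_rpow_of_exponent_le (by linarith) hγ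
  have hsl : Real.sqrt l ≤ l / 1000 := by
    rw [Real.sqrt_le_left (by positivity)]
    nlinarith
  have hul : u ≤ l / 1000 := husq.trans hsl
  obtain ⟨K, hK⟩ : ∃ K : ℕ, K = ⌈200 * u⌉₊ := ⟨_, rfl⟩
  have hK1 : 200 * u ≤ K := by rw [hK]; exact Nat.le_ceil _
  have hK2 : (K : ℝ) ≤ 200 * u + 1 := by rw [hK]; exact (Nat.ceil_lt_add_one (by positivity)).le
  have hK3 : (K : ℝ) ≤ 201 * u := by linarith
  have hK1N : 1 ≤ K := by
    have : (1 : ℝ) ≤ K := by linarith
    exact_mod_cast this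
  have h2pow : ∀ j : ℕ, (2 : ℝ) ^ j = Real.exp (j * Real.log 2) := by
    intro j; rw [Real.exp_nat_mul, Real.exp_log (by norm_num)]
  have h3pow : ∀ j : ℕ, (3 : ℝ) ^ j = Real.exp (j * Real.log 3) := by
    intro j; rw [Real.exp_nat_mul, Real.exp_log (by norm_num)]
  have hzexp : Real.exp (l / 2 + 10) ≤ z := by
    refine le_trans ?_ hz1
    conv_rhs => rw [← hexpA]
    rw [← Real.exp_add]
    apply Real.exp_le_exp.2
    have : Real.log A = l - 1 := by rw [hldef]; ring
    linarith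
  have hKd : ∀ T : ℕ, T ≤ K → (T : ℝ) * |(d : ℝ)| ≤ z := by
    intro T hT
    have e0 : (T : ℝ) ≤ K := by exact_mod_cast hT
    have e1 : (T : ℝ) ≤ l / 2 := by linarith
    have e2 : (l / 2) ^ 2 / 2 ≤ z := by
      have h3 := Real.pow_div_factorial_le_exp (l / 2) (by positivity) 2
      have h4 : Real.exp (l / 2) ≤ Real.exp (l / 2 + 10) := Real.exp_le_exp.2 (by linarith)
      have h5 : (l / 2) ^ 2 / (Nat.factorial 2 : ℝ) = (l / 2) ^ 2 / 2 := by norm_num
      rw [h5] at h3
      linarith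
    have e4 : (T : ℝ) ≤ l / 4 := by linarith
    have e3 : (T : ℝ) * |(d : ℝ)| ≤ (l / 4) * (l / 2) :=
      mul_le_mul e4 (by linarith) (abs_nonneg _) (by positivity)
    nlinarith
  have h2KA : ∀ T : ℕ, T ≤ K → (2 : ℝ) ^ T ≤ A := by
    intro T hT
    have e0 : (T : ℝ) ≤ K := by exact_mod_cast hT
    rw [h2pow, ← hexpA]
    apply Real.exp_le_exp.2
    have e1 : (T : ℝ) * Real.log 2 ≤ (200 * u + 1) * 0.7 :=
      mul_le_mul (by linarith) (by linarith) (by linarith) (by positivity)
    linarith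
  have hcl : ∀ j : ℕ, (j : ℝ) < 0.6 * K → 4 * A * 3 ^ j < z * 2 ^ K := by
    intro j hj
    have e1 : (3 : ℝ) ^ j ≤ Real.exp (0.96 * (K * Real.log 2)) := by
      rw [h3pow]
      apply Real.exp_le_exp.2
      calc (j : ℝ) * Real.log 3 ≤ (0.6 * K) * (8 / 5 * Real.log 2) := by
            apply mul_le_mul hj.le hln3 (Real.log_nonneg (by norm_num)) (by positivity)
        _ = _ := by ring
    have hAz : A ≤ z * Real.exp u := by
      have e5 : A = A * Real.exp (-u) * Real.exp u := by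
        rw [mul_assoc, ← Real.exp_add, neg_add_cancel, Real.exp_zero, mul_one]
      rw [e5]
      exact mul_le_mul_of_nonneg_right hz1 (Real.exp_pos _).le
    have e2 : 4 * A * 3 ^ j ≤ Real.exp (2 * Real.log 2) * (z * Real.exp u)
        * Real.exp (0.96 * (K * Real.log 2)) := by
      have : Real.exp (2 * Real.log 2) = 4 := by
        rw [show (2 : ℝ) * Real.log 2 = ((2 : ℕ) : ℝ) * Real.log 2 by norm_num, Real.exp_nat_mul,
          Real.exp_log (by norm_num)]
        norm_num
      rw [this]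
      apply mul_le_mul _ e1 (by positivity) (by positivity)
      linarith
    refine e2.trans_lt ?_
    have e3 : Real.exp (2 * Real.log 2) * (z * Real.exp u) * Real.exp (0.96 * (K * Real.log 2))
        = z * Real.exp (2 * Real.log 2 + u + 0.96 * (K * Real.log 2)) := by
      rw [Real.exp_add, Real.exp_add]; ring
    rw [e3, h2pow]
    apply mul_lt_mul_of_pos_left _ hz
    apply Real.exp_lt_exp.2
    have e4 : 200 * u * 0.69 ≤ K * Real.log 2 := mul_le_mul hK1 (by linarith) (by norm_num) (by positivity)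
    linarith
  -- the cover
  set C := (Wn A).filter (fun M => Odd M ∧ M ∈ HY d A₀ z) with hC
  set S : ℕ → Finset ℤ := fun T => C.filter (fun M => (Tz d)^[T] M ∈ A₀ ∧
    (∀ j ≤ T, z ≤ (((Tz d)^[j] M : ℤ) : ℝ))) with hS
  set L : Finset ℤ := (Wn A).filter (fun n => 0.6 * K ≤ (od d K n : ℝ)) with hL
  have hcov : C ⊆ (range K).biUnion S ∪ L := by
    intro M hM
    have hM' := hM
    rw [hC, mem_filter] at hM'
    obtain ⟨hMW, hModd, T, hT1, hT2⟩ := hM'
    have hMA := mem_Wn.1 hMW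
    have hM0 : 0 < M := by
      have : (0 : ℝ) < M := lt_of_lt_of_le hApos hMA.1
      exact_mod_cast this
    rw [mem_union, mem_biUnion]
    by_cases hTK : T < K
    · left
      refine ⟨T, mem_range.2 hTK, ?_⟩
      rw [hS, mem_filter]
      exact ⟨hM, hT1, hT2⟩
    · right
      push Not at hTK
      rw [hL, mem_filter]
      refine ⟨hMW, ?_⟩
      by_contra hcon
      push Not at hcon
      have h1 := growth_two hd hz (hKd K le_rfl) hM0 (fun i hi => hT2 i (by omega))
      have h2 := hcl _ hcon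
      have h3 := hT2 K hTK
      have h4 : z * 2 ^ K ≤ 2 * (3 ^ od d K M * M) :=
        (mul_le_mul_of_nonneg_right h3 (by positivity)).trans h1
      have h5 : 2 * ((3 : ℝ) ^ od d K M * M) ≤ 4 * A * 3 ^ od d K M := by
        have : (0 : ℝ) < 3 ^ od d K M := by positivity
        nlinarith [hMA.2]
      linarith
  have hcard : (C.card : ℝ) ≤ ∑ T ∈ range K, ((S T).card : ℝ) + (L.card : ℝ) := by
    have h1 := (card_le_card hcov).trans (card_union_le _ _)
    have h2 : ((range K).biUnion S).card ≤ ∑ T ∈ range K, (S T).card := card_biUnion_le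
    have h4 := h1.trans (Nat.add_le_add_right h2 _)
    exact_mod_cast h4
  have hSb : ∀ T ∈ range K, ((S T).card : ℝ) ≤ (if T = 0 then 2 * A * θ else 0) +
      A * (18 * Real.sqrt θ * (201 * u) ^ 3) := by
    intro T hT
    rw [mem_range] at hT
    have hTR2 : (T : ℝ) ≤ K := by exact_mod_cast hT.le
    rcases Nat.eq_zero_or_pos T with h0 | h0
    · rw [if_pos h0]
      have g0 : 0 ≤ A * (18 * Real.sqrt θ * (201 * u) ^ 3) := by positivity
      rcases (S T).eq_empty_or_nonempty with he | ⟨M₀, hM₀⟩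
      · rw [he, card_empty, Nat.cast_zero]; positivity
      · have hsub : S T ⊆ fA A₀ z (2 * A) := by
          intro M hM
          rw [hS, mem_filter, hC, mem_filter, mem_Wn] at hM
          rw [mem_fA]
          have g1 := hM.2.1
          have g2 := hM.2.2 0 (Nat.zero_le _)
          rw [h0] at g1
          exact ⟨⟨g2, hM.1.1.2.le⟩, g1⟩
        have hz2 : z ≤ 2 * A := by
          have := hsub hM₀
          rw [mem_fA] at this
          exact this.1.1.trans this.1.2
        have g3 : ((S T).card : ℝ) ≤ ((fA A₀ z (2 * A)).card : ℝ) := by exact_mod_cast card_le_card hsub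
        have g4 := hA₀ (2 * A) hz2
        linarith
    · rw [if_neg (by omega), zero_add]
      have g1 := hit_time hd hd3 A₀ hz hθ hA₀ (T := T) (m := 0) (by omega) (hKd T hT.le)
        (u := 1) (v := 0) isCoprime_one_left hApos
        (by rw [pow_zero, one_mul]; exact (h2KA T hT.le).trans (by linarith)) (S T) (by
          intro M hM
          rw [hS, mem_filter, hC, mem_filter, mem_Wn] at hM
          obtain ⟨⟨hMW, hMo, _⟩, hM2, hM3⟩ := hM
          exact ⟨hMW.2, Int.odd_iff.1 hMo, Or.inl rfl, hM2, hM3, by simp⟩)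
      rw [pow_zero, div_one] at g1
      refine g1.trans ?_
      apply mul_le_mul_of_nonneg_left _ hApos.le
      apply mul_le_mul_of_nonneg_left _ (by positivity)
      exact pow_le_pow_left₀ (Nat.cast_nonneg _) (hTR2.trans hK3) 3
  have hS1 : ∑ T ∈ range K, ((S T).card : ℝ) ≤ 2 * A * θ + A * (18 * Real.sqrt θ * (201 * u) ^ 4) := by
    refine (sum_le_sum hSb).trans ?_
    rw [sum_add_distrib, sum_const, nsmul_eq_mul, card_range, sum_ite_eq', if_pos (mem_range.2 (by omega))]
    have e1 : (K : ℝ) * (A * (18 * Real.sqrt θ * (201 * u) ^ 3)) ≤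
        (201 * u) * (A * (18 * Real.sqrt θ * (201 * u) ^ 3)) :=
      mul_le_mul_of_nonneg_right hK3 (by positivity)
    have e2 : (201 * u) * (A * (18 * Real.sqrt θ * (201 * u) ^ 3)) =
      A * (18 * Real.sqrt θ * (201 * u) ^ 4) := by ring
    linarith
  have hL1 : (L.card : ℝ) ≤ A * (1 / (Real.log A) ^ B) := by
    refine (hod K A hApos.le).trans ?_
    have e1 := h2KA K le_rfl
    have e2 : ρ ^ K ≤ Real.exp (-c * u) := by
      have : ρ ^ K = Real.exp (K * Real.log ρ) := by rw [Real.exp_nat_mul, Real.exp_log hρ0]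
      rw [this]
      apply Real.exp_le_exp.2
      have e3 : (K : ℝ) * Real.log ρ ≤ (200 * u) * Real.log ρ :=
        mul_le_mul_of_nonpos_right hK1 hlogρ.le
      have e4 : -c * u = (200 * u) * Real.log ρ := by rw [hc]; ring
      linarith
    have hP : l ^ B = u ^ ((B : ℝ) / γ) := by
      rw [hu, ← Real.rpow_mul hl0.le, mul_div_cancel₀ _ hγ0.ne', Real.rpow_natCast]
    rw [← hP] at h1
    have hlA0 : 0 < Real.log A := by
      have : Real.log A = l - 1 := by rw [hldef]; ring
      linarith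
    have e5 : (Real.log A) ^ B ≤ l ^ B := pow_le_pow_left₀ hlA0.le (by linarith) B
    have e6 : Real.exp (-c * u) ≤ 1 / 2 * (1 / (Real.log A) ^ B) := by
      have e7 : Real.exp (-c * u) ≤ 1 / 2 / l ^ B := by
        rw [le_div_iff₀ (by positivity), mul_comm]; exact h1
      refine e7.trans ?_
      rw [div_eq_mul_one_div]
      apply mul_le_mul_of_nonneg_left _ (by norm_num)
      exact one_div_le_one_div_of_le (by positivity) e5
    calc (A + 2 ^ K) * ρ ^ K ≤ (2 * A) * (1 / 2 * (1 / (Real.log A) ^ B)) :=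
          mul_le_mul (by linarith) (e2.trans e6) (by positivity) (by positivity)
      _ = _ := by ring
  have hfin2 : A * (18 * Real.sqrt θ * (201 * u) ^ 4) = A * (18 * 201 ^ 4 * Real.sqrt θ * u ^ 4) := by ring
  rw [hfin2] at hS1
  rw [mul_add, mul_add]
  linarith

end Pool.Agent.H48T
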