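import Pool.Agent.R344.TH.F
import Pool.Agent.H48T.En2

/-! Hits of a thin set at a given time. -/

set_option autoImplicit false

namespace Pool.Agent.H48T

open Finset
open Pool.Agent.H320R2.PD Pool.Agent.H499R2.ND
open Pool.Agent.H499R2.CO (Tz)
open Pool.Agent.R344.SP Pool.Agent.R344.TH

/-- the word of the first `T` steps of an odd integer -/
theorem word_exists {d : ℤ} (hd : d % 2 = 1) {M : ℤ} (hM : M % 2 = 1) : ∀ T : ℕ,
    ∃ w : List ℕ, w ≠ [] ∧ (∀ a ∈ w, 1 ≤ a) ∧ w.sum = T + 1 ∧ w.length = od d (T + 1) M ∧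
      2 ^ (T + 1) * (Tz d)^[T + 1] M = 3 ^ w.length * M + d * Wo w
  | 0 => by
    refine ⟨[1], by simp, by simp, by simp, ?_, ?_⟩
    · unfold od; simp [hM]
    · have := Tz_odd (d := d) hd (y := M) (by omega)
      simp [Wo]
      linarith
  | T + 1 => by
    obtain ⟨w, h1, h2, h3, h4, h5⟩ := word_exists hd hM T
    obtain ⟨e, v, rfl⟩ : ∃ e v, w = e :: v := by
      cases w with
      | nil => exact absurd rfl h1
      | cons e v => exact ⟨e, v, rfl⟩
    set y : ℤ := (Tz d)^[T + 1] M with hy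
    by_cases hpar : y % 2 = 0
    · refine ⟨(e + 1) :: v, by simp, ?_, ?_, ?_, ?_⟩
      · intro a ha
        rcases List.mem_cons.1 ha with rfl | ha
        · omega
        · exact h2 a (List.mem_cons_of_mem _ ha)
      · rw [List.sum_cons] at h3 ⊢
        omega
      · rw [od_succ, ← hy, hpar, List.length_cons]
        rw [List.length_cons] at h4
        simpa using h4
      · rw [Function.iterate_succ_apply', ← hy]
        have e1 := Tz_even (d := d) hpar
        have e2 : Wo ((e + 1) :: v) = Wo (e :: v) := rfl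
        have e3 : ((e + 1) :: v).length = (e :: v).length := rfl
        rw [e2, e3, ← h5, pow_succ _ (T + 1), mul_assoc, e1]
    · refine ⟨1 :: e :: v, by simp, ?_, ?_, ?_, ?_⟩
      · intro a ha
        rcases List.mem_cons.1 ha with rfl | ha
        · exact le_rfl
        · exact h2 a ha
      · rw [List.sum_cons, h3]; omega
      · rw [od_succ, ← hy, List.length_cons, h4]
        have : y % 2 = 1 := by omega
        rw [this]; rfl
      · rw [Function.iterate_succ_apply', ← hy]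
        have e1 := Tz_odd hd hpar
        have e2 : Wo (1 :: e :: v) = 2 ^ (e :: v).sum + 3 * Wo (e :: v) := rfl
        have e3 : (1 :: e :: v).length = (e :: v).length + 1 := rfl
        have e4 : (2 : ℤ) ^ (T + 1 + 1) * Tz d y = 2 ^ (T + 1) * (2 * Tz d y) := by ring
        have e5 : (3 : ℤ) ^ ((e :: v).length + 1) * M = 3 * (3 ^ (e :: v).length * M) := by ring
        have e6 : (2 : ℤ) ^ (T + 1) * (3 * y + d) = 3 * (2 ^ (T + 1) * y) + d * 2 ^ (T + 1) := by ring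
        rw [e2, e3, h3, e4, e1, e5, e6, h5]
        push_cast
        ring

theorem class_count {F : Finset ℤ} {X : ℝ} (hX : 0 ≤ X) (hF : ∀ y ∈ F, 0 ≤ y ∧ (y : ℝ) ≤ X) {q : ℤ}
    (hq : 0 < q) (hc : ∀ y ∈ F, ∀ y' ∈ F, q ∣ y - y') : (F.card : ℝ) ≤ X / q + 1 := by
  have hqR : (0 : ℝ) < q := by exact_mod_cast hq
  have hXq : 0 ≤ X / q := by positivity
  rcases F.eq_empty_or_nonempty with rfl | hne
  · rw [card_empty, Nat.cast_zero]; linarith
  obtain ⟨y₀, hy₀, hmin⟩ := F.exists_min_image id hne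
  have h1 : F.card ≤ (range (⌊X / q⌋₊ + 1)).card := by
    apply card_le_card_of_injOn (fun y => ((y - y₀) / q).toNat)
    · intro y hy
      simp only [coe_range, Set.mem_Iio]
      have h2 := hF y hy
      have h3 := hF y₀ hy₀
      have h4 := hmin y hy
      simp only [id] at h4
      have h5 : 0 ≤ (y - y₀) / q := Int.ediv_nonneg (by omega) hq.le
      have h6 : (((((y - y₀) / q).toNat : ℕ)) : ℝ) ≤ X / q := by
        have h7 : ((((y - y₀) / q).toNat : ℕ) : ℤ) = (y - y₀) / q := Int.toNat_of_nonneg h5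
        have h8 : (y - y₀) / q * q ≤ y - y₀ := Int.ediv_mul_le _ hq.ne'
        rw [le_div_iff₀ hqR]
        have h9 : (((((y - y₀) / q).toNat : ℕ) : ℤ) : ℝ) * q ≤ ((y - y₀ : ℤ) : ℝ) := by
          rw [h7]; exact_mod_cast h8
        push_cast at h9
        have h10 : (0 : ℝ) ≤ y₀ := by exact_mod_cast h3.1
        linarith [h2.2]
      have := Nat.le_floor h6
      omega
    · intro y hy y' hy' hyy
      simp only at hyy
      have h4 := hmin y hy
      have h4' := hmin y' hy'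
      simp only [id] at h4 h4'
      have h5 : 0 ≤ (y - y₀) / q := Int.ediv_nonneg (by omega) hq.le
      have h5' : 0 ≤ (y' - y₀) / q := Int.ediv_nonneg (by omega) hq.le
      have h6 : (y - y₀) / q = (y' - y₀) / q := by omega
      have h7 := Int.ediv_mul_cancel (hc y hy y₀ hy₀)
      have h7' := Int.ediv_mul_cancel (hc y' hy' y₀ hy₀)
      rw [h6] at h7
      linarith
  rw [card_range] at h1
  have h2 : ((⌊X / q⌋₊ : ℕ) : ℝ) ≤ X / q := Nat.floor_le hXq
  have h3 : (F.card : ℝ) ≤ (⌊X / q⌋₊ : ℝ) + 1 := by exact_mod_cast h1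
  linarith

/-- starting points with `k` odd terms among the first `T`, in a class modulo `3 ^ m`, which are in
`F` at time `T` -/
theorem hits {d : ℤ} (hd : d % 2 = 1) (hd3 : IsCoprime d 3) {T k m : ℕ} (hT : 1 ≤ T) (hk : 1 ≤ k)
    (h : m = 0 ∨ 3 ^ (k + m) ≤ 2 ^ T) {u v : ℤ} (hu : IsCoprime u 3) (F : Finset ℤ) {X : ℝ}
    (hF : ∀ y ∈ F, 0 ≤ y ∧ (y : ℝ) ≤ X) (hX : (3 : ℝ) ^ (k + m) ≤ X) (H : Finset ℤ)
    (hH : ∀ M ∈ H, M % 2 = 1 ∧ od d T M = k ∧ (Tz d)^[T] M ∈ F ∧ (3 : ℤ) ^ m ∣ u * M - v) :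
    (H.card : ℝ) ^ 2 ≤ F.card * (2 * X * (5 * k ^ 3 * (T + 1) * 4 ^ T) / 9 ^ (k + m)) := by
  classical
  obtain ⟨T', rfl⟩ : ∃ T', T = T' + 1 := ⟨T - 1, by omega⟩
  set n := k + m with hn
  have hw : ∀ M : ℤ, ∃ w : List ℕ, M % 2 = 1 → (w ≠ [] ∧ (∀ a ∈ w, 1 ≤ a) ∧ w.sum = T' + 1 ∧
      w.length = od d (T' + 1) M ∧ 2 ^ (T' + 1) * (Tz d)^[T' + 1] M = 3 ^ w.length * M + d * Wo w) := by
    intro M
    by_cases hM : M % 2 = 1
    · obtain ⟨w, hw⟩ := word_exists hd hM T'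
      exact ⟨w, fun _ => hw⟩
    · exact ⟨[], fun h => absurd h hM⟩
  choose W hW using hw
  set f : ℤ → ℤ := fun M => (Tz d)^[T' + 1] M with hf
  have hWm : ∀ M ∈ H, W M ∈ FWT (T' + 1) k (T' + 1) ∧
      2 ^ (T' + 1) * f M = 3 ^ k * M + d * Wo (W M) := by
    intro M hM
    obtain ⟨h1, h2, h3, h4⟩ := hH M hM
    obtain ⟨g1, g2, g3, g4, g5⟩ := hW M h1
    rw [h2] at g4
    refine ⟨mem_FWT.2 ⟨⟨g4, fun a ha => ⟨g2 a ha, ?_⟩⟩, g3⟩, ?_⟩
    · rw [← g3]; exact List.single_le_sum (fun _ _ => Nat.zero_le _) a ha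
    · rw [g4] at g5; exact g5
  have hcop3 : ∀ j : ℕ, IsCoprime ((3 : ℤ) ^ n) (2 ^ j) := fun j => (cop_two_pow j).symm.pow_left
  have hcopu : IsCoprime ((3 : ℤ) ^ n) u := hu.symm.pow_left
  have hcopd : IsCoprime ((3 : ℤ) ^ n) d := hd3.symm.pow_left
  -- the condition on the class of `y`
  have hcond : ∀ M ∈ H, (3 : ℤ) ^ n ∣ u * 2 ^ (T' + 1) * f M - (u * d * Wo (W M) + 3 ^ k * v) := by
    intro M hM
    obtain ⟨h1, h2, h3, h4⟩ := hH M hM
    have h5 := (hWm M hM).2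
    have h6 : u * 2 ^ (T' + 1) * f M - (u * d * Wo (W M) + 3 ^ k * v) = 3 ^ k * (u * M - v) := by
      have : u * 2 ^ (T' + 1) * f M = u * (3 ^ k * M + d * Wo (W M)) := by rw [← h5]; ring
      rw [this]; ring
    rw [h6, hn, pow_add]
    exact mul_dvd_mul_left _ h4
  set E := ((FWT (T' + 1) k (T' + 1)) ×ˢ (FWT (T' + 1) k (T' + 1))).filter
    (fun p => Wo p.1 % 3 ^ n = Wo p.2 % 3 ^ n) with hE
  -- pairs with the same value
  have hpair : ∀ y ∈ F, ((H.filter (fun M => f M = y)).card) ^ 2 ≤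
      (E.filter (fun p => (3 : ℤ) ^ n ∣ u * 2 ^ (T' + 1) * y - (u * d * Wo p.1 + 3 ^ k * v))).card := by
    intro y _
    rw [sq, ← card_product]
    apply card_le_card_of_injOn (fun x => (W x.1, W x.2))
    · rintro ⟨M, M'⟩ hx
      rw [mem_coe, mem_product, mem_filter, mem_filter] at hx
      obtain ⟨⟨h1, h2⟩, h3, h4⟩ := hx
      simp only at h1 h2 h3 h4
      rw [mem_coe, mem_filter, hE, mem_filter, mem_product]
      refine ⟨⟨⟨(hWm M h1).1, (hWm M' h3).1⟩, ?_⟩, ?_⟩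
      · simp only
        have g1 := hcond M h1
        have g2 := hcond M' h3
        rw [h2] at g1
        rw [h4] at g2
        have g3 := dvd_sub g2 g1
        have g4 : u * 2 ^ (T' + 1) * y - (u * d * (Wo (W M') : ℤ) + 3 ^ k * v) -
            (u * 2 ^ (T' + 1) * y - (u * d * (Wo (W M) : ℤ) + 3 ^ k * v)) =
            u * (d * ((Wo (W M) : ℤ) - Wo (W M'))) := by ring
        rw [g4] at g3
        have g5 := hcopd.dvd_of_dvd_mul_left (hcopu.dvd_of_dvd_mul_left g3)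
        have g6 : (Wo (W M') : ℤ) ≡ Wo (W M) [ZMOD ((3 ^ n : ℕ) : ℤ)] := by
          rw [Int.modEq_iff_dvd]
          push_cast
          exact g5
        have g7 := (Int.natCast_modEq_iff.1 g6)
        exact g7.symm
      · simp only
        have g1 := hcond M h1
        rw [h2] at g1
        exact g1
    · rintro ⟨M, M'⟩ hx ⟨L, L'⟩ hy hxy
      rw [mem_coe, mem_product, mem_filter, mem_filter] at hx hy
      simp only [Prod.mk.injEq] at hxy
      simp only at hx hy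
      have inj : ∀ M L : ℤ, M ∈ H → L ∈ H → f M = y → f L = y → W M = W L → M = L := by
        intro M L hM hL h1 h2 h3
        have g1 := (hWm M hM).2
        have g2 := (hWm L hL).2
        rw [h1, h3] at g1
        rw [h2] at g2
        rw [g1] at g2
        have g3 : (3 : ℤ) ^ k * M = 3 ^ k * L := by linarith
        exact mul_left_cancel₀ (by positivity) g3
      rw [inj M L hx.1.1 hy.1.1 hx.1.2 hy.1.2 hxy.1, inj M' L' hx.2.1 hy.2.1 hx.2.2 hy.2.2 hxy.2]
  -- Cauchy-Schwarz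
  have hcard : H.card = ∑ y ∈ F, (H.filter (fun M => f M = y)).card :=
    card_eq_sum_card_fiberwise (fun M hM => (hH M hM).2.2.1)
  have hCS : (H.card : ℝ) ^ 2 ≤ F.card * ∑ y ∈ F, ((H.filter (fun M => f M = y)).card : ℝ) ^ 2 := by
    rw [hcard]
    push_cast
    exact sq_sum_le_card_mul_sum_sq
  refine hCS.trans (mul_le_mul_of_nonneg_left ?_ (Nat.cast_nonneg _))
  -- the sum over the pairs of words
  have h1 : ∑ y ∈ F, ((H.filter (fun M => f M = y)).card : ℝ) ^ 2 ≤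
      ∑ y ∈ F, ((E.filter (fun p => (3 : ℤ) ^ n ∣ u * 2 ^ (T' + 1) * y - (u * d * Wo p.1 + 3 ^ k * v))).card : ℝ) := by
    apply sum_le_sum
    intro y hy
    exact_mod_cast hpair y hy
  have h2 : ∑ y ∈ F, ((E.filter (fun p => (3 : ℤ) ^ n ∣ u * 2 ^ (T' + 1) * y - (u * d * Wo p.1 + 3 ^ k * v))).card : ℝ)
      = ∑ p ∈ E, ((F.filter (fun y => (3 : ℤ) ^ n ∣ u * 2 ^ (T' + 1) * y - (u * d * Wo p.1 + 3 ^ k * v))).card : ℝ) := by
    simp only [card_filter]
    push_cast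
    rw [sum_comm]
  have hX0 : 0 ≤ X := le_trans (by positivity) hX
  have h3 : ∀ p ∈ E, ((F.filter (fun y => (3 : ℤ) ^ n ∣ u * 2 ^ (T' + 1) * y - (u * d * Wo p.1 + 3 ^ k * v))).card : ℝ)
      ≤ 2 * X / 3 ^ n := by
    intro p _
    have g1 := class_count (F := F.filter (fun y => (3 : ℤ) ^ n ∣ u * 2 ^ (T' + 1) * y - (u * d * Wo p.1 + 3 ^ k * v)))
      hX0 (fun y hy => hF y (mem_filter.1 hy).1) (q := 3 ^ n) (by positivity) (by
        intro y hy y' hy'
        rw [mem_filter] at hy hy'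
        have g2 := dvd_sub hy.2 hy'.2
        have g3 : u * 2 ^ (T' + 1) * y - (u * d * (Wo p.1 : ℤ) + 3 ^ k * v) -
            (u * 2 ^ (T' + 1) * y' - (u * d * (Wo p.1 : ℤ) + 3 ^ k * v)) = u * (2 ^ (T' + 1) * (y - y')) := by ring
        rw [g3] at g2
        exact (hcop3 _).dvd_of_dvd_mul_left (hcopu.dvd_of_dvd_mul_left g2))
    push_cast at g1
    refine g1.trans ?_
    have g4 : 1 ≤ X / 3 ^ n := by
      rw [le_div_iff₀ (by positivity)]; linarith
    calc X / 3 ^ n + 1 ≤ X / 3 ^ n + X / 3 ^ n := by linarith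
      _ = _ := by ring
  rw [h2] at h1
  refine h1.trans ((sum_le_sum h3).trans ?_)
  rw [sum_const, nsmul_eq_mul]
  have hEn := En_le (A := T' + 1) (T := T' + 1) (n := n) hk (by omega) (by
    rcases h with h | h
    · left; omega
    · right; exact h)
  have hEc : (E.card : ℝ) = (En (FWT (T' + 1) k (T' + 1)) n : ℝ) := rfl
  rw [hEc]
  have h9 : (9 : ℝ) ^ n = 3 ^ n * 3 ^ n := by rw [← mul_pow]; norm_num
  rw [h9, le_div_iff₀ (by positivity)]
  calc (En (FWT (T' + 1) k (T' + 1)) n : ℝ) * (2 * X / 3 ^ n) * (3 ^ n * 3 ^ n)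
      = (3 ^ n * (En (FWT (T' + 1) k (T' + 1)) n : ℝ)) * (2 * X) := by field_simp
    _ ≤ (5 * k ^ 3 * (((T' + 1 : ℕ) : ℝ) + 1) * 4 ^ (T' + 1)) * (2 * X) :=
        mul_le_mul_of_nonneg_right hEn (by positivity)
    _ = _ := by ring

end Pool.Agent.H48T
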