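import Pool.Agent.R344.TH.F

/-! Independence of the blocks of parities. -/

set_option autoImplicit false

namespace Pool.Agent.H48T

open Finset
open Pool.Agent.H499R2.CO (Tz)
open Pool.Agent.R344.SP Pool.Agent.R344.TH

theorem iter_add {d : ℤ} (hd : d % 2 = 1) : ∀ (t : ℕ) (x m : ℤ),
    (Tz d)^[t] (x + m * 2 ^ t) = (Tz d)^[t] x + 3 ^ od d t x * m
  | 0, x, m => by simp [od]
  | t + 1, x, m => by
    rw [Function.iterate_succ_apply, Function.iterate_succ_apply, od_succ']
    have e0 : m * (2 : ℤ) ^ (t + 1) = 2 * (m * 2 ^ t) := by rw [pow_succ]; ring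
    by_cases hp : x % 2 = 0
    · have h1 := Tz_even (d := d) hp
      have h2 := Tz_even (d := d) (y := x + m * 2 ^ (t + 1)) (by omega)
      have h3 : Tz d (x + m * 2 ^ (t + 1)) = Tz d x + m * 2 ^ t := by omega
      rw [h3, iter_add hd t, hp]
      simp
    · have h1 := Tz_odd hd hp
      have h2 := Tz_odd (d := d) (y := x + m * 2 ^ (t + 1)) hd (by omega)
      have h3 : Tz d (x + m * 2 ^ (t + 1)) = Tz d x + (3 * m) * 2 ^ t := by
        have : 2 * Tz d (x + m * 2 ^ (t + 1)) = 2 * (Tz d x + (3 * m) * 2 ^ t) := by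
          have e3 : 2 * (Tz d x + (3 * m) * 2 ^ t) = 2 * Tz d x + 3 * (2 * (m * 2 ^ t)) := by ring
          rw [h2, e3, h1, e0]; ring
        omega
      have h4 : x % 2 = 1 := by omega
      have h5 : (1 : ℤ).toNat = 1 := rfl
      rw [h3, iter_add hd t, h4, h5, pow_succ]
      ring

/-- sums over a complete system of residues -/
theorem sum_affine {g : ℤ → ℝ} {q : ℕ} (hq : 0 < q) (hg : ∀ x m : ℤ, g (x + m * q) = g x) (a : ℤ) {b : ℤ}
    (hb : IsCoprime b (q : ℤ)) :
    ∑ m ∈ range q, g (a + b * (m : ℤ)) = ∑ m ∈ range q, g (m : ℤ) := by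
  have hq0 : (0 : ℤ) < q := by exact_mod_cast hq
  have hmod : ∀ x : ℤ, g x = g (((x % q).toNat : ℕ) : ℤ) := by
    intro x
    have h1 : (((x % q).toNat : ℕ) : ℤ) = x % q := Int.toNat_of_nonneg (Int.emod_nonneg _ hq0.ne')
    rw [h1]
    have h2 := hg (x % q) (x / q)
    rw [← h2]
    congr 1
    have := Int.emod_add_mul_ediv x q
    linarith
  have hinj : Set.InjOn (fun m : ℕ => ((a + b * (m : ℤ)) % q).toNat) (range q : Set ℕ) := by
    intro m hm m' hm' h
    simp only at h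
    rw [coe_range, Set.mem_Iio] at hm hm'
    have h1 : (a + b * (m : ℤ)) % q = (a + b * (m' : ℤ)) % q := by
      have e1 := Int.emod_nonneg (a + b * (m : ℤ)) hq0.ne'
      have e2 := Int.emod_nonneg (a + b * (m' : ℤ)) hq0.ne'
      omega
    have h2 : (q : ℤ) ∣ (a + b * (m : ℤ)) - (a + b * (m' : ℤ)) := by
      have h3 : (a + b * (m' : ℤ)) ≡ (a + b * (m : ℤ)) [ZMOD q] := h1.symm
      exact h3.dvd
    have h3 : (q : ℤ) ∣ b * ((m : ℤ) - m') := by
      have : (a + b * (m : ℤ)) - (a + b * (m' : ℤ)) = b * ((m : ℤ) - m') := by ring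
      rwa [this] at h2
    have h4 := hb.symm.dvd_of_dvd_mul_left h3
    obtain ⟨c, hc⟩ := h4
    have hmq : (m : ℤ) < q := by exact_mod_cast hm
    have hmq' : (m' : ℤ) < q := by exact_mod_cast hm'
    have h5 : c < 1 := by
      by_contra hcon
      push Not at hcon
      have : (q : ℤ) * 1 ≤ q * c := mul_le_mul_of_nonneg_left hcon hq0.le
      omega
    have h6 : -1 < c := by
      by_contra hcon
      push Not at hcon
      have : (q : ℤ) * c ≤ q * (-1) := mul_le_mul_of_nonneg_left hcon hq0.le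
      omega
    have h7 : c = 0 := by omega
    rw [h7, mul_zero] at hc
    omega
  have hmaps : ∀ m ∈ range q, (fun m : ℕ => ((a + b * (m : ℤ)) % q).toNat) m ∈ range q := by
    intro m _
    rw [mem_range]
    have h1 := Int.emod_nonneg (a + b * (m : ℤ)) hq0.ne'
    have h2 := Int.emod_lt_of_pos (a + b * (m : ℤ)) hq0
    simp only
    omega
  have himg : (range q).image (fun m : ℕ => ((a + b * (m : ℤ)) % q).toNat) = range q := by
    apply eq_of_subset_of_card_le
    · intro x hx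
      rw [mem_image] at hx
      obtain ⟨m, hm, rfl⟩ := hx
      exact hmaps m hm
    · rw [card_image_of_injOn hinj]
  calc ∑ m ∈ range q, g (a + b * (m : ℤ))
      = ∑ m ∈ range q, g ((((a + b * (m : ℤ)) % q).toNat : ℕ) : ℤ) := sum_congr rfl fun m _ => hmod _
    _ = ∑ x ∈ (range q).image (fun m : ℕ => ((a + b * (m : ℤ)) % q).toNat), g (x : ℤ) := by
        rw [sum_image hinj]
    _ = _ := by rw [himg]

/-- product formula -/
theorem sum_prod {d : ℤ} (hd : d % 2 = 1) (t t' : ℕ) {f g : ℤ → ℝ}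
    (hf : ∀ x m : ℤ, f (x + m * 2 ^ t) = f x) (hg : ∀ x m : ℤ, g (x + m * 2 ^ t') = g x) :
    ∑ r ∈ range (2 ^ (t + t')), f (r : ℤ) * g ((Tz d)^[t] (r : ℤ)) =
      (∑ r ∈ range (2 ^ t), f (r : ℤ)) * ∑ r ∈ range (2 ^ t'), g (r : ℤ) := by
  have h1 : ∑ r ∈ range (2 ^ (t + t')), f (r : ℤ) * g ((Tz d)^[t] (r : ℤ)) =
      ∑ x ∈ range (2 ^ t), ∑ m ∈ range (2 ^ t'),
        f ((x + 2 ^ t * m : ℕ) : ℤ) * g ((Tz d)^[t] ((x + 2 ^ t * m : ℕ) : ℤ)) := by
    rw [← sum_product']
    symm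
    apply sum_nbij' (fun p : ℕ × ℕ => p.1 + 2 ^ t * p.2) (fun r => (r % 2 ^ t, r / 2 ^ t))
    · rintro ⟨x, m⟩ hp
      rw [mem_product, mem_range, mem_range] at hp
      rw [mem_range, pow_add]
      calc x + 2 ^ t * m < 2 ^ t + 2 ^ t * m := by omega
        _ = 2 ^ t * (m + 1) := by ring
        _ ≤ 2 ^ t * 2 ^ t' := Nat.mul_le_mul_left _ (by omega)
    · intro r hr
      rw [mem_range, pow_add] at hr
      rw [mem_product, mem_range, mem_range]
      exact ⟨Nat.mod_lt _ (by positivity), Nat.div_lt_of_lt_mul hr⟩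
    · rintro ⟨x, m⟩ hp
      rw [mem_product, mem_range, mem_range] at hp
      simp only [Nat.add_mul_mod_self_left, Nat.mod_eq_of_lt hp.1, Prod.mk.injEq, true_and]
      rw [Nat.add_mul_div_left _ _ (by positivity), Nat.div_eq_of_lt hp.1, zero_add]
    · intro r _
      exact Nat.mod_add_div r (2 ^ t)
    · rintro ⟨x, m⟩ _
      rfl
  rw [h1, sum_mul]
  refine sum_congr rfl fun x _ => ?_
  have h2 : ∀ m ∈ range (2 ^ t'), f ((x + 2 ^ t * m : ℕ) : ℤ) * g ((Tz d)^[t] ((x + 2 ^ t * m : ℕ) : ℤ)) =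
      f (x : ℤ) * g ((Tz d)^[t] (x : ℤ) + 3 ^ od d t x * (m : ℤ)) := by
    intro m _
    have e1 : ((x + 2 ^ t * m : ℕ) : ℤ) = (x : ℤ) + (m : ℤ) * 2 ^ t := by push_cast; ring
    rw [e1, hf, iter_add hd]
  rw [sum_congr rfl h2, ← mul_sum]
  congr 1
  have h3 := sum_affine (g := g) (q := 2 ^ t') (by positivity) (by
    intro x m
    push_cast
    exact hg x m) ((Tz d)^[t] (x : ℤ)) (b := 3 ^ od d t x) (by
    push_cast
    exact IsCoprime.pow ⟨1, -1, by norm_num⟩)
  exact h3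

/-- the number of residues with given number of odd terms -/
theorem count_od {d : ℤ} (hd : d % 2 = 1) (t j : ℕ) :
    ((range (2 ^ t)).filter (fun r : ℕ => od d t (r : ℤ) = j)).card = t.choose j := by
  have h1 : (∑ r ∈ range (2 ^ t), (Polynomial.X : Polynomial ℝ) ^ od d t (r : ℤ)) =
      (1 + Polynomial.X) ^ t := by
    apply Polynomial.funext
    intro x
    rw [Polynomial.eval_finsetSum]
    simp only [Polynomial.eval_pow, Polynomial.eval_X, Polynomial.eval_add, Polynomial.eval_one]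
    exact od_gen hd x t
  have h2 := congrArg (fun P => Polynomial.coeff P j) h1
  simp only [Polynomial.finsetSum_coeff, Polynomial.coeff_X_pow, Polynomial.coeff_one_add_X_pow] at h2
  have h3 : (((range (2 ^ t)).filter (fun r : ℕ => od d t (r : ℤ) = j)).card : ℝ) = (t.choose j : ℝ) := by
    rw [← h2, card_filter]
    push_cast
    refine sum_congr rfl fun r _ => ?_
    by_cases h : od d t (r : ℤ) = j
    · rw [if_pos h, if_pos h.symm]
    · rw [if_neg h, if_neg (fun h' => h h'.symm)]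
  exact_mod_cast h3

theorem choose_rec (g : ℕ) : (4 * (g + 1)).choose (3 * (g + 1)) * ((3 * g + 3) * (3 * g + 2) * (3 * g + 1) * (g + 1)) =
    (4 * g).choose (3 * g) * ((4 * g + 4) * (4 * g + 3) * (4 * g + 2) * (4 * g + 1)) := by
  have h1 := Nat.choose_mul_factorial_mul_factorial (n := 4 * (g + 1)) (k := 3 * (g + 1)) (by omega)
  have h2 := Nat.choose_mul_factorial_mul_factorial (n := 4 * g) (k := 3 * g) (by omega)
  have e1 : 4 * (g + 1) - 3 * (g + 1) = g + 1 := by omega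
  have e2 : 4 * g - 3 * g = g := by omega
  rw [e1] at h1
  rw [e2] at h2
  have f1 : (4 * (g + 1)).factorial = (4 * g + 4) * (4 * g + 3) * (4 * g + 2) * (4 * g + 1) * (4 * g).factorial := by
    rw [show 4 * (g + 1) = 4 * g + 1 + 1 + 1 + 1 by ring]
    simp only [Nat.factorial_succ]
    ring
  have f2 : (3 * (g + 1)).factorial = (3 * g + 3) * (3 * g + 2) * (3 * g + 1) * (3 * g).factorial := by
    rw [show 3 * (g + 1) = 3 * g + 1 + 1 + 1 by ring]
    simp only [Nat.factorial_succ]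
    ring
  have f3 : (g + 1).factorial = (g + 1) * g.factorial := Nat.factorial_succ g
  rw [f1, f2, f3] at h1
  have hpos : 0 < (3 * g).factorial * g.factorial := Nat.mul_pos (Nat.factorial_pos _) (Nat.factorial_pos _)
  apply Nat.eq_of_mul_eq_mul_right hpos
  calc (4 * (g + 1)).choose (3 * (g + 1)) * ((3 * g + 3) * (3 * g + 2) * (3 * g + 1) * (g + 1)) *
        ((3 * g).factorial * g.factorial)
      = (4 * (g + 1)).choose (3 * (g + 1)) * ((3 * g + 3) * (3 * g + 2) * (3 * g + 1) * (3 * g).factorial) *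
          ((g + 1) * g.factorial) := by ring
    _ = (4 * g + 4) * (4 * g + 3) * (4 * g + 2) * (4 * g + 1) * (4 * g).factorial := h1
    _ = (4 * g + 4) * (4 * g + 3) * (4 * g + 2) * (4 * g + 1) *
          ((4 * g).choose (3 * g) * (3 * g).factorial * g.factorial) := by rw [h2]
    _ = _ := by ring

/-- lower bound for the binomial coefficient -/
theorem choose_ge : ∀ g : ℕ, 256 ^ g ≤ (4 * g + 1) * 27 ^ g * (4 * g).choose (3 * g)
  | 0 => by simp
  | g + 1 => by
    have ih := choose_ge g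
    have hrec := choose_rec g
    set D := (3 * g + 3) * (3 * g + 2) * (3 * g + 1) * (g + 1) with hD
    have hD0 : 0 < D := by rw [hD]; positivity
    apply Nat.le_of_mul_le_mul_right _ hD0
    have hpoly : 256 * (4 * g + 1) * D ≤ (4 * g + 5) * 27 * ((4 * g + 4) * (4 * g + 3) * (4 * g + 2) * (4 * g + 1)) := by
      rw [hD]
      have h1 : 64 * ((3 * g + 3) * (3 * g + 2) * (3 * g + 1)) ≤
          (4 * g + 5) * 27 * ((4 * g + 3) * (4 * g + 2)) := by nlinarith
      calc 256 * (4 * g + 1) * ((3 * g + 3) * (3 * g + 2) * (3 * g + 1) * (g + 1))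
          = (4 * (g + 1) * (4 * g + 1)) * (64 * ((3 * g + 3) * (3 * g + 2) * (3 * g + 1))) := by ring
        _ ≤ (4 * (g + 1) * (4 * g + 1)) * ((4 * g + 5) * 27 * ((4 * g + 3) * (4 * g + 2))) :=
            Nat.mul_le_mul_left _ h1
        _ = _ := by ring
    have h2 : (4 * (g + 1) + 1) * 27 ^ (g + 1) * (4 * (g + 1)).choose (3 * (g + 1)) * D =
        (4 * g + 5) * 27 * ((4 * g + 4) * (4 * g + 3) * (4 * g + 2) * (4 * g + 1)) *
          (27 ^ g * (4 * g).choose (3 * g)) := by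
      rw [mul_assoc ((4 * (g + 1) + 1) * 27 ^ (g + 1)), hrec, pow_succ]
      ring
    rw [h2]
    calc 256 ^ (g + 1) * D = 256 * D * 256 ^ g := by rw [pow_succ]; ring
      _ ≤ 256 * D * ((4 * g + 1) * 27 ^ g * (4 * g).choose (3 * g)) := Nat.mul_le_mul_left _ ih
      _ = (256 * (4 * g + 1) * D) * (27 ^ g * (4 * g).choose (3 * g)) := by ring
      _ ≤ _ := Nat.mul_le_mul_right _ hpoly

theorem choose_le (g : ℕ) {d : ℤ} (hd : d % 2 = 1) : 27 ^ g * (4 * g).choose (3 * g) ≤ 256 ^ g := by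
  rw [← count_od hd (4 * g) (3 * g)]
  have h1 := od_gen hd 3 (4 * g)
  have h2 : ∑ r ∈ (range (2 ^ (4 * g))).filter (fun r : ℕ => od d (4 * g) (r : ℤ) = 3 * g), (27 : ℝ) ^ g ≤
      ∑ r ∈ range (2 ^ (4 * g)), (3 : ℝ) ^ od d (4 * g) (r : ℤ) := by
    have h5 : ∑ r ∈ (range (2 ^ (4 * g))).filter (fun r : ℕ => od d (4 * g) (r : ℤ) = 3 * g), (27 : ℝ) ^ g =
        ∑ r ∈ (range (2 ^ (4 * g))).filter (fun r : ℕ => od d (4 * g) (r : ℤ) = 3 * g),
          (3 : ℝ) ^ od d (4 * g) (r : ℤ) := by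
      refine sum_congr rfl fun r hr => ?_
      rw [mem_filter] at hr
      rw [hr.2, pow_mul]
      norm_num
    rw [h5]
    exact sum_le_sum_of_subset_of_nonneg (filter_subset _ _) fun r _ _ => by positivity
  rw [sum_const, nsmul_eq_mul, h1] at h2
  have h3 : ((1 : ℝ) + 3) ^ (4 * g) = 256 ^ g := by rw [pow_mul]; norm_num
  rw [h3] at h2
  have h4 : (27 : ℝ) ^ g * (((range (2 ^ (4 * g))).filter (fun r : ℕ => od d (4 * g) (r : ℤ) = 3 * g)).card : ℝ) ≤
      256 ^ g := by linarith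
  exact_mod_cast h4

end Pool.Agent.H48T
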