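import Pool.Agent.H48T.Hit
import Pool.Agent.H48T.Ind

/-! The hot set: endpoints of blocks of `4 g` steps with `3 g` odd terms. -/

set_option autoImplicit false

namespace Pool.Agent.H48T

open Finset
open Pool.Agent.H499R2.CO (Tz)
open Pool.Agent.R344.SP Pool.Agent.R344.TH

/-- the endpoints of the blocks with `3 g` odd terms among `4 g` -/
def Ends (d : ℤ) (g : ℕ) : Set ℤ := {y : ℤ | ∃ x : ℤ, 0 < x ∧ od d (4 * g) x = 3 * g ∧ (Tz d)^[4 * g] x = y}

/-- the hot set -/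
def Hot (d : ℤ) (c : ℝ) : Set ℤ := {y : ℤ | y % 2 = 1 ∧ ∃ g : ℕ, c * Real.log (Real.log y) ≤ g ∧
  (g : ℝ) ≤ c * Real.log (Real.log y) + 4 ∧ y ∈ Ends d g}

theorem lower3 {d : ℤ} (hd : d = 1 ∨ d = -1) (x : ℤ) : ∀ T : ℕ,
    3 ^ od d T x * x ≤ 2 ^ T * (Tz d)^[T] x + (3 ^ T - 2 ^ T)
  | 0 => by simp [od]
  | T + 1 => by
    have ih := lower3 hd x T
    have hd2 : d % 2 = 1 := by rcases hd with rfl | rfl <;> norm_num
    rw [Function.iterate_succ_apply', od_succ]
    set y : ℤ := (Tz d)^[T] x with hy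
    have h23 : (2 : ℤ) ^ T ≤ 3 ^ T := pow_le_pow_left₀ (by norm_num) (by norm_num) T
    have h2 : (0 : ℤ) < 2 ^ T := by positivity
    by_cases hp : y % 2 = 0
    · have e1 := Tz_even (d := d) hp
      have e2 : (2 : ℤ) ^ (T + 1) * Tz d y = 2 ^ T * y := by
        have : (2 : ℤ) ^ (T + 1) * Tz d y = 2 ^ T * (2 * Tz d y) := by ring
        rw [this, e1]
      have e3 : (y % 2).toNat = 0 := by rw [hp]; rfl
      rw [e2, e3, add_zero, pow_succ, pow_succ]
      linarith
    · have e1 := Tz_odd hd2 hp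
      have e2 : (2 : ℤ) ^ (T + 1) * Tz d y = 2 ^ T * (3 * y + d) := by
        have : (2 : ℤ) ^ (T + 1) * Tz d y = 2 ^ T * (2 * Tz d y) := by ring
        rw [this, e1]
      have e3 : (y % 2).toNat = 1 := by
        have : y % 2 = 1 := by omega
        rw [this]; rfl
      have e4 : -1 ≤ d := by rcases hd with rfl | rfl <;> norm_num
      have e5 : 2 ^ T * (-1) ≤ 2 ^ T * d := mul_le_mul_of_nonneg_left e4 h2.le
      rw [e2, e3, pow_succ, pow_succ, pow_succ]
      nlinarith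

open scoped Classical in
/-- the number of endpoints up to `X` -/
theorem ends_count {d : ℤ} (hd : d = 1 ∨ d = -1) (g : ℕ) {X : ℝ} (hX : 0 ≤ X) (F : Finset ℤ)
    (hF : ∀ y ∈ F, (y : ℝ) ≤ X ∧ y ∈ Ends d g) :
    (F.card : ℝ) ≤ X * (256 / 729) ^ g + 2 * (256 / 27) ^ g := by
  have hd2 : d % 2 = 1 := by rcases hd with rfl | rfl <;> norm_num
  set X' : ℝ := (16 / 27) ^ g * X + 3 ^ g with hX'
  have hX'0 : 0 ≤ X' := by rw [hX']; positivity
  set S : Finset ℤ := (Ioc 0 ⌊X'⌋).filter (fun x => od d (4 * g) x = 3 * g) with hS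
  -- `F` is covered by the images of `S`
  have h1 : F.card ≤ S.card := by
    have hsub : F ⊆ S.image (fun x => (Tz d)^[4 * g] x) := by
      intro y hy
      obtain ⟨hyX, x, hx0, hxo, hxy⟩ := hF y hy
      rw [mem_image]
      refine ⟨x, ?_, hxy⟩
      rw [hS, mem_filter, mem_Ioc, Int.le_floor]
      refine ⟨⟨hx0, ?_⟩, hxo⟩
      have h2 := lower3 hd x (4 * g)
      rw [hxo, hxy] at h2
      have h3 : (3 : ℤ) ^ (3 * g) * x ≤ 2 ^ (4 * g) * y + 3 ^ (4 * g) := by
        have : (0 : ℤ) < 2 ^ (4 * g) := by positivity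
        linarith
      have h4 : (3 : ℝ) ^ (3 * g) * x ≤ 2 ^ (4 * g) * y + 3 ^ (4 * g) := by exact_mod_cast h3
      rw [pow_mul, pow_mul, pow_mul] at h4
      norm_num at h4
      have h5 : (16 : ℝ) ^ g * y ≤ 16 ^ g * X := mul_le_mul_of_nonneg_left hyX (by positivity)
      have h6 : (27 : ℝ) ^ g * X' = 16 ^ g * X + 81 ^ g := by
        rw [hX', mul_add, ← mul_assoc, ← mul_pow, ← mul_pow]; norm_num
      have h7 : (27 : ℝ) ^ g * x ≤ 27 ^ g * X' := by rw [h6]; linarith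
      exact le_of_mul_le_mul_left h7 (by positivity)
    exact (card_le_card hsub).trans card_image_le
  -- classes
  set R : Finset ℕ := (range (2 ^ (4 * g))).filter (fun r : ℕ => od d (4 * g) (r : ℤ) = 3 * g) with hR
  have hq0 : (0 : ℤ) < 2 ^ (4 * g) := by positivity
  have h2 : S.card = ∑ r ∈ R, (S.filter (fun x => (x % 2 ^ (4 * g)).toNat = r)).card := by
    apply card_eq_sum_card_fiberwise
    intro x hx
    rw [mem_coe, hS, mem_filter] at hx
    rw [mem_coe, hR, mem_filter, mem_range]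
    have e1 := Int.emod_nonneg x hq0.ne'
    have e2 := Int.emod_lt_of_pos x hq0
    have e3 : (((x % 2 ^ (4 * g)).toNat : ℕ) : ℤ) = x % 2 ^ (4 * g) := Int.toNat_of_nonneg e1
    refine ⟨?_, ?_⟩
    · have : (((x % 2 ^ (4 * g)).toNat : ℕ) : ℤ) < ((2 ^ (4 * g) : ℕ) : ℤ) := by
        rw [e3]; push_cast; exact e2
      exact_mod_cast this
    · rw [e3]
      have e4 := od_periodic hd2 (4 * g) (x % 2 ^ (4 * g)) (x / 2 ^ (4 * g))
      have e5 : x % 2 ^ (4 * g) + x / 2 ^ (4 * g) * 2 ^ (4 * g) = x := by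
        have := Int.emod_add_mul_ediv x (2 ^ (4 * g))
        linarith
      rw [← e4, e5]
      exact hx.2
  have h3 : ∀ r ∈ R, ((S.filter (fun x => (x % 2 ^ (4 * g)).toNat = r)).card : ℝ) ≤ X / 27 ^ g + 2 := by
    intro r _
    have e0 := class_count (F := S.filter (fun x => (x % 2 ^ (4 * g)).toNat = r)) hX'0 (by
      intro y hy
      rw [mem_filter, hS, mem_filter, mem_Ioc, Int.le_floor] at hy
      exact ⟨hy.1.1.1.le, hy.1.1.2⟩) hq0 (by
      intro y hy y' hy'
      rw [mem_filter] at hy hy'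
      have e1 := Int.emod_nonneg y hq0.ne'
      have e2 := Int.emod_nonneg y' hq0.ne'
      have e3 : y % 2 ^ (4 * g) = y' % 2 ^ (4 * g) := by
        have g1 := hy.2
        have g2 := hy'.2
        have g3 : (((y % 2 ^ (4 * g)).toNat : ℕ) : ℤ) = (((y' % 2 ^ (4 * g)).toNat : ℕ) : ℤ) := by rw [g1, g2]
        rwa [Int.toNat_of_nonneg e1, Int.toNat_of_nonneg e2] at g3
      exact (Int.ModEq.symm (show y ≡ y' [ZMOD 2 ^ (4 * g)] from e3)).dvd)
    refine e0.trans ?_
    push_cast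
    have e1 : X' / 2 ^ (4 * g) = X / 27 ^ g + (3 / 16) ^ g := by
      rw [hX', pow_mul]
      norm_num
      rw [div_pow, div_pow]
      field_simp
    have e2 : ((3 : ℝ) / 16) ^ g ≤ 1 := pow_le_one₀ (by norm_num) (by norm_num)
    rw [e1]
    linarith
  have h4 : (R.card : ℝ) ≤ (256 / 27) ^ g := by
    have e1 := choose_le g hd2
    rw [← count_od hd2 (4 * g) (3 * g)] at e1
    have e2 : (27 : ℝ) ^ g * (R.card : ℝ) ≤ 256 ^ g := by exact_mod_cast e1
    rw [div_pow, le_div_iff₀ (by positivity)]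
    linarith
  have h5 : (S.card : ℝ) ≤ (R.card : ℝ) * (X / 27 ^ g + 2) := by
    rw [h2]
    push_cast
    refine (sum_le_sum h3).trans ?_
    rw [sum_const, nsmul_eq_mul]
  calc (F.card : ℝ) ≤ S.card := by exact_mod_cast h1
    _ ≤ (R.card : ℝ) * (X / 27 ^ g + 2) := h5
    _ ≤ (256 / 27) ^ g * (X / 27 ^ g + 2) := mul_le_mul_of_nonneg_right h4 (by positivity)
    _ = _ := by
        rw [div_pow, div_pow]
        have : (729 : ℝ) ^ g = 27 ^ g * 27 ^ g := by rw [← mul_pow]; norm_num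
        rw [this]
        field_simp

/-- the counting function of the hot set -/
theorem hot_count {d : ℤ} (hd : d = 1 ∨ d = -1) {c U : ℝ} (hc0 : 0 < c) (hc2 : c ≤ 2)
    (hU : U < c * Real.log (729 / 256)) : ∃ X₀ : ℝ, 1 < X₀ ∧ ∀ X : ℝ, X₀ ≤ X →
      ((fA (Hot d c) 1 X).card : ℝ) ≤ X / (Real.log X) ^ U := by
  classical
  set lam : ℝ := Real.log (729 / 256) with hlam
  have hlam0 : 0 < lam := Real.log_pos (by norm_num)
  have hlam2 : lam ≤ 2 := by
    rw [hlam]
    have := Real.log_le_sub_one_of_pos (show (0 : ℝ) < 729 / 256 by norm_num)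
    linarith
  set η : ℝ := (c * lam - U) / 2 with hη
  have hη0 : 0 < η := by rw [hη]; linarith
  set mu : ℝ := Real.log (256 / 27) with hmu
  have hmu0 : 0 < mu := Real.log_pos (by norm_num)
  -- the asymptotic inequality
  set C₀ : ℝ := c / η + 6 with hC₀
  have hC₀0 : 0 < C₀ := by rw [hC₀]; positivity
  have hev1 : ∀ᶠ L : ℝ in Filter.atTop, L ^ U * Real.exp (-(1 / 2) * L) ≤ 1 / 3 :=
    (tendsto_rpow_mul_exp_neg_mul_atTop_nhds_zero _ _ (by norm_num)).eventually_le_const (by norm_num)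
  have hev2 : ∀ᶠ L : ℝ in Filter.atTop, L ^ (-η) ≤ 1 / 3 / (C₀ * Real.exp 4) :=
    (tendsto_rpow_neg_atTop hη0).eventually_le_const (by positivity)
  have hev3 : ∀ᶠ L : ℝ in Filter.atTop, L ^ (U + η + mu * c) * Real.exp (-1 * L) ≤
      1 / 3 / (C₀ * (2 * Real.exp (mu * 4))) :=
    (tendsto_rpow_mul_exp_neg_mul_atTop_nhds_zero _ _ (by norm_num)).eventually_le_const (by positivity)
  obtain ⟨L₀, hL₀⟩ := Filter.eventually_atTop.1 (hev1.and (hev2.and (hev3.and (Filter.eventually_ge_atTop (4 : ℝ)))))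
  refine ⟨Real.exp (max L₀ 4), by
    have : (4 : ℝ) ≤ max L₀ 4 := le_max_right _ _
    have := Real.add_one_le_exp (max L₀ 4)
    linarith, ?_⟩
  intro X hX
  have hX0 : 0 < X := lt_of_lt_of_le (Real.exp_pos _) hX
  set L := Real.log X with hL
  have hLL : max L₀ 4 ≤ L := by
    rw [hL, Real.le_log_iff_exp_le hX0]; exact hX
  have hL4 : 4 ≤ L := (le_max_right _ _).trans hLL
  obtain ⟨g1, g2, g3, _⟩ := hL₀ L ((le_max_left _ _).trans hLL)
  have hL0 : 0 < L := by linarith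
  have hexpX : Real.exp L = X := Real.exp_log hX0
  set LL := Real.log L with hLLdef
  have hln2a := Real.log_two_gt_d9
  have hln2b := Real.log_two_lt_d9
  have hLL1 : 1.38 ≤ LL := by
    have : Real.log 4 ≤ LL := Real.log_le_log (by norm_num) hL4
    have h4 : Real.log 4 = 2 * Real.log 2 := by
      rw [show (4 : ℝ) = 2 ^ 2 by norm_num, Real.log_pow]; norm_num
    linarith
  have hexpLL : Real.exp LL = L := Real.exp_log hL0
  obtain ⟨G, hG⟩ : ∃ G : ℕ, G = ⌊c * LL + 4⌋₊ := ⟨_, rfl⟩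
  have hGle : (G : ℝ) ≤ c * LL + 4 := by rw [hG]; exact Nat.floor_le (by positivity)
  -- the cover
  set F : ℕ → Finset ℤ := fun g => if c * (LL - 0.7) ≤ (g : ℝ) then fA (Ends d g) 1 X else ∅ with hF
  have hcov : fA (Hot d c) 1 X ⊆ Ioc 0 ⌊Real.exp (L / 2)⌋ ∪ (range (G + 1)).biUnion F := by
    intro y hy
    rw [mem_fA] at hy
    obtain ⟨⟨hy1, hyX⟩, hyo, g, hg1, hg2, hyE⟩ := hy
    have hy0 : 0 < y := by
      have : (0 : ℝ) < y := by linarith
      exact_mod_cast this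
    have hyR : (0 : ℝ) < y := by exact_mod_cast hy0
    rw [mem_union, mem_Ioc, mem_biUnion, Int.le_floor]
    rcases le_or_gt (y : ℝ) (Real.exp (L / 2)) with h1 | h1
    · left; exact ⟨hy0, h1⟩
    · right
      have e1 : L / 2 < Real.log y := by rw [Real.lt_log_iff_exp_lt hyR]; exact h1
      have e2 : Real.log y ≤ L := Real.log_le_log hyR hyX
      have e3 : LL - Real.log 2 ≤ Real.log (Real.log y) := by
        rw [hLLdef, ← Real.log_div hL0.ne' (by norm_num)]
        exact Real.log_le_log (by positivity) e1.le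
      have e4 : Real.log (Real.log y) ≤ LL := Real.log_le_log (by linarith) e2
      refine ⟨g, ?_, ?_⟩
      · rw [mem_range, hG]
        have : (g : ℝ) ≤ c * LL + 4 := by
          have := mul_le_mul_of_nonneg_left e4 hc0.le
          linarith
        have := Nat.le_floor this
        omega
      · rw [hF]
        simp only
        rw [if_pos (by
          have := mul_le_mul_of_nonneg_left (show LL - 0.7 ≤ Real.log (Real.log y) by linarith) hc0.le
          linarith), mem_fA]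
        exact ⟨⟨hy1, hyX⟩, hyE⟩
  have hFb : ∀ g ∈ range (G + 1), ((F g).card : ℝ) ≤
      X * (Real.exp 4 * L ^ (-(c * lam))) + 2 * Real.exp (mu * 4) * L ^ (mu * c) := by
    intro g hg
    rw [mem_range] at hg
    have hgG : (g : ℝ) ≤ G := by exact_mod_cast (by omega : g ≤ G)
    rw [hF]
    simp only
    split_ifs with hcg
    · refine (ends_count hd g hX0.le _ (by
        intro y hy
        rw [mem_fA] at hy
        exact ⟨hy.1.2, hy.2⟩)).trans ?_
      have e1 : ((256 : ℝ) / 729) ^ g ≤ Real.exp 4 * L ^ (-(c * lam)) := by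
        have e2 : ((256 : ℝ) / 729) ^ g = Real.exp (-(g * lam)) := by
          rw [hlam, show (256 : ℝ) / 729 = (729 / 256)⁻¹ by norm_num, inv_pow, Real.exp_neg,
            Real.exp_nat_mul, Real.exp_log (by norm_num)]
        have e3 : L ^ (-(c * lam)) = Real.exp (-(c * lam) * LL) := by
          rw [Real.rpow_def_of_pos hL0, mul_comm]
        rw [e2, e3, ← Real.exp_add]
        apply Real.exp_le_exp.2
        have e4 : c * (LL - 0.7) * lam ≤ g * lam := mul_le_mul_of_nonneg_right hcg hlam0.le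
        have e5 : c * lam ≤ 2 * 2 := mul_le_mul hc2 hlam2 hlam0.le (by norm_num)
        nlinarith
      have e6 : ((256 : ℝ) / 27) ^ g ≤ Real.exp (mu * 4) * L ^ (mu * c) := by
        have e2 : ((256 : ℝ) / 27) ^ g = Real.exp (g * mu) := by
          rw [hmu, Real.exp_nat_mul, Real.exp_log (by norm_num)]
        have e3 : L ^ (mu * c) = Real.exp (mu * c * LL) := by
          rw [Real.rpow_def_of_pos hL0, mul_comm]
        rw [e2, e3, ← Real.exp_add]
        apply Real.exp_le_exp.2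
        have e4 : (g : ℝ) * mu ≤ (c * LL + 4) * mu := mul_le_mul_of_nonneg_right (hgG.trans hGle) hmu0.le
        linarith
      have e7 : X * ((256 : ℝ) / 729) ^ g ≤ X * (Real.exp 4 * L ^ (-(c * lam))) :=
        mul_le_mul_of_nonneg_left e1 hX0.le
      linarith
    · rw [card_empty, Nat.cast_zero]
      positivity
  have hcard : ((fA (Hot d c) 1 X).card : ℝ) ≤ Real.exp (L / 2) +
      ((G : ℝ) + 1) * (X * (Real.exp 4 * L ^ (-(c * lam))) + 2 * Real.exp (mu * 4) * L ^ (mu * c)) := by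
    have h1 := (card_le_card hcov).trans (card_union_le _ _)
    have h2 : ((range (G + 1)).biUnion F).card ≤ ∑ g ∈ range (G + 1), (F g).card := card_biUnion_le
    have h3 : ((Ioc 0 ⌊Real.exp (L / 2)⌋).card : ℝ) ≤ Real.exp (L / 2) := by
      rw [Int.card_Ioc, sub_zero]
      have e1 : (0 : ℤ) ≤ ⌊Real.exp (L / 2)⌋ := Int.floor_nonneg.2 (Real.exp_pos _).le
      have e2 : ((⌊Real.exp (L / 2)⌋.toNat : ℕ) : ℤ) = ⌊Real.exp (L / 2)⌋ := Int.toNat_of_nonneg e1
      have e3 : ((⌊Real.exp (L / 2)⌋.toNat : ℕ) : ℝ) = ((⌊Real.exp (L / 2)⌋ : ℤ) : ℝ) := by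
        exact_mod_cast e2
      rw [e3]
      exact Int.floor_le _
    have h4 : ((fA (Hot d c) 1 X).card : ℝ) ≤ ((Ioc 0 ⌊Real.exp (L / 2)⌋).card : ℝ) +
        ∑ g ∈ range (G + 1), ((F g).card : ℝ) := by
      exact_mod_cast h1.trans (Nat.add_le_add_left h2 _)
    have h5 := sum_le_sum hFb
    rw [sum_const, nsmul_eq_mul, card_range] at h5
    push_cast at h5
    linarith
  refine hcard.trans ?_
  rw [le_div_iff₀ (by positivity)]
  -- `G + 1 ≤ C₀ L^η`
  have hG1 : (G : ℝ) + 1 ≤ C₀ * L ^ η := by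
    have e1 : LL ≤ L ^ η / η := Real.log_le_rpow_div hL0.le hη0
    have e2 : 1 ≤ L ^ η := Real.one_le_rpow (by linarith) hη0.le
    have e3 : c * LL ≤ c * (L ^ η / η) := mul_le_mul_of_nonneg_left e1 hc0.le
    have e4 : c * (L ^ η / η) = c / η * L ^ η := by ring
    rw [hC₀, add_mul]
    linarith
  have hLU : 0 < L ^ U := by positivity
  have t1 : Real.exp (L / 2) * L ^ U ≤ 1 / 3 * X := by
    have e1 : Real.exp (L / 2) = Real.exp (-(1 / 2) * L) * X := by
      rw [← hexpX, ← Real.exp_add]; congr 1; ring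
    calc Real.exp (L / 2) * L ^ U = (L ^ U * Real.exp (-(1 / 2) * L)) * X := by rw [e1]; ring
      _ ≤ 1 / 3 * X := mul_le_mul_of_nonneg_right g1 hX0.le
  have t2 : C₀ * L ^ η * (X * (Real.exp 4 * L ^ (-(c * lam)))) * L ^ U ≤ 1 / 3 * X := by
    have e1 : L ^ η * L ^ (-(c * lam)) * L ^ U = L ^ (-η) := by
      rw [← Real.rpow_add hL0, ← Real.rpow_add hL0]; congr 1; rw [hη]; ring
    have e2 : L ^ (-η) * (C₀ * Real.exp 4) ≤ 1 / 3 := by
      rwa [le_div_iff₀ (by positivity)] at g2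
    calc C₀ * L ^ η * (X * (Real.exp 4 * L ^ (-(c * lam)))) * L ^ U
        = (L ^ η * L ^ (-(c * lam)) * L ^ U) * (C₀ * Real.exp 4) * X := by ring
      _ = L ^ (-η) * (C₀ * Real.exp 4) * X := by rw [e1]
      _ ≤ 1 / 3 * X := mul_le_mul_of_nonneg_right e2 hX0.le
  have t3 : C₀ * L ^ η * (2 * Real.exp (mu * 4) * L ^ (mu * c)) * L ^ U ≤ 1 / 3 * X := by
    have e1 : L ^ η * L ^ (mu * c) * L ^ U = L ^ (U + η + mu * c) := by
      rw [← Real.rpow_add hL0, ← Real.rpow_add hL0]; congr 1; ring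
    have e2 : L ^ (U + η + mu * c) * Real.exp (-1 * L) * (C₀ * (2 * Real.exp (mu * 4))) ≤ 1 / 3 := by
      rwa [le_div_iff₀ (by positivity)] at g3
    have e3 : (1 : ℝ) = Real.exp (-1 * L) * X := by
      rw [← hexpX, ← Real.exp_add, show -1 * L + L = 0 by ring, Real.exp_zero]
    calc C₀ * L ^ η * (2 * Real.exp (mu * 4) * L ^ (mu * c)) * L ^ U
        = (L ^ η * L ^ (mu * c) * L ^ U) * (C₀ * (2 * Real.exp (mu * 4))) * 1 := by ring
      _ = (L ^ (U + η + mu * c) * Real.exp (-1 * L) * (C₀ * (2 * Real.exp (mu * 4)))) * X := by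
          rw [e1]; nth_rewrite 1 [e3]; ring
      _ ≤ 1 / 3 * X := mul_le_mul_of_nonneg_right e2 hX0.le
  have hbr : 0 ≤ X * (Real.exp 4 * L ^ (-(c * lam))) + 2 * Real.exp (mu * 4) * L ^ (mu * c) := by positivity
  have h6 : ((G : ℝ) + 1) * (X * (Real.exp 4 * L ^ (-(c * lam))) + 2 * Real.exp (mu * 4) * L ^ (mu * c)) * L ^ U
      ≤ C₀ * L ^ η * (X * (Real.exp 4 * L ^ (-(c * lam))) + 2 * Real.exp (mu * 4) * L ^ (mu * c)) * L ^ U :=
    mul_le_mul_of_nonneg_right (mul_le_mul_of_nonneg_right hG1 hbr) hLU.le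
  rw [add_mul]
  rw [mul_add (C₀ * L ^ η), add_mul] at h6
  linarith

end Pool.Agent.H48T
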