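import Pool.Agent.Y966.SY.Fin
import Pool.Agent.H48T.En2

/-! The square mean of the law of the Syracuse iterates modulo powers of three. -/

set_option autoImplicit false

namespace Pool.Agent.H48T

open Finset Filter Topology
open Pool.Agent.H320R2.PD
open Pool.Agent.H377R2.NK (VW Wp Wp_three)
open Pool.Agent.Y966.NQ (DD zw th)
open Pool.Agent.Y966.SY (D D_tendsto)

/-- words of size `T` valid at `x` -/
theorem valid_iff {n T x : ℕ} {w : List ℕ} (hs : w.sum = T) :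
    ((3 : ℕ) : ℤ) ^ n ∣ 2 ^ w.sum * (x : ℤ) - Wp 3 w ↔ Wo w % 3 ^ n = 2 ^ T * x % 3 ^ n := by
  rw [Wp_three, hs]
  have h1 : ((3 : ℕ) : ℤ) ^ n ∣ 2 ^ T * (x : ℤ) - (Wo w : ℤ) ↔
      ((Wo w : ℕ) : ℤ) ≡ ((2 ^ T * x : ℕ) : ℤ) [ZMOD ((3 ^ n : ℕ) : ℤ)] := by
    rw [Int.modEq_iff_dvd]
    push_cast
    rfl
  rw [h1, Int.natCast_modEq_iff]
  rfl

theorem sum_sq_T (A n T : ℕ) :
    ∑ x ∈ range (3 ^ n), (nr (FWT A n T) n (2 ^ T * x % 3 ^ n)) ^ 2 ≤ En (FWT A n T) n := by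
  rw [En_eq]
  have hinj : Set.InjOn (fun x : ℕ => 2 ^ T * x % 3 ^ n) (range (3 ^ n) : Set ℕ) := by
    intro x hx y hy h
    rw [coe_range, Set.mem_Iio] at hx hy
    have h1 : 2 ^ T * x ≡ 2 ^ T * y [MOD 3 ^ n] := h
    have h2 : x ≡ y [MOD 3 ^ n] := by
      apply Nat.ModEq.cancel_left_of_coprime _ h1
      apply Nat.Coprime.pow
      norm_num
    exact Nat.ModEq.eq_of_lt_of_lt h2 hx hy
  rw [← sum_image (f := fun r => nr (FWT A n T) n r ^ 2) hinj]
  apply sum_le_sum_of_subset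
  intro r hr
  rw [mem_image] at hr
  obtain ⟨x, _, rfl⟩ := hr
  rw [mem_range]
  exact Nat.mod_lt _ (by positivity)

/-- mass of the words valid at `x` -/
noncomputable def PX (A n : ℕ) (x : ℕ) : ℝ := ∑ w ∈ VW 3 A n (x : ℤ), wwt w

theorem DD_eq (A n x : ℕ) : DD 3 (1 / 2) A n (x : ℤ) = 3 ^ n * PX A n x := by
  unfold DD PX
  rw [mul_sum]
  refine sum_congr rfl fun w hw => ?_
  unfold VW at hw
  rw [mem_filter, mem_FW] at hw
  unfold zw th wwt
  rw [hw.1.1]
  norm_num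

theorem sq_mean (A : ℕ) {n : ℕ} (hn : 1 ≤ n) :
    ∑ x ∈ range (3 ^ n), PX A n x ^ 2 ≤ 10002 * n ^ 6 / 3 ^ n := by
  classical
  have hnR : (1 : ℝ) ≤ n := by exact_mod_cast hn
  -- splitting at size `10 n`
  set P1 : ℕ → ℝ := fun x => ∑ T ∈ range (10 * n), (1 / 2) ^ T * (nr (FWT A n T) n (2 ^ T * x % 3 ^ n) : ℝ) with hP1
  set P2 : ℕ → ℝ := fun x => ∑ w ∈ (VW 3 A n (x : ℤ)).filter (fun w => 10 * n ≤ w.sum), wwt w with hP2
  have hsplit : ∀ x, PX A n x = P1 x + P2 x := by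
    intro x
    unfold PX
    rw [← sum_filter_add_sum_filter_not (VW 3 A n (x : ℤ)) (fun w => w.sum < 10 * n)]
    congr 1
    · rw [hP1]
      simp only
      have h1 : ∀ T ∈ range (10 * n), (1 / 2 : ℝ) ^ T * (nr (FWT A n T) n (2 ^ T * x % 3 ^ n) : ℝ) =
          ∑ w ∈ ((VW 3 A n (x : ℤ)).filter (fun w => w.sum < 10 * n)).filter (fun w => w.sum = T), wwt w := by
        intro T hT
        rw [mem_range] at hT
        have h2 : ((VW 3 A n (x : ℤ)).filter (fun w => w.sum < 10 * n)).filter (fun w => w.sum = T) =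
            (FWT A n T).filter (fun w => Wo w % 3 ^ n = 2 ^ T * x % 3 ^ n) := by
          ext w
          unfold VW FWT
          simp only [mem_filter]
          constructor
          · rintro ⟨⟨⟨a1, a2⟩, a3⟩, a4⟩
            exact ⟨⟨a1, a4⟩, (valid_iff a4).1 a2⟩
          · rintro ⟨⟨a1, a4⟩, a2⟩
            exact ⟨⟨⟨a1, (valid_iff a4).2 a2⟩, by omega⟩, a4⟩
        rw [h2]
        unfold nr
        rw [card_eq_sum_ones]
        push_cast
        rw [mul_sum]
        refine sum_congr rfl fun w hw => ?_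
        unfold FWT at hw
        rw [mem_filter, mem_filter] at hw
        unfold wwt
        rw [hw.1.2, mul_one]
      rw [sum_congr rfl h1]
      symm
      apply sum_fiberwise_of_maps_to
      intro w hw
      rw [mem_filter] at hw
      exact mem_range.2 hw.2
    · rw [hP2]
      simp only [not_lt]
  have hP1nn : ∀ x, 0 ≤ P1 x := fun x => by
    rw [hP1]; exact sum_nonneg fun T _ => by positivity
  have hP2nn : ∀ x, 0 ≤ P2 x := fun x => by
    rw [hP2]; exact sum_nonneg fun w _ => by unfold wwt; positivity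
  -- the main part
  have hA1 : ∑ x ∈ range (3 ^ n), P1 x ^ 2 ≤ 5000 * n ^ 6 / 3 ^ n := by
    have h1 : ∀ x ∈ range (3 ^ n), P1 x ^ 2 ≤ (10 * n) * ∑ T ∈ range (10 * n),
        (1 / 4) ^ T * (nr (FWT A n T) n (2 ^ T * x % 3 ^ n) : ℝ) ^ 2 := by
      intro x _
      rw [hP1]
      simp only
      have h2 := sq_sum_le_card_mul_sum_sq (s := range (10 * n))
        (f := fun T => (1 / 2 : ℝ) ^ T * (nr (FWT A n T) n (2 ^ T * x % 3 ^ n) : ℝ))
      rw [card_range] at h2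
      push_cast at h2
      refine h2.trans (le_of_eq ?_)
      congr 1
      refine sum_congr rfl fun T _ => ?_
      rw [mul_pow, ← pow_mul, mul_comm T 2, pow_mul]
      norm_num
    refine (sum_le_sum h1).trans ?_
    rw [← mul_sum, sum_comm]
    have h3 : ∀ T ∈ range (10 * n), ∑ x ∈ range (3 ^ n), (1 / 4 : ℝ) ^ T *
        (nr (FWT A n T) n (2 ^ T * x % 3 ^ n) : ℝ) ^ 2 ≤ 50 * n ^ 4 / 3 ^ n := by
      intro T hT
      rw [mem_range] at hT
      rw [← mul_sum]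
      have h4 : ∑ x ∈ range (3 ^ n), (nr (FWT A n T) n (2 ^ T * x % 3 ^ n) : ℝ) ^ 2 ≤
          (En (FWT A n T) n : ℝ) := by exact_mod_cast sum_sq_T A n T
      have h5 := En_le (A := A) (k := n) (T := T) (n := n) hn le_rfl (Or.inl rfl)
      rw [le_div_iff₀ (by positivity)]
      have hTR : (T : ℝ) + 1 ≤ 10 * n := by exact_mod_cast hT
      calc ((1 / 4 : ℝ) ^ T * ∑ x ∈ range (3 ^ n), (nr (FWT A n T) n (2 ^ T * x % 3 ^ n) : ℝ) ^ 2) * 3 ^ n
          ≤ ((1 / 4 : ℝ) ^ T * (En (FWT A n T) n : ℝ)) * 3 ^ n := by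
            apply mul_le_mul_of_nonneg_right _ (by positivity)
            exact mul_le_mul_of_nonneg_left h4 (by positivity)
        _ = (1 / 4 : ℝ) ^ T * (3 ^ n * (En (FWT A n T) n : ℝ)) := by ring
        _ ≤ (1 / 4 : ℝ) ^ T * (5 * n ^ 3 * (T + 1) * 4 ^ T) := mul_le_mul_of_nonneg_left h5 (by positivity)
        _ = 5 * n ^ 3 * (T + 1) := by rw [one_div, inv_pow]; field_simp
        _ ≤ 5 * n ^ 3 * (10 * n) := mul_le_mul_of_nonneg_left hTR (by positivity)
        _ = 50 * n ^ 4 := by ring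
    have h6 := sum_le_sum h3
    rw [sum_const, nsmul_eq_mul, card_range] at h6
    push_cast at h6
    calc (10 * (n : ℝ)) * ∑ T ∈ range (10 * n), ∑ x ∈ range (3 ^ n), (1 / 4 : ℝ) ^ T *
        (nr (FWT A n T) n (2 ^ T * x % 3 ^ n) : ℝ) ^ 2
        ≤ (10 * (n : ℝ)) * (10 * n * (50 * n ^ 4 / 3 ^ n)) := mul_le_mul_of_nonneg_left h6 (by positivity)
      _ = _ := by ring
  -- the tail
  have hA2 : ∑ x ∈ range (3 ^ n), P2 x ≤ (1 / 9) ^ n := by
    have h1 : ∑ x ∈ range (3 ^ n), P2 x ≤ ∑ w ∈ (FW A n).filter (fun w => 10 * n ≤ w.sum), wwt w := by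
      rw [hP2]
      simp only
      have h2 : ∀ x : ℕ, ∑ w ∈ (VW 3 A n (x : ℤ)).filter (fun w => 10 * n ≤ w.sum), wwt w =
          ∑ w ∈ (FW A n).filter (fun w => 10 * n ≤ w.sum),
            if ((3 : ℕ) : ℤ) ^ n ∣ 2 ^ w.sum * (x : ℤ) - Wp 3 w then wwt w else 0 := by
        intro x
        unfold VW
        rw [filter_comm, sum_filter]
      simp only [h2]
      rw [sum_comm]
      apply sum_le_sum
      intro w _
      rw [← sum_filter, sum_const, nsmul_eq_mul]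
      have h3 : ((range (3 ^ n)).filter (fun x : ℕ => ((3 : ℕ) : ℤ) ^ n ∣ 2 ^ w.sum * (x : ℤ) - Wp 3 w)).card ≤ 1 := by
        rw [card_le_one]
        intro x hx y hy
        rw [mem_filter, mem_range] at hx hy
        have e1 := (valid_iff rfl).1 hx.2
        have e2 := (valid_iff rfl).1 hy.2
        rw [e1] at e2
        have h4 : x ≡ y [MOD 3 ^ n] := by
          apply Nat.ModEq.cancel_left_of_coprime _ e2
          apply Nat.Coprime.pow
          norm_num
        exact Nat.ModEq.eq_of_lt_of_lt h4 hx.1 hy.1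
      have h5 : (((range (3 ^ n)).filter (fun x : ℕ => ((3 : ℕ) : ℤ) ^ n ∣ 2 ^ w.sum * (x : ℤ) - Wp 3 w)).card : ℝ) ≤ 1 := by
        exact_mod_cast h3
      have h6 : 0 ≤ wwt w := by unfold wwt; positivity
      nlinarith
    refine h1.trans ?_
    have h2 := gen_le A n (θ := 3 / 2) (by norm_num) (by norm_num)
    have h3 : (3 / 2 : ℝ) / (2 - 3 / 2) = 3 := by norm_num
    rw [h3] at h2
    have h4 : ∑ w ∈ (FW A n).filter (fun w => 10 * n ≤ w.sum), wwt w * (3 / 2 : ℝ) ^ (10 * n) ≤ 3 ^ n := by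
      refine le_trans ?_ h2
      calc ∑ w ∈ (FW A n).filter (fun w => 10 * n ≤ w.sum), wwt w * (3 / 2 : ℝ) ^ (10 * n)
          ≤ ∑ w ∈ (FW A n).filter (fun w => 10 * n ≤ w.sum), wwt w * (3 / 2 : ℝ) ^ w.sum := by
            apply sum_le_sum
            intro w hw
            rw [mem_filter] at hw
            apply mul_le_mul_of_nonneg_left _ (by unfold wwt; positivity)
            exact pow_le_pow_right₀ (by norm_num) hw.2
        _ ≤ _ := sum_le_sum_of_subset_of_nonneg (filter_subset _ _) fun w _ _ => by unfold wwt; positivity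
    rw [← sum_mul] at h4
    have h5 : (3 : ℝ) ^ n ≤ (1 / 9) ^ n * (3 / 2 : ℝ) ^ (10 * n) := by
      rw [pow_mul, ← mul_pow]
      apply pow_le_pow_left₀ (by norm_num)
      norm_num
    exact le_of_mul_le_mul_right (h4.trans h5) (by positivity)
  have hA3 : ∑ x ∈ range (3 ^ n), P2 x ^ 2 ≤ 1 / 3 ^ n := by
    have h1 : ∀ x ∈ range (3 ^ n), P2 x ^ 2 ≤ 1 * P2 x := by
      intro x hx
      have h2 : P2 x ≤ 1 := by
        have h3 := single_le_sum (fun x _ => hP2nn x) hx (f := P2)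
        have h4 : ((1 : ℝ) / 9) ^ n ≤ 1 := pow_le_one₀ (by norm_num) (by norm_num)
        linarith
      rw [sq]
      exact mul_le_mul_of_nonneg_right h2 (hP2nn x)
    refine (sum_le_sum h1).trans ?_
    simp only [one_mul]
    refine hA2.trans ?_
    rw [one_div, one_div, inv_pow]
    apply inv_anti₀ (by positivity)
    exact pow_le_pow_left₀ (by norm_num) (by norm_num) n
  have h1 : ∀ x ∈ range (3 ^ n), PX A n x ^ 2 ≤ 2 * (P1 x ^ 2 + P2 x ^ 2) := by
    intro x _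
    rw [hsplit x]
    nlinarith [sq_nonneg (P1 x - P2 x)]
  refine (sum_le_sum h1).trans ?_
  rw [← mul_sum, sum_add_distrib]
  have h2 : (1 : ℝ) / 3 ^ n ≤ n ^ 6 / 3 ^ n := by
    apply div_le_div_of_nonneg_right _ (by positivity)
    exact one_le_pow₀ hnR
  have h3 : (10002 : ℝ) * n ^ 6 / 3 ^ n = 2 * (5000 * n ^ 6 / 3 ^ n + n ^ 6 / 3 ^ n) := by ring
  rw [h3]
  linarith

/-- **the square mean of the law modulo `3 ^ n`** -/
theorem dens_sq {n : ℕ} (hn : 1 ≤ n) : ∑ x ∈ range (3 ^ n), Pool.Agent.Y966.SY.dens n x ^ 2 ≤ 10002 * n ^ 6 / 3 ^ n := by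
  have h1 : Tendsto (fun A : ℕ => ∑ x ∈ range (3 ^ n), (DD 3 (1 / 2) A n (x : ℤ) / 3 ^ n) ^ 2) atTop
      (𝓝 (∑ x ∈ range (3 ^ n), Pool.Agent.Y966.SY.dens n x ^ 2)) := by
    apply tendsto_finsetSum
    intro x _
    unfold Pool.Agent.Y966.SY.dens
    exact ((D_tendsto n x).div_const _).pow 2
  refine le_of_tendsto h1 (Eventually.of_forall fun A => ?_)
  refine le_trans (le_of_eq ?_) (sq_mean A hn)
  refine sum_congr rfl fun x _ => ?_
  rw [DD_eq]
  congr 1
  field_simp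

end Pool.Agent.H48T
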