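import Pool.Agent.H48T.Hot

/-! Almost all trajectories meet the hot set. -/

set_option autoImplicit false

namespace Pool.Agent.H48T

open Finset
open Pool.Agent.H499R2.CO (Tz)
open Pool.Agent.R344.SP Pool.Agent.R344.TH

/-- a good block starts at `x` -/
def good (d : ℤ) (g : ℕ) (x : ℤ) : Prop := od d (4 * g) x = 3 * g ∧ (Tz d)^[4 * g] x % 2 = 1

instance (d : ℤ) (g : ℕ) (x : ℤ) : Decidable (good d g x) := by unfold good; infer_instance

/-- indicator of no good block at `x` -/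
def bad (d : ℤ) (g : ℕ) (x : ℤ) : ℝ := if good d g x then 0 else 1

/-- indicator of no good block at `x, T^s x, ...` (`j` times), `s = 4 g + 1` -/
def Bd (d : ℤ) (g : ℕ) : ℕ → ℤ → ℝ
  | 0, _ => 1
  | j + 1, x => bad d g x * Bd d g j ((Tz d)^[4 * g + 1] x)

theorem bad_nonneg (d : ℤ) (g : ℕ) (x : ℤ) : 0 ≤ bad d g x := by unfold bad; split_ifs <;> norm_num

theorem Bd_nonneg (d : ℤ) (g : ℕ) : ∀ (j : ℕ) (x : ℤ), 0 ≤ Bd d g j x
  | 0, _ => by unfold Bd; norm_num
  | j + 1, x => by unfold Bd; exact mul_nonneg (bad_nonneg _ _ _) (Bd_nonneg d g j _)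

theorem bad_periodic {d : ℤ} (hd : d % 2 = 1) (g : ℕ) (x m : ℤ) :
    bad d g (x + m * 2 ^ (4 * g + 1)) = bad d g x := by
  have e0 : m * (2 : ℤ) ^ (4 * g + 1) = (2 * m) * 2 ^ (4 * g) := by rw [pow_succ]; ring
  have h1 : od d (4 * g) (x + m * 2 ^ (4 * g + 1)) = od d (4 * g) x := by
    rw [e0]; exact od_periodic hd _ _ _
  have h2 : (Tz d)^[4 * g] (x + m * 2 ^ (4 * g + 1)) % 2 = (Tz d)^[4 * g] x % 2 := by
    rw [e0, iter_add hd]
    have : (3 : ℤ) ^ od d (4 * g) x * (2 * m) = 2 * (3 ^ od d (4 * g) x * m) := by ring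
    rw [this]
    omega
  have hiff : good d g (x + m * 2 ^ (4 * g + 1)) ↔ good d g x := by
    unfold good; rw [h1, h2]
  unfold bad
  by_cases h : good d g x
  · rw [if_pos h, if_pos (hiff.2 h)]
  · rw [if_neg h, if_neg (fun h' => h (hiff.1 h'))]

theorem Bd_periodic {d : ℤ} (hd : d % 2 = 1) (g : ℕ) : ∀ (j : ℕ) (x m : ℤ),
    Bd d g j (x + m * 2 ^ ((4 * g + 1) * j)) = Bd d g j x
  | 0, x, m => by unfold Bd; rfl
  | j + 1, x, m => by
    have e0 : m * (2 : ℤ) ^ ((4 * g + 1) * (j + 1)) = (m * 2 ^ ((4 * g + 1) * j)) * 2 ^ (4 * g + 1) := by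
      rw [mul_add, mul_one, pow_add]; ring
    unfold Bd
    rw [e0, bad_periodic hd, iter_add hd]
    congr 1
    have e1 : (3 : ℤ) ^ od d (4 * g + 1) x * (m * 2 ^ ((4 * g + 1) * j)) =
      (3 ^ od d (4 * g + 1) x * m) * 2 ^ ((4 * g + 1) * j) := by ring
    rw [e1]
    exact Bd_periodic hd g j _ _

theorem sum_bad {d : ℤ} (hd : d % 2 = 1) (g : ℕ) :
    ∑ r ∈ range (2 ^ (4 * g + 1)), bad d g (r : ℤ) = 2 ^ (4 * g + 1) - (4 * g).choose (3 * g) := by
  set f : ℤ → ℝ := fun x => if od d (4 * g) x = 3 * g then 1 else 0 with hf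
  set h : ℤ → ℝ := fun x => if x % 2 = 1 then 1 else 0 with hh
  have h1 := sum_prod hd (4 * g) 1 (f := f) (g := h) (by
    intro x m
    rw [hf]
    simp only
    rw [od_periodic hd]) (by
    intro x m
    rw [hh]
    simp only
    have : (x + m * 2 ^ 1) % 2 = x % 2 := by omega
    rw [this])
  have h2 : ∑ r ∈ range (2 ^ 1), h (r : ℤ) = 1 := by
    rw [hh, show (2 : ℕ) ^ 1 = 1 + 1 by norm_num, sum_range_succ, sum_range_one]
    simp
  have h3 : ∑ r ∈ range (2 ^ (4 * g)), f (r : ℤ) = (4 * g).choose (3 * g) := by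
    rw [← count_od hd (4 * g) (3 * g), card_filter]
    push_cast
    rfl
  rw [h2, h3, mul_one] at h1
  have h4 : ∀ r ∈ range (2 ^ (4 * g + 1)), bad d g (r : ℤ) = 1 - f (r : ℤ) * h ((Tz d)^[4 * g] (r : ℤ)) := by
    intro r _
    unfold bad good
    rw [hf, hh]
    by_cases a1 : od d (4 * g) (r : ℤ) = 3 * g <;> by_cases a2 : (Tz d)^[4 * g] (r : ℤ) % 2 = 1 <;>
      simp [a1, a2]
  rw [sum_congr rfl h4, sum_sub_distrib, h1, sum_const, nsmul_eq_mul, card_range, mul_one]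
  push_cast
  ring

theorem sum_Bd {d : ℤ} (hd : d % 2 = 1) (g : ℕ) : ∀ j : ℕ,
    ∑ r ∈ range (2 ^ ((4 * g + 1) * j)), Bd d g j (r : ℤ) =
      ((2 : ℝ) ^ (4 * g + 1) - (4 * g).choose (3 * g)) ^ j
  | 0 => by simp [Bd]
  | j + 1 => by
    have h1 := sum_prod hd (4 * g + 1) ((4 * g + 1) * j) (f := bad d g) (g := Bd d g j)
      (bad_periodic hd g) (Bd_periodic hd g j)
    rw [sum_bad hd, sum_Bd hd g j] at h1
    have e0 : (4 * g + 1) * (j + 1) = 4 * g + 1 + (4 * g + 1) * j := by ring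
    rw [e0]
    unfold Bd
    rw [h1, pow_succ]
    ring

theorem Bd_eq_one {d : ℤ} {g : ℕ} : ∀ (j : ℕ) (x : ℤ),
    (∀ i < j, ¬ good d g ((Tz d)^[(4 * g + 1) * i] x)) → Bd d g j x = 1
  | 0, _, _ => rfl
  | j + 1, x, h => by
    unfold Bd
    have h1 := h 0 (by omega)
    rw [mul_zero, Function.iterate_zero, id] at h1
    have h2 : Bd d g j ((Tz d)^[4 * g + 1] x) = 1 := by
      apply Bd_eq_one j
      intro i hi
      have := h (i + 1) (by omega)
      rwa [mul_add, mul_one, Function.iterate_add_apply] at this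
    rw [h2, mul_one]
    unfold bad
    rw [if_neg h1]

open scoped Classical in
/-- starting points without a good block -/
theorem no_good {d : ℤ} (hd : d % 2 = 1) (g j : ℕ) {A : ℝ} (hA : 0 ≤ A) (h2 : (2 : ℝ) ^ ((4 * g + 1) * j) ≤ A) :
    (((Wn A).filter (fun n => ∀ i < j, ¬ good d g ((Tz d)^[(4 * g + 1) * i] n))).card : ℝ) ≤
      2 * A * Real.exp (-(j * (((4 * g).choose (3 * g) : ℝ) / 2 ^ (4 * g + 1)))) := by
  have h3 := sum_window_le (g := Bd d g j) (Bd_nonneg d g j) ((4 * g + 1) * j) (Bd_periodic hd g j) hA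
  rw [sum_Bd hd] at h3
  have h4 : (((Wn A).filter (fun n => ∀ i < j, ¬ good d g ((Tz d)^[(4 * g + 1) * i] n))).card : ℝ) ≤
      ∑ n ∈ Wn A, Bd d g j n := by
    calc (((Wn A).filter (fun n => ∀ i < j, ¬ good d g ((Tz d)^[(4 * g + 1) * i] n))).card : ℝ)
        = ∑ n ∈ (Wn A).filter (fun n => ∀ i < j, ¬ good d g ((Tz d)^[(4 * g + 1) * i] n)), Bd d g j n := by
          rw [card_eq_sum_ones]
          push_cast
          refine sum_congr rfl fun n hn => ?_
          rw [mem_filter] at hn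
          exact (Bd_eq_one j n hn.2).symm
      _ ≤ _ := sum_le_sum_of_subset_of_nonneg (filter_subset _ _) fun n _ _ => Bd_nonneg d g j n
  refine h4.trans (h3.trans ?_)
  set C : ℝ := ((4 * g).choose (3 * g) : ℝ) with hC
  set s := 4 * g + 1 with hs
  have hC0 : 0 ≤ C := by rw [hC]; positivity
  have hCs : C ≤ 2 ^ s := by
    have e1 : (4 * g).choose (3 * g) ≤ 2 ^ (4 * g) := Nat.choose_le_two_pow _ _
    have e2 : C ≤ 2 ^ (4 * g) := by rw [hC]; exact_mod_cast e1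
    have e3 : (2 : ℝ) ^ (4 * g) ≤ 2 ^ s := pow_le_pow_right₀ (by norm_num) (by omega)
    linarith
  have h2s : (0 : ℝ) < 2 ^ s := by positivity
  have e1 : ((2 : ℝ) ^ s - C) ^ j = (2 ^ (s * j)) * (1 - C / 2 ^ s) ^ j := by
    rw [pow_mul, ← mul_pow]
    congr 1
    field_simp
  have e2 : (1 - C / 2 ^ s) ^ j ≤ Real.exp (-(j * (C / 2 ^ s))) := by
    have e3 : 1 - C / 2 ^ s ≤ Real.exp (-(C / 2 ^ s)) := by
      have := Real.add_one_le_exp (-(C / 2 ^ s))
      linarith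
    have e4 : 0 ≤ 1 - C / 2 ^ s := by
      have : C / 2 ^ s ≤ 1 := by rw [div_le_one h2s]; exact hCs
      linarith
    calc (1 - C / 2 ^ s) ^ j ≤ (Real.exp (-(C / 2 ^ s))) ^ j := pow_le_pow_left₀ e4 e3 j
      _ = _ := by rw [← Real.exp_nat_mul]; congr 1; ring
  have h2sj : (0 : ℝ) < 2 ^ (s * j) := by positivity
  calc (A / 2 ^ (s * j) + 1) * ((2 : ℝ) ^ s - C) ^ j
      = (A + 2 ^ (s * j)) * (1 - C / 2 ^ s) ^ j := by rw [e1]; field_simp
    _ ≤ (A + 2 ^ (s * j)) * Real.exp (-(j * (C / 2 ^ s))) := mul_le_mul_of_nonneg_left e2 (by positivity)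
    _ ≤ (2 * A) * Real.exp (-(j * (C / 2 ^ s))) :=
        mul_le_mul_of_nonneg_right (by linarith) (Real.exp_pos _).le

/-- the terms of trajectories of positive integers, `d = ± 1` -/
theorem bounds {d : ℤ} (hd : d = 1 ∨ d = -1) {x : ℤ} (hx : 0 < x) : ∀ j : ℕ,
    0 < (Tz d)^[j] x ∧ x ≤ 2 ^ j * (Tz d)^[j] x ∧ (Tz d)^[j] x ≤ 2 ^ j * x
  | 0 => by simp [hx]
  | j + 1 => by
    obtain ⟨h1, h2, h3⟩ := bounds hd hx j
    have hd2 : d % 2 = 1 := by rcases hd with rfl | rfl <;> norm_num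
    have hda : -1 ≤ d ∧ d ≤ 1 := by rcases hd with rfl | rfl <;> norm_num
    rw [Function.iterate_succ_apply']
    set y : ℤ := (Tz d)^[j] x with hy
    have h4 : 0 < Tz d y ∧ y ≤ 2 * Tz d y ∧ Tz d y ≤ 2 * y := by
      by_cases hp : y % 2 = 0
      · have := Tz_even (d := d) hp
        omega
      · have := Tz_odd hd2 hp
        omega
    have h2j : (0 : ℤ) < 2 ^ j := by positivity
    refine ⟨h4.1, ?_, ?_⟩
    · rw [pow_succ]
      have := mul_le_mul_of_nonneg_left h4.2.1 h2j.le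
      linarith
    · rw [pow_succ]
      linarith [h4.2.2]

open scoped Classical in
/-- almost all trajectories meet the hot set above `A ^ 0.7` -/
theorem meets {d : ℤ} (hd : d = 1 ∨ d = -1) {c : ℝ} (hc0 : 0 < c) (hc2 : c ≤ 2)
    (hcm : c * Real.log (27 / 16) < 1) {ε : ℝ} (hε : 0 < ε) : ∃ A₁ : ℝ, 1 < A₁ ∧ ∀ A : ℝ, A₁ ≤ A →
      (((Wn A).filter (fun n => ¬ ∃ k : ℕ, (Tz d)^[k] n ∈ Hot d c ∧
        ∀ j ≤ k, A ^ (0.7 : ℝ) ≤ (((Tz d)^[j] n : ℤ) : ℝ))).card : ℝ) ≤ ε * A := by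
  have hd2 : d % 2 = 1 := by rcases hd with rfl | rfl <;> norm_num
  set mu : ℝ := Real.log (27 / 16) with hmu
  have hmu0 : 0 < mu := Real.log_pos (by norm_num)
  have hmu1 : mu ≤ 0.7 := by
    have := Real.log_le_sub_one_of_pos (show (0 : ℝ) < 27 / 16 by norm_num)
    linarith
  set η : ℝ := (1 - c * mu) / 4 with hη
  have hη0 : 0 < η := by rw [hη]; linarith
  set C₀ : ℝ := 4 * c / η + 13 with hC₀
  have hC₀0 : 0 < C₀ := by rw [hC₀]; positivity
  have hC₀13 : 13 ≤ C₀ := by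
    have : 0 < 4 * c / η := by positivity
    linarith
  -- asymptotics
  set κ₀ : ℝ := Real.exp (-2) / (20 * C₀ * C₀) with hκ₀
  have hκ₀0 : 0 < κ₀ := by rw [hκ₀]; positivity
  have hev1 : ∀ᶠ L : ℝ in Filter.atTop, 10 * C₀ ≤ L ^ (1 - η) :=
    (tendsto_rpow_atTop (by
      have : c * mu > 0 := by positivity
      rw [hη]; linarith)).eventually_ge_atTop _
  have hev2 : ∀ᶠ L : ℝ in Filter.atTop, Real.log (2 / ε) / κ₀ ≤ L ^ (2 * η) :=
    (tendsto_rpow_atTop (by positivity)).eventually_ge_atTop _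
  obtain ⟨L₀, hL₀⟩ := Filter.eventually_atTop.1 (hev1.and (hev2.and (Filter.eventually_ge_atTop (100 : ℝ))))
  refine ⟨Real.exp (max L₀ 100), by
    have : (100 : ℝ) ≤ max L₀ 100 := le_max_right _ _
    have := Real.add_one_le_exp (max L₀ 100)
    linarith, ?_⟩
  intro A hA
  have hA0 : 0 < A := lt_of_lt_of_le (Real.exp_pos _) hA
  set L := Real.log A with hL
  have hLL : max L₀ 100 ≤ L := by rw [hL, Real.le_log_iff_exp_le hA0]; exact hA
  have hL100 : 100 ≤ L := (le_max_right _ _).trans hLL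
  obtain ⟨g1, g2, _⟩ := hL₀ L ((le_max_left _ _).trans hLL)
  have hL0 : 0 < L := by linarith
  have hexpA : Real.exp L = A := Real.exp_log hA0
  set LL := Real.log L with hLLdef
  have hexpLL : Real.exp LL = L := Real.exp_log hL0
  have hln2a := Real.log_two_gt_d9
  have hln2b := Real.log_two_lt_d9
  have hLL0 : 1 ≤ LL := by
    have h4 : Real.log 4 ≤ LL := Real.log_le_log (by norm_num) (by linarith)
    have h5 : Real.log 4 = 2 * Real.log 2 := by
      rw [show (4 : ℝ) = 2 ^ 2 by norm_num, Real.log_pow]; norm_num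
    linarith
  obtain ⟨g, hg⟩ : ∃ g : ℕ, g = ⌈c * (LL + 0.5)⌉₊ := ⟨_, rfl⟩
  have hg1 : c * (LL + 0.5) ≤ g := by rw [hg]; exact Nat.le_ceil _
  have hg2 : (g : ℝ) ≤ c * (LL + 0.5) + 1 := by
    rw [hg]; exact (Nat.ceil_lt_add_one (by positivity)).le
  set s : ℕ := 4 * g + 1 with hs
  have hsR : (s : ℝ) = 4 * g + 1 := by rw [hs]; push_cast; ring
  have hs1 : (1 : ℝ) ≤ s := by rw [hsR]; have : (0 : ℝ) ≤ g := Nat.cast_nonneg g; linarith
  have hsη : (s : ℝ) ≤ C₀ * L ^ η := by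
    have e1 : LL ≤ L ^ η / η := Real.log_le_rpow_div hL0.le hη0
    have e2 : 1 ≤ L ^ η := Real.one_le_rpow (by linarith) hη0.le
    have e3 : 4 * c * LL ≤ 4 * c * (L ^ η / η) := mul_le_mul_of_nonneg_left e1 (by positivity)
    have e4 : 4 * c * (L ^ η / η) = 4 * c / η * L ^ η := by ring
    rw [hsR, hC₀, add_mul]
    nlinarith
  obtain ⟨B, hB⟩ : ∃ B : ℕ, B = ⌊0.4 * L / s⌋₊ := ⟨_, rfl⟩
  have hs0 : (0 : ℝ) < s := by linarith
  have hB1 : (B : ℝ) * s ≤ 0.4 * L := by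
    have : (B : ℝ) ≤ 0.4 * L / s := by rw [hB]; exact Nat.floor_le (by positivity)
    rwa [le_div_iff₀ hs0] at this
  have hLη0 : 0 < L ^ η := by positivity
  have hB2 : 0.3 * L / (C₀ * L ^ η) ≤ B := by
    have e1 : 0.4 * L / s < B + 1 := by rw [hB]; exact Nat.lt_floor_add_one _
    have e2 : 0.4 * L / (C₀ * L ^ η) ≤ 0.4 * L / s :=
      div_le_div_of_nonneg_left (by positivity) hs0 hsη
    have e3 : 1 ≤ 0.1 * L / (C₀ * L ^ η) := by
      rw [le_div_iff₀ (by positivity)]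
      have e4 : L = L ^ (1 - η) * L ^ η := by
        rw [← Real.rpow_add hL0]; simp
      have e5 : 10 * C₀ * L ^ η ≤ L ^ (1 - η) * L ^ η := mul_le_mul_of_nonneg_right g1 hLη0.le
      rw [← e4] at e5
      linarith
    have e4 : 0.3 * L / (C₀ * L ^ η) = 0.4 * L / (C₀ * L ^ η) - 0.1 * L / (C₀ * L ^ η) := by ring
    linarith
  -- the power of two
  have h2pow : (2 : ℝ) ^ (s * B) ≤ A ^ (0.3 : ℝ) := by
    have e1 : (2 : ℝ) ^ (s * B) = Real.exp (((s * B : ℕ) : ℝ) * Real.log 2) := by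
      rw [Real.exp_nat_mul, Real.exp_log (by norm_num)]
    rw [e1, Real.rpow_def_of_pos hA0]
    apply Real.exp_le_exp.2
    push_cast
    have e2 : (s : ℝ) * B * Real.log 2 ≤ (0.4 * L) * 0.7 :=
      mul_le_mul (by linarith) (by linarith) (by linarith) (by positivity)
    rw [← hL]
    linarith
  have hA1 : 1 ≤ A := by rw [← hexpA]; exact Real.one_le_exp hL0.le
  have hA03 : A ^ (0.3 : ℝ) ≤ A := by
    calc A ^ (0.3 : ℝ) ≤ A ^ (1 : ℝ) := Real.rpow_le_rpow_of_exponent_le hA1 (by norm_num)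
      _ = A := Real.rpow_one A
  have hA37 : A ^ (0.7 : ℝ) * A ^ (0.3 : ℝ) = A := by
    rw [← Real.rpow_add hA0]; norm_num
  -- inclusion
  have hsub : (Wn A).filter (fun n => ¬ ∃ k : ℕ, (Tz d)^[k] n ∈ Hot d c ∧
        ∀ j ≤ k, A ^ (0.7 : ℝ) ≤ (((Tz d)^[j] n : ℤ) : ℝ)) ⊆
      (Wn A).filter (fun n => ∀ i < B, ¬ good d g ((Tz d)^[(4 * g + 1) * i] n)) := by
    intro n hn
    rw [mem_filter] at hn ⊢
    refine ⟨hn.1, fun i hi hgood => hn.2 ?_⟩
    have hnA := mem_Wn.1 hn.1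
    have hn0 : 0 < n := by
      have : (0 : ℝ) < n := by linarith [hnA.1]
      exact_mod_cast this
    have hlow : ∀ j ≤ s * B, A ^ (0.7 : ℝ) ≤ (((Tz d)^[j] n : ℤ) : ℝ) := by
      intro j hj
      have e1 := (bounds hd hn0 j).2.1
      have e2 : (n : ℝ) ≤ 2 ^ j * (((Tz d)^[j] n : ℤ) : ℝ) := by exact_mod_cast e1
      have e3 : (2 : ℝ) ^ j ≤ 2 ^ (s * B) := pow_le_pow_right₀ (by norm_num) hj
      have e4 : (0 : ℝ) < (((Tz d)^[j] n : ℤ) : ℝ) := by exact_mod_cast (bounds hd hn0 j).1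
      have e5 : A ^ (0.7 : ℝ) * A ^ (0.3 : ℝ) ≤ (((Tz d)^[j] n : ℤ) : ℝ) * A ^ (0.3 : ℝ) := by
        rw [hA37]
        calc A ≤ n := hnA.1
          _ ≤ 2 ^ j * (((Tz d)^[j] n : ℤ) : ℝ) := e2
          _ ≤ A ^ (0.3 : ℝ) * (((Tz d)^[j] n : ℤ) : ℝ) :=
              mul_le_mul_of_nonneg_right (e3.trans h2pow) e4.le
          _ = _ := mul_comm _ _
      exact le_of_mul_le_mul_right e5 (by positivity)
    set x : ℤ := (Tz d)^[(4 * g + 1) * i] n with hx
    have hx0 : 0 < x := (bounds hd hn0 _).1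
    set k : ℕ := (4 * g + 1) * i + 4 * g with hk
    have hkB : k ≤ s * B := by
      have : (4 * g + 1) * (i + 1) ≤ (4 * g + 1) * B := Nat.mul_le_mul_left _ (by omega)
      rw [hk, hs]
      linarith
    have hky : (Tz d)^[k] n = (Tz d)^[4 * g] x := by
      rw [hx, ← Function.iterate_add_apply, hk, add_comm]
    refine ⟨k, ?_, fun j hj => hlow j (hj.trans hkB)⟩
    set y : ℤ := (Tz d)^[k] n with hy
    have hy0 : (0 : ℝ) < y := by exact_mod_cast (bounds hd hn0 k).1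
    have hylow : A ^ (0.7 : ℝ) ≤ y := hlow k hkB
    have hyup : (y : ℝ) ≤ A ^ (0.3 : ℝ) * (2 * A) := by
      have e1 := (bounds hd hn0 k).2.2
      have e2 : (y : ℝ) ≤ 2 ^ k * n := by exact_mod_cast e1
      have e3 : (2 : ℝ) ^ k ≤ 2 ^ (s * B) := pow_le_pow_right₀ (by norm_num) hkB
      refine e2.trans ?_
      apply mul_le_mul (e3.trans h2pow) hnA.2.le _ (by positivity)
      exact_mod_cast hn0.le
    have hl1 : 0.7 * L ≤ Real.log y := by
      have := Real.log_le_log (by positivity) hylow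
      rwa [Real.log_rpow hA0] at this
    have hl2 : Real.log y ≤ 1.4 * L := by
      have := Real.log_le_log hy0 hyup
      rw [Real.log_mul (by positivity) (by positivity), Real.log_mul (by norm_num) hA0.ne',
        Real.log_rpow hA0, ← hL] at this
      linarith
    have hly0 : 0 < Real.log y := by linarith
    have hll1 : LL - 0.43 ≤ Real.log (Real.log y) := by
      have e1 := Real.log_le_log (by positivity) hl1
      rw [Real.log_mul (by norm_num) hL0.ne'] at e1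
      have e2 : -0.43 ≤ Real.log 0.7 := by
        have := Real.log_le_sub_one_of_pos (show (0 : ℝ) < 0.7⁻¹ by norm_num)
        rw [Real.log_inv] at this
        norm_num at this ⊢
        linarith
      linarith
    have hll2 : Real.log (Real.log y) ≤ LL + 0.4 := by
      have e1 := Real.log_le_log hly0 hl2
      rw [Real.log_mul (by norm_num) hL0.ne'] at e1
      have e2 : Real.log 1.4 ≤ 0.4 := by
        have := Real.log_le_sub_one_of_pos (show (0 : ℝ) < 1.4 by norm_num)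
        linarith
      linarith
    refine ⟨?_, g, ?_, ?_, x, hx0, hgood.1, hky.symm⟩
    · rw [hky]; exact hgood.2
    · have := mul_le_mul_of_nonneg_left hll2 hc0.le
      nlinarith
    · have := mul_le_mul_of_nonneg_left hll1 hc0.le
      nlinarith
  have hmain := no_good hd2 g B hA0.le (h2pow.trans hA03)
  have h1 : (((Wn A).filter (fun n => ¬ ∃ k : ℕ, (Tz d)^[k] n ∈ Hot d c ∧
        ∀ j ≤ k, A ^ (0.7 : ℝ) ≤ (((Tz d)^[j] n : ℤ) : ℝ))).card : ℝ) ≤
      (((Wn A).filter (fun n => ∀ i < B, ¬ good d g ((Tz d)^[(4 * g + 1) * i] n))).card : ℝ) := by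
    exact_mod_cast card_le_card hsub
  refine h1.trans (hmain.trans ?_)
  -- the exponent
  have hC : (16 / 27 : ℝ) ^ g / (2 * s) ≤ ((4 * g).choose (3 * g) : ℝ) / 2 ^ (4 * g + 1) := by
    have e1 := choose_ge g
    have e2 : (256 : ℝ) ^ g ≤ (4 * g + 1) * 27 ^ g * ((4 * g).choose (3 * g) : ℝ) := by exact_mod_cast e1
    rw [div_le_div_iff₀ (by positivity) (by positivity), hsR, pow_succ, pow_mul, div_pow]
    norm_num
    rw [div_mul_eq_mul_div, div_le_iff₀ (by positivity)]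
    have e3 : (16 : ℝ) ^ g * (16 ^ g * 2) = 256 ^ g * 2 := by
      rw [← mul_assoc, ← mul_pow]; norm_num
    rw [e3]
    linarith
  have hg16 : Real.exp (-2) * L ^ (-(c * mu)) ≤ (16 / 27 : ℝ) ^ g := by
    have e2 : ((16 : ℝ) / 27) ^ g = Real.exp (-(g * mu)) := by
      rw [hmu, show (16 : ℝ) / 27 = (27 / 16)⁻¹ by norm_num, inv_pow, Real.exp_neg,
        Real.exp_nat_mul, Real.exp_log (by norm_num)]
    have e3 : L ^ (-(c * mu)) = Real.exp (-(c * mu) * LL) := by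
      rw [Real.rpow_def_of_pos hL0, mul_comm]
    rw [e2, e3, ← Real.exp_add]
    apply Real.exp_le_exp.2
    have e4 : (g : ℝ) * mu ≤ (c * (LL + 0.5) + 1) * mu := mul_le_mul_of_nonneg_right hg2 hmu0.le
    have e5 : c * mu ≤ 1 := hcm.le
    nlinarith
  have hexpo : Real.log (2 / ε) ≤ B * (((4 * g).choose (3 * g) : ℝ) / 2 ^ (4 * g + 1)) := by
    have e1 : κ₀ * L ^ (2 * η) ≤ B * (((4 * g).choose (3 * g) : ℝ) / 2 ^ (4 * g + 1)) := by
      have e2 : (Real.exp (-2) * L ^ (-(c * mu))) / (2 * (C₀ * L ^ η)) ≤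
          ((4 * g).choose (3 * g) : ℝ) / 2 ^ (4 * g + 1) := by
        refine le_trans ?_ hC
        apply div_le_div₀ (by positivity) hg16 (by positivity)
        linarith
      have e3 : 0.3 * L / (C₀ * L ^ η) * ((Real.exp (-2) * L ^ (-(c * mu))) / (2 * (C₀ * L ^ η))) ≤
          B * (((4 * g).choose (3 * g) : ℝ) / 2 ^ (4 * g + 1)) :=
        mul_le_mul hB2 e2 (by positivity) (Nat.cast_nonneg _)
      refine le_trans ?_ e3
      have e4 : L ^ (2 * η) * (L ^ η * L ^ η) = L * L ^ (-(c * mu)) := by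
        rw [← Real.rpow_add hL0, ← Real.rpow_add hL0]
        have : L * L ^ (-(c * mu)) = L ^ (1 : ℝ) * L ^ (-(c * mu)) := by rw [Real.rpow_one]
        rw [this, ← Real.rpow_add hL0]
        congr 1
        rw [hη]; ring
      rw [div_mul_div_comm, le_div_iff₀ (by positivity), hκ₀]
      calc Real.exp (-2) / (20 * C₀ * C₀) * L ^ (2 * η) * (C₀ * L ^ η * (2 * (C₀ * L ^ η)))
          = (1 / 10) * Real.exp (-2) * (L ^ (2 * η) * (L ^ η * L ^ η)) := by field_simp; ring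
        _ = (1 / 10) * Real.exp (-2) * (L * L ^ (-(c * mu))) := by rw [e4]
        _ ≤ 0.3 * L * (Real.exp (-2) * L ^ (-(c * mu))) := by
            have : 0 < Real.exp (-2) * (L * L ^ (-(c * mu))) := by positivity
            nlinarith
    rw [div_le_iff₀ hκ₀0] at g2
    linarith
  have hfin : Real.exp (-(B * (((4 * g).choose (3 * g) : ℝ) / 2 ^ (4 * g + 1)))) ≤ ε / 2 := by
    calc Real.exp (-(B * (((4 * g).choose (3 * g) : ℝ) / 2 ^ (4 * g + 1)))) ≤ Real.exp (-Real.log (2 / ε)) :=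
          Real.exp_le_exp.2 (neg_le_neg hexpo)
      _ = ε / 2 := by rw [Real.exp_neg, Real.exp_log (by positivity), inv_div]
  calc 2 * A * Real.exp (-(B * (((4 * g).choose (3 * g) : ℝ) / 2 ^ (4 * g + 1)))) ≤ 2 * A * (ε / 2) :=
        mul_le_mul_of_nonneg_left hfin (by positivity)
    _ = ε * A := by ring

end Pool.Agent.H48T
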