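import Pool.Agent.H48T.Syr
import Pool.Agent.H48N.Word

/-! Negative odd integers. -/

set_option autoImplicit false

namespace Pool.Agent.H48T

open Finset
open Pool.Agent.H499R2.CO (Tz)
open Pool.Agent.R344.SP Pool.Agent.R344.TH

/-- the Syracuse map on the odd integers -/
def SyrZ (N : ℤ) : ℤ := (3 * N + 1) / 2 ^ padicValInt 2 (3 * N + 1)

theorem SyrZ_neg {M : ℤ} (hM : Odd M) : SyrZ (-M) = -Pool.Agent.H48N.Syr M := by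
  have h0 : 3 * -M + 1 = -(3 * M - 1) := by ring
  have h1 : padicValInt 2 (3 * -M + 1) = Pool.Agent.H48N.vv M := by
    rw [h0]; unfold Pool.Agent.H48N.vv padicValInt; rw [Int.natAbs_neg]
  unfold SyrZ Pool.Agent.H48N.Syr
  rw [h1, h0]
  apply Int.neg_ediv_of_dvd
  exact ⟨Pool.Agent.H48N.Syr M, (Pool.Agent.H48N.Syr_spec hM).1⟩

theorem SyrZ_iter (k : ℕ) : ∀ M : ℤ, Odd M → SyrZ^[k] (-M) = -Pool.Agent.H48N.Syr^[k] M := by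
  induction k with
  | zero => intro M _; rfl
  | succ k ih =>
    intro M hM
    rw [Function.iterate_succ_apply, Function.iterate_succ_apply, SyrZ_neg hM,
      ih _ (Pool.Agent.H48N.Syr_spec hM).2.1]

theorem acc_neg : Acc (-1) Pool.Agent.H48N.Syr := by
  intro M hM
  obtain ⟨h1, h2, h3⟩ := Pool.Agent.H48N.Syr_spec hM
  exact ⟨Pool.Agent.H48N.vv M, h3, by rw [← h1]; ring, h2⟩

/-- positivity of the iterates -/
theorem syr_pos {M : ℤ} (hM : Odd M) (hM0 : 0 < M) (k : ℕ) : 0 < Pool.Agent.H48N.Syr^[k] M := by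
  obtain ⟨T, h1, _⟩ := acc_to_Tz (d := -1) (by norm_num) acc_neg k M hM
  rw [← h1]
  exact (bounds (Or.inr rfl) hM0 T).1

theorem natAbs_iter {M : ℤ} (hM : Odd M) (hM0 : 0 < M) (k : ℕ) :
    (((SyrZ^[k] (-M)).natAbs : ℕ) : ℤ) = Pool.Agent.H48N.Syr^[k] M := by
  rw [SyrZ_iter k M hM, Int.natAbs_neg]
  exact Int.natAbs_of_nonneg (syr_pos hM hM0 k).le

/-- a term `-a`, `a ∈ A`, before the first term of absolute value smaller than `y` -/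
def MeetsN (A : Set ℕ) (y : ℝ) (n : ℤ) : Prop :=
  ∃ k : ℕ, (SyrZ^[k] n).natAbs ∈ A ∧ ∀ j ≤ k, y ≤ ((SyrZ^[j] n).natAbs : ℝ)

theorem meets_HY {A : Set ℕ} {y : ℝ} (hy : 0 ≤ y) {M : ℤ} (hM : Odd M) (hM0 : 0 < M)
    (h : MeetsN A y (-M)) : M ∈ HY (-1) (zset A) y := by
  obtain ⟨k, h1, h2⟩ := h
  obtain ⟨T, h3, h4⟩ := acc_to_Tz (d := -1) (by norm_num) acc_neg k M hM
  refine ⟨T, ?_, h4 y hy ?_⟩
  · rw [h3, ← natAbs_iter hM hM0 k]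
    exact ⟨Int.natCast_nonneg _, by rw [Int.toNat_natCast]; exact h1⟩
  · intro i hi
    have h5 := h2 i hi
    have h6 := natAbs_iter hM hM0 i
    have h7 : (((SyrZ^[i] (-M)).natAbs : ℕ) : ℝ) = ((Pool.Agent.H48N.Syr^[i] M : ℤ) : ℝ) := by
      rw [← h6, Int.cast_natCast]
    rw [← h7]; exact h5

theorem not_bad_meets {c : ℝ} {M : ℤ} (hM : Odd M) (hM0 : 0 < M) (h : M ∉ Bad (-1) c) :
    MeetsN {a : ℕ | (a : ℤ) ∈ Hot (-1) c} ((M : ℝ) ^ (0.6 : ℝ)) (-M) := by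
  unfold Bad at h
  rw [Set.mem_setOf_eq, not_not] at h
  obtain ⟨T, h1, h2⟩ := h
  obtain ⟨k, h3, h4⟩ := Tz_to_acc (d := -1) (by norm_num) acc_neg T M hM (Int.odd_iff.2 h1.1)
  refine ⟨k, ?_, ?_⟩
  · rw [Set.mem_setOf_eq, natAbs_iter hM hM0 k, h3]
    exact h1
  · intro j hj
    have h5 := h4 _ h2 j hj
    have h6 := natAbs_iter hM hM0 j
    have h7 : (((SyrZ^[j] (-M)).natAbs : ℕ) : ℝ) = ((Pool.Agent.H48N.Syr^[j] M : ℤ) : ℝ) := by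
      rw [← h6, Int.cast_natCast]
    rw [h7]; exact h5

open scoped Classical in
theorem neg_thin {U κ : ℝ} (hκ : 0 ≤ κ) (hU : κ < U / 2 - 1) :
    ∃ K : ℝ, ∀ y : ℝ, 2 ≤ y → ∀ A : Set ℕ,
      (∀ x : ℝ, y ≤ x → ({a : ℕ | a ∈ A ∧ y ≤ a ∧ (a : ℝ) ≤ x}.ncard : ℝ) ≤ x / (Real.log x) ^ U) →
      ∀ N : ℕ, ({n : ℤ | Odd n ∧ -(N : ℤ) ≤ n ∧ n < 0 ∧ MeetsN A y n}.ncard : ℝ) ≤
        K * N / (Real.log y) ^ κ := by
  obtain ⟨K, hK, h⟩ := odd_thin (d := -1) (by decide) (by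
    rw [IsCoprime]; exact ⟨-1, 0, by norm_num⟩) hκ hU
  refine ⟨K, ?_⟩
  intro y hy A hA N
  refine le_trans ?_ (h y hy A hA N)
  have h1 : {n : ℤ | Odd n ∧ -(N : ℤ) ≤ n ∧ n < 0 ∧ MeetsN A y n} ⊆
      (fun x : ℤ => -x) '' (((Icc (1 : ℤ) N).filter (fun x => Odd x ∧ x ∈ HY (-1) (zset A) y) : Finset ℤ) : Set ℤ) := by
    rintro n ⟨h1, h2, h3, h4⟩
    refine ⟨-n, ?_, by simp⟩
    rw [mem_coe, mem_filter, mem_Icc]
    have ho : Odd (-n) := h1.neg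
    refine ⟨⟨by omega, by omega⟩, ho, meets_HY (by linarith) ho (by omega) ?_⟩
    rwa [neg_neg]
  have h2 := Set.ncard_le_ncard h1 ((Finset.finite_toSet _).image _)
  rw [Set.ncard_image_of_injective _ neg_injective, Set.ncard_coe_finset] at h2
  exact_mod_cast h2

open scoped Classical in
theorem neg_hot {U : ℝ} (hU : U < 2) : ∃ (A : Set ℕ) (y : ℝ), 2 ≤ y ∧
    (∀ x : ℝ, y ≤ x → ({a : ℕ | a ∈ A ∧ y ≤ a ∧ (a : ℝ) ≤ x}.ncard : ℝ) ≤ x / (Real.log x) ^ U) ∧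
    ∀ ε : ℝ, 0 < ε → ∃ N₀ : ℕ, ∀ N : ℕ, N₀ ≤ N →
      ({n : ℤ | Odd n ∧ -(N : ℤ) ≤ n ∧ n < 0 ∧ ¬ MeetsN A ((n.natAbs : ℝ) ^ (0.6 : ℝ)) n}.ncard : ℝ) ≤ ε * N := by
  obtain ⟨c, hc0, hc2, hcm, hcU⟩ := exists_c hU
  obtain ⟨Y, hY, hthin⟩ := hot_ncard (d := -1) (Or.inr rfl) hc0 hc2 hcU
  refine ⟨{a : ℕ | (a : ℤ) ∈ Hot (-1) c}, Y, hY, ?_, ?_⟩
  · intro x hx
    refine le_trans ?_ (hthin x hx)
    have hfin : {a : ℕ | (a : ℤ) ∈ Hot (-1) c ∧ (a : ℝ) ≤ x}.Finite := by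
      apply (Set.finite_Iic ⌊x⌋₊).subset
      rintro a ⟨_, h⟩
      rw [Set.mem_Iic]
      exact Nat.le_floor h
    have := Set.ncard_le_ncard (s := {a : ℕ | a ∈ {a : ℕ | (a : ℤ) ∈ Hot (-1) c} ∧ Y ≤ a ∧ (a : ℝ) ≤ x})
      (t := {a : ℕ | (a : ℤ) ∈ Hot (-1) c ∧ (a : ℝ) ≤ x}) (fun a ha => ⟨ha.1, ha.2.2⟩) hfin
    exact_mod_cast this
  · intro ε hε
    obtain ⟨N₀, hN₀⟩ := bad_count (d := -1) (Or.inr rfl) hc0 hc2 hcm hε
    refine ⟨N₀, fun N hN => ?_⟩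
    refine le_trans ?_ (hN₀ N hN)
    have h1 : {n : ℤ | Odd n ∧ -(N : ℤ) ≤ n ∧ n < 0 ∧
        ¬ MeetsN {a : ℕ | (a : ℤ) ∈ Hot (-1) c} ((n.natAbs : ℝ) ^ (0.6 : ℝ)) n} ⊆
        (fun x : ℤ => -x) '' (((Icc (1 : ℤ) N).filter (fun x => Odd x ∧ x ∈ Bad (-1) c) : Finset ℤ) : Set ℤ) := by
      rintro n ⟨h1, h2, h3, h4⟩
      refine ⟨-n, ?_, by simp⟩
      rw [mem_coe, mem_filter, mem_Icc]
      have ho : Odd (-n) := h1.neg
      refine ⟨⟨by omega, by omega⟩, ho, ?_⟩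
      by_contra hcon
      apply h4
      have h5 := not_bad_meets ho (by omega) hcon
      rw [neg_neg] at h5
      have h6 : ((n.natAbs : ℕ) : ℝ) = ((-n : ℤ) : ℝ) := by
        have h8 : ((n.natAbs : ℕ) : ℤ) = -n := by omega
        rw [← h8, Int.cast_natCast]
      rw [h6]
      exact h5
    have h2 := Set.ncard_le_ncard h1 ((Finset.finite_toSet _).image _)
    rw [Set.ncard_image_of_injective _ neg_injective, Set.ncard_coe_finset] at h2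
    exact_mod_cast h2

end Pool.Agent.H48T
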