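import Pool.Agent.H48T.Comb
import Pool.Agent.H48T.Meet

/-! Accelerated maps; odd starting points. -/

set_option autoImplicit false

namespace Pool.Agent.H48T

open Finset
open Pool.Agent.H499R2.ND
open Pool.Agent.H499R2.CO (Tz)
open Pool.Agent.R344.SP Pool.Agent.R344.TH

/-- `S` is the accelerated map -/
def Acc (d : ℤ) (S : ℤ → ℤ) : Prop := ∀ M : ℤ, Odd M → ∃ e : ℕ, 1 ≤ e ∧ 3 * M + d = 2 ^ e * S M ∧ Odd (S M)

theorem acc_to_Tz {d : ℤ} (hd : d % 2 = 1) {S : ℤ → ℤ} (hS : Acc d S) : ∀ (k : ℕ) (M : ℤ), Odd M →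
    ∃ T : ℕ, (Tz d)^[T] M = S^[k] M ∧ ∀ y : ℝ, 0 ≤ y → (∀ i ≤ k, y ≤ ((S^[i] M : ℤ) : ℝ)) →
      ∀ j ≤ T, y ≤ (((Tz d)^[j] M : ℤ) : ℝ)
  | 0, M, _ => ⟨0, rfl, fun y _ h j hj => by
      have : j = 0 := by omega
      subst this
      exact h 0 le_rfl⟩
  | k + 1, M, hM => by
    obtain ⟨e, he, h1, h2⟩ := hS M hM
    obtain ⟨T, h3, h4⟩ := acc_to_Tz hd hS k (S M) h2
    have hTe : (Tz d)^[e] M = S M := by
      obtain ⟨e', rfl⟩ : ∃ e', e = e' + 1 := ⟨e - 1, by omega⟩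
      rw [iter_syr hd hM h1 e' le_rfl]; simp
    refine ⟨T + e, ?_, ?_⟩
    · rw [Function.iterate_add_apply, hTe, h3, Function.iterate_succ_apply]
    · intro y hy hk j hj
      rcases Nat.eq_zero_or_pos j with rfl | hj0
      · exact hk 0 (Nat.zero_le _)
      rcases le_or_gt j e with hje | hje
      · obtain ⟨i, rfl⟩ : ∃ i, j = i + 1 := ⟨j - 1, by omega⟩
        rw [iter_syr hd hM h1 i hje]
        have h5 := hk 1 (by omega)
        rw [Function.iterate_one] at h5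
        push_cast
        have h6 : (1 : ℝ) ≤ 2 ^ (e - (i + 1)) := one_le_pow₀ (by norm_num)
        exact h5.trans (le_mul_of_one_le_left (hy.trans h5) h6)
      · have h5 := h4 y hy (fun i hi => by
          have := hk (i + 1) (by omega)
          rwa [Function.iterate_succ_apply] at this) (j - e) (by omega)
        rw [← hTe, ← Function.iterate_add_apply, Nat.sub_add_cancel hje.le] at h5
        exact h5

theorem Tz_to_acc {d : ℤ} (hd : d % 2 = 1) {S : ℤ → ℤ} (hS : Acc d S) (T : ℕ) : ∀ (M : ℤ), Odd M →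
    Odd ((Tz d)^[T] M) → ∃ k : ℕ, S^[k] M = (Tz d)^[T] M ∧ ∀ y : ℝ,
      (∀ j ≤ T, y ≤ (((Tz d)^[j] M : ℤ) : ℝ)) → ∀ i ≤ k, y ≤ ((S^[i] M : ℤ) : ℝ) := by
  induction T using Nat.strong_induction_on with
  | _ T ih =>
    intro M hM hT
    rcases Nat.eq_zero_or_pos T with rfl | hT0
    · exact ⟨0, rfl, fun y h i hi => by
        have : i = 0 := by omega
        subst this
        exact h 0 le_rfl⟩
    obtain ⟨e, he, h1, h2⟩ := hS M hM
    have hTe : (Tz d)^[e] M = S M := by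
      obtain ⟨e', rfl⟩ : ∃ e', e = e' + 1 := ⟨e - 1, by omega⟩
      rw [iter_syr hd hM h1 e' le_rfl]; simp
    have heT : e ≤ T := by
      by_contra hcon
      push Not at hcon
      obtain ⟨i, rfl⟩ : ∃ i, T = i + 1 := ⟨T - 1, by omega⟩
      rw [iter_syr hd hM h1 i hcon.le] at hT
      obtain ⟨f, hf⟩ : ∃ f, e - (i + 1) = f + 1 := ⟨e - (i + 1) - 1, by omega⟩
      rw [hf, pow_succ] at hT
      have h3 : (2 ^ f * 2 * S M) % 2 = 0 := by
        rw [mul_right_comm]; exact Int.mul_emod_left _ _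
      have h4 := Int.odd_iff.1 hT
      omega
    have hsh : (Tz d)^[T] M = (Tz d)^[T - e] (S M) := by
      rw [← hTe, ← Function.iterate_add_apply, Nat.sub_add_cancel heT]
    obtain ⟨k, h3, h4⟩ := ih (T - e) (by omega) (S M) h2 (by rw [← hsh]; exact hT)
    refine ⟨k + 1, by rw [Function.iterate_succ_apply, h3, hsh], ?_⟩
    intro y hy i hi
    rcases Nat.eq_zero_or_pos i with rfl | hi0
    · exact hy 0 (Nat.zero_le _)
    obtain ⟨i', rfl⟩ : ∃ i', i = i' + 1 := ⟨i - 1, by omega⟩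
    rw [Function.iterate_succ_apply]
    apply h4 y _ i' (by omega)
    intro j hj
    have := hy (j + e) (by omega)
    rwa [Function.iterate_add_apply, hTe] at this

/-- the set of the integers with value in `A` -/
def zset (A : Set ℕ) : Set ℤ := {a : ℤ | 0 ≤ a ∧ a.toNat ∈ A}

theorem fA_ncard {A : Set ℕ} {y X : ℝ} :
    ((fA (zset A) y X).card : ℝ) ≤ ({a : ℕ | a ∈ A ∧ y ≤ a ∧ (a : ℝ) ≤ X}.ncard : ℝ) := by
  have hfin : {a : ℕ | a ∈ A ∧ y ≤ a ∧ (a : ℝ) ≤ X}.Finite := by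
    apply (Set.finite_Iic ⌊X⌋₊).subset
    rintro a ⟨_, _, h⟩
    rw [Set.mem_Iic]
    exact Nat.le_floor h
  have h1 : ((fA (zset A) y X : Finset ℤ) : Set ℤ) ⊆
      (fun a : ℕ => (a : ℤ)) '' {a : ℕ | a ∈ A ∧ y ≤ a ∧ (a : ℝ) ≤ X} := by
    intro x hx
    rw [mem_coe, mem_fA] at hx
    obtain ⟨⟨h1, h2⟩, h3, h4⟩ := hx
    have h5 : ((x.toNat : ℕ) : ℤ) = x := Int.toNat_of_nonneg h3
    have h6 : ((x.toNat : ℕ) : ℝ) = x := by exact_mod_cast h5
    exact ⟨x.toNat, ⟨h4, by rw [h6]; exact h1, by rw [h6]; exact h2⟩, h5⟩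
  have h2 := Set.ncard_le_ncard h1 (hfin.image _)
  rw [Set.ncard_coe_finset, Set.ncard_image_of_injective _ Nat.cast_injective] at h2
  exact_mod_cast h2

open scoped Classical in
/-- odd starting points: sets of exponent greater than 2 -/
theorem odd_thin {d : ℤ} (hd : Odd d) (hd3 : IsCoprime d 3) {U κ : ℝ} (hκ : 0 ≤ κ) (hU : κ < U / 2 - 1) :
    ∃ K : ℝ, 0 < K ∧ ∀ Y : ℝ, 2 ≤ Y → ∀ A : Set ℕ,
      (∀ X : ℝ, Y ≤ X → ({a : ℕ | a ∈ A ∧ Y ≤ a ∧ (a : ℝ) ≤ X}.ncard : ℝ) ≤ X / (Real.log X) ^ U) →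
      ∀ N : ℕ, (((Icc (1 : ℤ) N).filter (fun x => Odd x ∧ x ∈ HY d (zset A) Y)).card : ℝ) ≤
        K * N / (Real.log Y) ^ κ := by
  obtain ⟨l₀, K, hl₀, hK, h⟩ := HY_PB hd hd3 hκ hU
  refine ⟨K + l₀ ^ κ, by positivity, ?_⟩
  intro Y hY A hA N
  have hlog : 0 < Real.log Y := Real.log_pos (by linarith)
  have hN0 : (0 : ℝ) ≤ N := Nat.cast_nonneg N
  have hκ0 : 0 < l₀ ^ κ := by positivity
  rw [le_div_iff₀ (by positivity)]
  rcases Nat.eq_zero_or_pos N with rfl | hN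
  · simp
  have hNR : (0 : ℝ) < N := by exact_mod_cast hN
  rcases le_or_gt l₀ (Real.log Y) with hc | hc
  · have h1 := h Y (by linarith) hc (zset A) (by
      intro X hX
      refine fA_ncard.trans ((hA X hX).trans (le_of_eq ?_))
      rw [Real.rpow_neg (Real.log_nonneg (by linarith)), div_eq_mul_inv, mul_comm])
    have h2 := odd_count (S := HY d (zset A) Y) (z := Y) (ρ := K * (Real.log Y) ^ (-κ)) (X := (N : ℝ))
      (by positivity) (fun x hx => by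
        obtain ⟨k, _, h2⟩ := hx
        exact h2 0 (Nat.zero_le _)) h1 hNR
    rw [show ⌊((N : ℕ) : ℝ)⌋ = ((N : ℕ) : ℤ) from Int.floor_natCast N] at h2
    have h3 : (Real.log Y) ^ (-κ) * (Real.log Y) ^ κ = 1 := by
      rw [← Real.rpow_add hlog]; simp
    calc (((Icc (1 : ℤ) N).filter (fun x => Odd x ∧ x ∈ HY d (zset A) Y)).card : ℝ) * (Real.log Y) ^ κ
        ≤ (K * (Real.log Y) ^ (-κ) * N) * (Real.log Y) ^ κ := mul_le_mul_of_nonneg_right h2 (by positivity)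
      _ = K * N * ((Real.log Y) ^ (-κ) * (Real.log Y) ^ κ) := by ring
      _ = K * N := by rw [h3, mul_one]
      _ ≤ _ := mul_le_mul_of_nonneg_right (by linarith) hN0
  · have h1 : (((Icc (1 : ℤ) N).filter (fun x => Odd x ∧ x ∈ HY d (zset A) Y)).card : ℝ) ≤ N := by
      have : ((Icc (1 : ℤ) N).filter (fun x => Odd x ∧ x ∈ HY d (zset A) Y)).card ≤ N := by
        refine (card_filter_le _ _).trans ?_
        rw [Int.card_Icc]; omega
      exact_mod_cast this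
    have h2 : (Real.log Y) ^ κ ≤ l₀ ^ κ := Real.rpow_le_rpow hlog.le hc.le hκ
    calc (((Icc (1 : ℤ) N).filter (fun x => Odd x ∧ x ∈ HY d (zset A) Y)).card : ℝ) * (Real.log Y) ^ κ
        ≤ N * l₀ ^ κ := mul_le_mul h1 h2 (by positivity) hN0
      _ ≤ _ := by nlinarith

/-- starting points which do not meet the hot set -/
def Bad (d : ℤ) (c : ℝ) : Set ℤ := {x : ℤ | ¬ ∃ k : ℕ, (Tz d)^[k] x ∈ Hot d c ∧
  ∀ j ≤ k, (x : ℝ) ^ (0.6 : ℝ) ≤ (((Tz d)^[j] x : ℤ) : ℝ)}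

theorem bad_window {d : ℤ} (hd : d = 1 ∨ d = -1) {c : ℝ} (hc0 : 0 < c) (hc2 : c ≤ 2)
    (hcm : c * Real.log (27 / 16) < 1) {ε : ℝ} (hε : 0 < ε) : ∃ A₁ : ℝ, 1 < A₁ ∧ ∀ A : ℝ, A₁ ≤ A →
      ct (Bad d c) A ≤ ε * A := by
  classical
  obtain ⟨A₁, hA₁, h⟩ := meets hd hc0 hc2 hcm hε
  refine ⟨max A₁ 64, lt_of_lt_of_le hA₁ (le_max_left _ _), ?_⟩
  intro A hA
  have h1 := h A ((le_max_left _ _).trans hA)
  have hA64 : 64 ≤ A := (le_max_right _ _).trans hA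
  have hA0 : 0 < A := by linarith
  refine le_trans ?_ h1
  unfold ct
  have hsub : (Wn A).filter (fun n => n ∈ Bad d c) ⊆ (Wn A).filter (fun n => ¬ ∃ k : ℕ, (Tz d)^[k] n ∈ Hot d c ∧
        ∀ j ≤ k, A ^ (0.7 : ℝ) ≤ (((Tz d)^[j] n : ℤ) : ℝ)) := by
    intro n hn
    rw [mem_filter] at hn ⊢
    refine ⟨hn.1, ?_⟩
    rintro ⟨k, hk1, hk2⟩
    apply hn.2
    refine ⟨k, hk1, fun j hj => le_trans ?_ (hk2 j hj)⟩
    have hnW := mem_Wn.1 hn.1
    have e1 : (n : ℝ) ^ (0.6 : ℝ) ≤ (2 * A) ^ (0.6 : ℝ) :=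
      Real.rpow_le_rpow (by linarith [hnW.1]) hnW.2.le (by norm_num)
    refine e1.trans ?_
    rw [Real.mul_rpow (by norm_num) hA0.le]
    have e2 : (2 : ℝ) ^ (0.6 : ℝ) ≤ A ^ (0.1 : ℝ) := by
      have e3 : (2 : ℝ) ^ (0.6 : ℝ) = (64 : ℝ) ^ (0.1 : ℝ) := by
        rw [show (64 : ℝ) = (2 : ℝ) ^ (6 : ℝ) by norm_num, ← Real.rpow_mul (by norm_num)]
        norm_num
      rw [e3]
      exact Real.rpow_le_rpow (by norm_num) hA64 (by norm_num)
    calc (2 : ℝ) ^ (0.6 : ℝ) * A ^ (0.6 : ℝ) ≤ A ^ (0.1 : ℝ) * A ^ (0.6 : ℝ) :=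
          mul_le_mul_of_nonneg_right e2 (by positivity)
      _ = A ^ (0.7 : ℝ) := by rw [← Real.rpow_add hA0]; norm_num
  exact_mod_cast card_le_card hsub

open scoped Classical in
theorem bad_count {d : ℤ} (hd : d = 1 ∨ d = -1) {c : ℝ} (hc0 : 0 < c) (hc2 : c ≤ 2)
    (hcm : c * Real.log (27 / 16) < 1) {ε : ℝ} (hε : 0 < ε) : ∃ N₀ : ℕ, ∀ N : ℕ, N₀ ≤ N →
      (((Icc (1 : ℤ) N).filter (fun x => Odd x ∧ x ∈ Bad d c)).card : ℝ) ≤ ε * N := by
  obtain ⟨A₁, hA₁, h⟩ := bad_window hd hc0 hc2 hcm (ε := ε / 4) (by positivity)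
  set z : ℝ := 2 * A₁ with hz
  obtain ⟨N₀, hN₀⟩ := exists_nat_ge (2 * z / ε)
  refine ⟨N₀ + 1, ?_⟩
  intro N hN
  have hNR : (0 : ℝ) < N := by exact_mod_cast (by omega : 0 < N)
  have hN1 : 2 * z / ε ≤ N := hN₀.trans (by exact_mod_cast (by omega : N₀ ≤ N))
  rw [div_le_iff₀ hε] at hN1
  set S : Set ℤ := {x : ℤ | z ≤ (x : ℝ) ∧ x ∈ Bad d c} with hS
  have h2 := odd_count (S := S) (z := z) (ρ := ε / 2) (X := (N : ℝ)) (by positivity)
    (fun x hx => hx.1) (by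
      intro A hA u v _
      have h3 := h A (by rw [hz] at hA; linarith)
      have h4 : ((cls S A (2 * A) 0 u v).card : ℝ) ≤ ct (Bad d c) A := by
        refine (cls_le_ct S A 0 u v).trans ?_
        exact ct_mono (fun x hx => hx.2) A
      rw [pow_zero, mul_one]
      linarith) hNR
  rw [show ⌊((N : ℕ) : ℝ)⌋ = ((N : ℕ) : ℤ) from Int.floor_natCast N] at h2
  have hz0 : 0 ≤ z := by rw [hz]; linarith
  have hsub : (Icc (1 : ℤ) N).filter (fun x => Odd x ∧ x ∈ Bad d c) ⊆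
      (Icc (1 : ℤ) N).filter (fun x => Odd x ∧ x ∈ S) ∪ Ioc 0 ⌊z⌋ := by
    intro x hx
    rw [mem_filter, mem_Icc] at hx
    rw [mem_union, mem_filter, mem_Icc, mem_Ioc, Int.le_floor]
    rcases le_or_gt z (x : ℝ) with hc | hc
    · left; exact ⟨hx.1, hx.2.1, hc, hx.2.2⟩
    · right; exact ⟨by omega, hc.le⟩
  have h3 : ((Ioc 0 ⌊z⌋).card : ℝ) ≤ z := by
    rw [Int.card_Ioc, sub_zero]
    have e1 : (0 : ℤ) ≤ ⌊z⌋ := Int.floor_nonneg.2 hz0
    have e2 : ((⌊z⌋.toNat : ℕ) : ℤ) = ⌊z⌋ := Int.toNat_of_nonneg e1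
    have e3 : ((⌊z⌋.toNat : ℕ) : ℝ) = ((⌊z⌋ : ℤ) : ℝ) := by exact_mod_cast e2
    rw [e3]
    exact Int.floor_le _
  have h4 : (((Icc (1 : ℤ) N).filter (fun x => Odd x ∧ x ∈ Bad d c)).card : ℝ) ≤
      (((Icc (1 : ℤ) N).filter (fun x => Odd x ∧ x ∈ S)).card : ℝ) + ((Ioc 0 ⌊z⌋).card : ℝ) := by
    exact_mod_cast (card_le_card hsub).trans (card_union_le _ _)
  have h5 : (((Icc (1 : ℤ) N).filter (fun x => Odd x ∧ x ∈ S)).card : ℝ) ≤ ε / 2 * N := by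
    convert h2
  linarith

theorem log_27_16 : 1 / 2 < Real.log (27 / 16) := by
  rw [Real.lt_log_iff_exp_lt (by norm_num)]
  by_contra hcon
  push Not at hcon
  have h1 : Real.exp (1 / 2) ^ 2 = Real.exp 1 := by rw [← Real.exp_nat_mul]; norm_num
  have h2 : ((27 : ℝ) / 16) ^ 2 ≤ Real.exp (1 / 2) ^ 2 := pow_le_pow_left₀ (by norm_num) hcon 2
  rw [h1] at h2
  have := Real.exp_one_lt_d9
  norm_num at h2
  linarith

/-- the choice of the parameter -/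
theorem exists_c {U : ℝ} (hU : U < 2) : ∃ c : ℝ, 0 < c ∧ c ≤ 2 ∧ c * Real.log (27 / 16) < 1 ∧
    U < c * Real.log (729 / 256) := by
  have hmu := log_27_16
  set mu := Real.log (27 / 16) with hmudef
  have hlam : Real.log (729 / 256) = 2 * mu := by
    rw [hmudef, show (729 : ℝ) / 256 = (27 / 16) ^ 2 by norm_num, Real.log_pow]; norm_num
  set w := max U 0 with hw
  have hw0 : 0 ≤ w := le_max_right _ _
  have hwU : U ≤ w := le_max_left _ _
  have hw2 : w < 2 := max_lt hU (by norm_num)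
  have hmu0 : 0 < mu := by linarith
  refine ⟨(w + 2) / (4 * mu), by positivity, ?_, ?_, ?_⟩
  · rw [div_le_iff₀ (by positivity)]; linarith
  · have : (w + 2) / (4 * mu) * mu = (w + 2) / 4 := by field_simp
    rw [this]; linarith
  · rw [hlam]
    have : (w + 2) / (4 * mu) * (2 * mu) = (w + 2) / 2 := by field_simp; ring
    rw [this]; linarith

/-- thinness of the hot set -/
theorem hot_ncard {d : ℤ} (hd : d = 1 ∨ d = -1) {c U : ℝ} (hc0 : 0 < c) (hc2 : c ≤ 2)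
    (hU : U < c * Real.log (729 / 256)) : ∃ Y : ℝ, 2 ≤ Y ∧ ∀ X : ℝ, Y ≤ X →
      ({a : ℕ | (a : ℤ) ∈ Hot d c ∧ (a : ℝ) ≤ X}.ncard : ℝ) ≤ X / (Real.log X) ^ U := by
  obtain ⟨X₀, hX₀, h⟩ := hot_count hd hc0 hc2 hU
  refine ⟨max X₀ 2, le_max_right _ _, ?_⟩
  intro X hX
  refine le_trans ?_ (h X ((le_max_left _ _).trans hX))
  have hfin : (fA (Hot d c) 1 X : Set ℤ).Finite := Finset.finite_toSet _
  have h1 : (fun a : ℕ => (a : ℤ)) '' {a : ℕ | (a : ℤ) ∈ Hot d c ∧ (a : ℝ) ≤ X} ⊆ (fA (Hot d c) 1 X : Set ℤ) := by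
    rintro _ ⟨a, ⟨h1, h2⟩, rfl⟩
    rw [mem_coe, mem_fA]
    have ha : 1 ≤ a := by
      rcases Nat.eq_zero_or_pos a with rfl | ha
      · have := h1.1
        simp at this
      · exact ha
    push_cast
    exact ⟨⟨by exact_mod_cast ha, h2⟩, h1⟩
  have h2 := Set.ncard_le_ncard h1 hfin
  rw [Set.ncard_coe_finset, Set.ncard_image_of_injective _ Nat.cast_injective] at h2
  exact_mod_cast h2

end Pool.Agent.H48T
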