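import Pool.Agent.H48T.Hit

/-! Hits of a thin set from a dyadic window. -/

set_option autoImplicit false

namespace Pool.Agent.H48T

open Finset
open Pool.Agent.H320R2.PD Pool.Agent.H499R2.ND
open Pool.Agent.H499R2.CO (Tz)
open Pool.Agent.R344.SP Pool.Agent.R344.TH

/-- the terms at least halve -/
theorem lower {d : ℤ} (hd : d % 2 = 1) {z : ℝ} (hz : |(d : ℝ)| ≤ z) {x : ℤ} : ∀ j : ℕ,
    (∀ i < j, z ≤ (((Tz d)^[i] x : ℤ) : ℝ)) → (x : ℝ) ≤ 2 ^ j * (((Tz d)^[j] x : ℤ) : ℝ)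
  | 0, _ => by simp
  | j + 1, h => by
    have ih := lower hd hz j (fun i hi => h i (by omega))
    have hy := h j (by omega)
    set y : ℤ := (Tz d)^[j] x with hydef
    have h3 := neg_abs_le (d : ℝ)
    rw [Function.iterate_succ_apply', ← hydef]
    have h5 : (y : ℝ) ≤ 2 * ((Tz d y : ℤ) : ℝ) := by
      by_cases hpar : y % 2 = 0
      · have := Tz_even (d := d) hpar
        have h2 : 2 * ((Tz d y : ℤ) : ℝ) = y := by exact_mod_cast this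
        linarith
      · have := Tz_odd hd hpar
        have h2 : 2 * ((Tz d y : ℤ) : ℝ) = 3 * y + d := by exact_mod_cast this
        linarith [abs_nonneg (d : ℝ)]
    calc (x : ℝ) ≤ 2 ^ j * y := ih
      _ ≤ 2 ^ j * (2 * ((Tz d y : ℤ) : ℝ)) := mul_le_mul_of_nonneg_left h5 (by positivity)
      _ = _ := by rw [pow_succ]; ring

/-- hits at time `T` after `k` odd terms -/
theorem hit_window {d : ℤ} (hd : d % 2 = 1) (hd3 : IsCoprime d 3) (A₀ : Set ℤ) {z θ : ℝ} (hz : 0 < z)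
    (hθ : 0 ≤ θ) (hA₀ : ∀ X : ℝ, z ≤ X → ((fA A₀ z X).card : ℝ) ≤ θ * X) {T k m : ℕ} (hT : 1 ≤ T)
    (hTd : (T : ℝ) * |(d : ℝ)| ≤ z) (hk : 1 ≤ k) (h : m = 0 ∨ 3 ^ (k + m) ≤ 2 ^ T) {u v : ℤ}
    (hu : IsCoprime u 3) {A : ℝ} (hA : 0 < A) (hAT : (3 : ℝ) ^ m * 2 ^ T ≤ 4 * A) (S : Finset ℤ)
    (hS : ∀ M ∈ S, (M : ℝ) < 2 * A ∧ M % 2 = 1 ∧ od d T M = k ∧ (Tz d)^[T] M ∈ A₀ ∧
      (∀ j ≤ T, z ≤ (((Tz d)^[j] M : ℤ) : ℝ)) ∧ (3 : ℤ) ^ m ∣ u * M - v) :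
    (S.card : ℝ) ≤ A / 3 ^ m * Real.sqrt (160 * θ * k ^ 3 * (T + 1)) := by
  set X : ℝ := 4 * 3 ^ k * A / 2 ^ T with hX
  have hX0 : 0 < X := by rw [hX]; positivity
  have hval : ∀ M ∈ S, z ≤ (((Tz d)^[T] M : ℤ) : ℝ) ∧ (((Tz d)^[T] M : ℤ) : ℝ) ≤ X := by
    intro M hM
    obtain ⟨h1, h2, h3, h4, h5, h6⟩ := hS M hM
    refine ⟨h5 T le_rfl, ?_⟩
    have hM0 : 0 < M := by
      have : (0 : ℝ) < M := lt_of_lt_of_le hz (h5 0 (Nat.zero_le _))
      exact_mod_cast this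
    have g1 := growth_two hd hz hTd hM0 (fun i hi => h5 i hi.le)
    rw [h3] at g1
    rw [hX, le_div_iff₀ (by positivity)]
    refine g1.trans ?_
    have : (3 : ℝ) ^ k * M ≤ 3 ^ k * (2 * A) := mul_le_mul_of_nonneg_left h1.le (by positivity)
    linarith
  rcases S.eq_empty_or_nonempty with rfl | ⟨M₀, hM₀⟩
  · rw [card_empty, Nat.cast_zero]; positivity
  have hzX : z ≤ X := (hval M₀ hM₀).1.trans (hval M₀ hM₀).2
  have hF := hA₀ X hzX
  have hhits := hits hd hd3 hT hk h hu (fA A₀ z X) (X := X) (by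
      intro y hy
      rw [mem_fA] at hy
      refine ⟨?_, hy.1.2⟩
      have : (0 : ℝ) < y := lt_of_lt_of_le hz hy.1.1
      have : 0 < y := by exact_mod_cast this
      omega) (by
      rw [hX, le_div_iff₀ (by positivity), pow_add]
      have : (3 : ℝ) ^ k * (3 ^ m * 2 ^ T) ≤ 3 ^ k * (4 * A) := mul_le_mul_of_nonneg_left hAT (by positivity)
      linarith) S (by
      intro M hM
      obtain ⟨h1, h2, h3, h4, h5, h6⟩ := hS M hM
      exact ⟨h2, h3, mem_fA.2 ⟨hval M hM, h4⟩, h6⟩)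
  have h2 : (S.card : ℝ) ^ 2 ≤ (A / 3 ^ m) ^ 2 * (160 * θ * k ^ 3 * (T + 1)) := by
    refine hhits.trans ?_
    calc ((fA A₀ z X).card : ℝ) * (2 * X * (5 * k ^ 3 * (T + 1) * 4 ^ T) / 9 ^ (k + m))
        ≤ (θ * X) * (2 * X * (5 * k ^ 3 * (T + 1) * 4 ^ T) / 9 ^ (k + m)) :=
          mul_le_mul_of_nonneg_right hF (by positivity)
      _ = (A / 3 ^ m) ^ 2 * (160 * θ * k ^ 3 * (T + 1)) := by
          rw [hX]
          have h4 : (4 : ℝ) ^ T = 2 ^ T * 2 ^ T := by rw [← mul_pow]; norm_num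
          have h9 : (9 : ℝ) ^ (k + m) = 3 ^ k * 3 ^ k * (3 ^ m * 3 ^ m) := by
            rw [pow_add, ← mul_pow, ← mul_pow]; norm_num
          rw [h4, h9]
          field_simp
          ring
  have h3 : (S.card : ℝ) ≤ Real.sqrt ((A / 3 ^ m) ^ 2 * (160 * θ * k ^ 3 * (T + 1))) :=
    Real.le_sqrt_of_sq_le h2
  rwa [Real.sqrt_mul (by positivity), Real.sqrt_sq (by positivity)] at h3

/-- hits at time `T` with an admissible number of odd terms -/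
theorem hit_time {d : ℤ} (hd : d % 2 = 1) (hd3 : IsCoprime d 3) (A₀ : Set ℤ) {z θ : ℝ} (hz : 0 < z)
    (hθ : 0 ≤ θ) (hA₀ : ∀ X : ℝ, z ≤ X → ((fA A₀ z X).card : ℝ) ≤ θ * X) {T m : ℕ} (hT : 1 ≤ T)
    (hTd : (T : ℝ) * |(d : ℝ)| ≤ z) {u v : ℤ}
    (hu : IsCoprime u 3) {A : ℝ} (hA : 0 < A) (hAT : (3 : ℝ) ^ m * 2 ^ T ≤ 4 * A) (S : Finset ℤ)
    (hS : ∀ M ∈ S, (M : ℝ) < 2 * A ∧ M % 2 = 1 ∧ (m = 0 ∨ 3 ^ (od d T M + m) ≤ 2 ^ T) ∧ (Tz d)^[T] M ∈ A₀ ∧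
      (∀ j ≤ T, z ≤ (((Tz d)^[j] M : ℤ) : ℝ)) ∧ (3 : ℤ) ^ m ∣ u * M - v) :
    (S.card : ℝ) ≤ A / 3 ^ m * (18 * Real.sqrt θ * T ^ 3) := by
  classical
  have hTR : (1 : ℝ) ≤ T := by exact_mod_cast hT
  have h1 : S.card = ∑ k ∈ Icc 1 T, (S.filter (fun M => od d T M = k)).card := by
    apply card_eq_sum_card_fiberwise
    intro M hM
    rw [mem_coe, mem_Icc]
    refine ⟨?_, od_le d T M⟩
    have h2 := (hS M hM).2.1
    obtain ⟨T', rfl⟩ : ∃ T', T = T' + 1 := ⟨T - 1, by omega⟩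
    rw [od_succ', h2]
    have : (1 : ℤ).toNat = 1 := rfl
    omega
  have h2 : ∀ k ∈ Icc 1 T, ((S.filter (fun M => od d T M = k)).card : ℝ) ≤
      A / 3 ^ m * (18 * Real.sqrt θ * T ^ 2) := by
    intro k hk
    rw [mem_Icc] at hk
    by_cases hadm : m = 0 ∨ 3 ^ (k + m) ≤ 2 ^ T
    · refine (hit_window hd hd3 A₀ hz hθ hA₀ hT hTd hk.1 hadm hu hA hAT _ (by
        intro M hM
        rw [mem_filter] at hM
        obtain ⟨g1, g2, g3, g4, g5, g6⟩ := hS M hM.1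
        exact ⟨g1, g2, hM.2, g4, g5, g6⟩)).trans ?_
      apply mul_le_mul_of_nonneg_left _ (by positivity)
      rw [show 160 * θ * (k : ℝ) ^ 3 * (T + 1) = θ * (160 * k ^ 3 * (T + 1)) by ring,
        Real.sqrt_mul hθ]
      have h3 : Real.sqrt (160 * (k : ℝ) ^ 3 * (T + 1)) ≤ 18 * T ^ 2 := by
        rw [Real.sqrt_le_left (by positivity)]
        have hkT : (k : ℝ) ≤ T := by exact_mod_cast hk.2
        have h4 : (k : ℝ) ^ 3 ≤ T ^ 3 := pow_le_pow_left₀ (Nat.cast_nonneg _) hkT 3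
        calc 160 * (k : ℝ) ^ 3 * ((T : ℝ) + 1) ≤ 160 * (T : ℝ) ^ 3 * (2 * (T : ℝ)) := by
              apply mul_le_mul (by linarith) (by linarith) (by positivity) (by positivity)
          _ ≤ (18 * (T : ℝ) ^ 2) ^ 2 := by
              have : (0 : ℝ) ≤ (T : ℝ) ^ 4 := by positivity
              nlinarith
      calc Real.sqrt θ * Real.sqrt (160 * (k : ℝ) ^ 3 * (T + 1)) ≤ Real.sqrt θ * (18 * T ^ 2) :=
            mul_le_mul_of_nonneg_left h3 (Real.sqrt_nonneg _)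
        _ = _ := by ring
    · have h3 : S.filter (fun M => od d T M = k) = ∅ := by
        rw [filter_eq_empty_iff]
        intro M hM hk'
        have := (hS M hM).2.2.1
        rw [hk'] at this
        exact hadm this
      rw [h3, card_empty, Nat.cast_zero]
      positivity
  rw [h1]
  push_cast
  refine (sum_le_sum h2).trans ?_
  rw [sum_const, nsmul_eq_mul, Nat.card_Icc]
  have h3 : ((T + 1 - 1 : ℕ) : ℝ) = T := by norm_num
  rw [h3]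
  apply le_of_eq
  ring

end Pool.Agent.H48T
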